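import Pool.Agent.K9h58.PT.Test

/-!
The classes `K U C n` are `Π⁰₂`, and they have the wanted properties.
-/

set_option autoImplicit false

namespace Pool.Agent.K9h58.PT

open Nat.Partrec (Code)
open Encodable
open Pool.Agent.H639.LU Pool.Agent.H869R3.FN Pool.Agent.R616.DI Pool.Agent.Y579.PP
open Pool.Agent.Helper446.Defs Pool.Agent.Helper446.Oracle Pool.Agent.Helper446
open Pool.Agent.Helper227 (lam pre allStr mem_allStr primrec_allStr lam_pre_eq)
open MeasureTheory
open scoped ENNReal

section comp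

variable {α : Type*} [Primcodable α]

theorem c_pow {n : α → ℕ} (hn : Computable n) : Computable fun a => 2 ^ (n a) := by
  have h : Computable fun a => (Nat.rec 1 (fun _ s => s * 2) (n a) : ℕ) := by
    refine Computable.nat_rec (f := n) (g := fun _ => 1) (h := fun _ p => p.2 * 2) hn
      (Computable.const _) ?_
    unfold Computable₂
    fun_prop
  refine h.of_eq fun a => ?_
  induction n a with
  | zero => rfl
  | succ k ih => rw [pow_succ, ← ih]

theorem c_Cn {e : α → Code} {ρ υ : α → Str} (he : Computable e) (hρ : Computable ρ)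
    (hυ : Computable υ) : Computable fun a => Cn (e a) (ρ a) (υ a) := by
  unfold Cn
  refine RE.clength (c_filter (L := fun a => allStr (υ a).length)
    (f := fun a σ => decide ((dec (e a) (js2 σ (υ a))).take (ρ a).length = ρ a)) ?_ ?_)
  · have h1 : Computable fun p : α × Str => dec (e p.1) (js2 p.2 (υ p.1)) :=
      c_dec (he.comp Computable.fst) (c_js2 Computable.snd (hυ.comp Computable.fst))
    exact RE.cdecide (RE.cp_eq (c_take h1 (by fun_prop)) (by fun_prop))
  · exact primrec_allStr.to_comp.comp (by fun_prop)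

theorem c_de {n : α → ℕ} (hn : Computable n) : Computable fun a => de (n a) := by
  unfold de
  exact (Primrec.option_getD.to_comp).comp (Computable.decode.comp hn) (Computable.const _)

end comp

theorem re_big (U : ℕ → Bool) : REIn (St U) fun a => Big U (de a) := by
  have h0 : Computable fun x : ℕ × Str => de x.1 := c_de Computable.fst
  have h1 : Computable fun x : ℕ × Str =>
      decide (2 ^ x.2.length < Cn (Denumerable.ofNat Code (de x.1).2.1) (de x.1).2.2 x.2 *
        2 ^ ((de x.1).1 + (de x.1).2.1 + 1)) := by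
    refine c_dlt (c_pow (by fun_prop)) (RE.cmul (c_Cn (c_ofCode (by fun_prop)) (by fun_prop)
      Computable.snd) (c_pow (by fun_prop)))
  refine (re_seg U h1).of_eq fun a => ?_
  rw [big_iff]
  simp only [seg_len, decide_eq_true_eq]

theorem La_le {U : ℕ → Bool} (hU : le (ch (J U)) (ch (J z0))) : le (La U) (ch (J z0)) :=
  le_trans' ((K5 K2).2.2.1 _ _ (re_pos (re_big U)) (re_neg (re_big U))) hU

/-- every second, or fourth digit -/
def sub (a b k : ℕ) (ζ : Str) : Str := (List.range k).map fun i => ζ.getD (a * i + b) false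

theorem sub_seg (a b k s : ℕ) (Z Y : ℕ → Bool) (h : ∀ i < k, a * i + b < s)
    (hY : ∀ i, Y i = Z (a * i + b)) : sub a b k (seg Z s) = seg Y k := by
  unfold sub
  conv_rhs => unfold seg
  refine List.map_congr_left fun i hi => ?_
  rw [List.mem_range] at hi
  rw [seg_getD Z s _ (h i hi), hY]

/-- the test with strings of length `k` -/
def tk (n k : ℕ) (δ υ γ l : Str) : Bool :=
  (List.range k).all fun e => (List.range k).all fun m =>
    !(decide (encode ((n, e, γ.take m) : ℕ × ℕ × Str) < k) &&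
      (!(l.getD (encode ((n, e, γ.take m) : ℕ × ℕ × Str)) false) &&
        decide ((dec (Denumerable.ofNat Code e) (js2 δ υ)).take m = γ.take m)))

/-- the test with the digits of `U ⊕ (C ⊕ L)` -/
def tz (x : ℕ × Str × Str) : Bool :=
  tk x.1 (x.2.2.length / 4) (x.2.1.take (x.2.2.length / 4)) (sub 2 0 (x.2.2.length / 4) x.2.2)
    (sub 4 1 (x.2.2.length / 4) x.2.2) (sub 4 3 (x.2.2.length / 4) x.2.2)

theorem c_tz : Computable tz := by
  unfold tz tk
  have d4 : Computable fun x : ℕ × Str × Str => x.2.2.length / 4 :=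
    (Primrec.nat_div.comp Primrec.id (Primrec.const 4)).to_comp.comp
      (g := fun x : ℕ × Str × Str => x.2.2.length) (by fun_prop)
  have hsub : ∀ a b : ℕ, Computable fun x : ℕ × Str × Str =>
      sub a b (x.2.2.length / 4) x.2.2 := by
    intro a b
    unfold sub
    refine c_map (f := fun (x : ℕ × Str × Str) i => x.2.2.getD (a * i + b) false) ?_ (c_range d4)
    exact c_getD (by fun_prop) (by fun_prop)
  refine c_all (L := fun x : ℕ × Str × Str => List.range (x.2.2.length / 4)) (f := fun x e =>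
    (List.range (x.2.2.length / 4)).all fun m =>
    !(decide (encode ((x.1, e, (sub 4 1 (x.2.2.length / 4) x.2.2).take m) : ℕ × ℕ × Str) <
        x.2.2.length / 4) &&
      (!((sub 4 3 (x.2.2.length / 4) x.2.2).getD
          (encode ((x.1, e, (sub 4 1 (x.2.2.length / 4) x.2.2).take m) : ℕ × ℕ × Str)) false) &&
        decide ((dec (Denumerable.ofNat Code e) (js2 (x.2.1.take (x.2.2.length / 4))
          (sub 2 0 (x.2.2.length / 4) x.2.2))).take m =
            (sub 4 1 (x.2.2.length / 4) x.2.2).take m)))) ?_ (c_range d4)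
  refine c_all (L := fun y : (ℕ × Str × Str) × ℕ => List.range (y.1.2.2.length / 4))
    (f := fun y m =>
    !(decide (encode ((y.1.1, y.2, (sub 4 1 (y.1.2.2.length / 4) y.1.2.2).take m) :
        ℕ × ℕ × Str) < y.1.2.2.length / 4) &&
      (!((sub 4 3 (y.1.2.2.length / 4) y.1.2.2).getD
          (encode ((y.1.1, y.2, (sub 4 1 (y.1.2.2.length / 4) y.1.2.2).take m) :
            ℕ × ℕ × Str)) false) &&
        decide ((dec (Denumerable.ofNat Code y.2) (js2 (y.1.2.1.take (y.1.2.2.length / 4))
          (sub 2 0 (y.1.2.2.length / 4) y.1.2.2))).take m =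
            (sub 4 1 (y.1.2.2.length / 4) y.1.2.2).take m)))) ?_
    (c_range (d4.comp Computable.fst))
  have g0 : Computable fun z : ((ℕ × Str × Str) × ℕ) × ℕ => z.1.1.2.2.length / 4 :=
    d4.comp (g := fun z : ((ℕ × Str × Str) × ℕ) × ℕ => z.1.1) (by fun_prop)
  have g1 : ∀ a b : ℕ, Computable fun z : ((ℕ × Str × Str) × ℕ) × ℕ =>
      sub a b (z.1.1.2.2.length / 4) z.1.1.2.2 := fun a b =>
    (hsub a b).comp (g := fun z : ((ℕ × Str × Str) × ℕ) × ℕ => z.1.1) (by fun_prop)
  have g2 : Computable fun z : ((ℕ × Str × Str) × ℕ) × ℕ =>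
      (sub 4 1 (z.1.1.2.2.length / 4) z.1.1.2.2).take z.2 := c_take (g1 4 1) (by fun_prop)
  have g3 : Computable fun z : ((ℕ × Str × Str) × ℕ) × ℕ =>
      encode ((z.1.1.1, z.1.2, (sub 4 1 (z.1.1.2.2.length / 4) z.1.1.2.2).take z.2) :
        ℕ × ℕ × Str) := RE.cencode (RE.cpair (by fun_prop) (RE.cpair (by fun_prop) g2))
  have g4 : Computable fun z : ((ℕ × Str × Str) × ℕ) × ℕ =>
      dec (Denumerable.ofNat Code z.1.2) (js2 (z.1.1.2.1.take (z.1.1.2.2.length / 4))
        (sub 2 0 (z.1.1.2.2.length / 4) z.1.1.2.2)) :=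
    c_dec (c_ofCode (by fun_prop)) (c_js2 (c_take (by fun_prop) g0) (g1 2 0))
  exact RE.cnot (RE.cand (c_dlt g3 g0) (RE.cand (RE.cnot (c_getD (g1 4 3) g3))
    (RE.cdecide (RE.cp_eq (c_take g4 Computable.snd) g2))))

theorem tz_iff {U C : ℕ → Bool} (n : ℕ) (D : ℕ → Bool) :
    (∀ s, tz (n, seg D s, seg (jn 0 U (jn 0 C (La U))) s) = true) ↔ K U C n D := by
  have h0 : ∀ s, tz (n, seg D s, seg (jn 0 U (jn 0 C (La U))) s) =
      tk n (s / 4) (seg D (s / 4)) (seg U (s / 4)) (seg C (s / 4)) (seg (La U) (s / 4)) := by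
    intro s
    unfold tz
    dsimp only
    rw [seg_len, take_seg' D (Nat.div_le_self _ _),
      sub_seg 2 0 (s / 4) s _ U (fun i hi => by omega) (fun i => by rw [add_zero, jn_even]),
      sub_seg 4 1 (s / 4) s _ C (fun i hi => by omega)
        (fun i => by rw [show 4 * i + 1 = 2 * (2 * i) + 1 by ring, jn_odd, jn_even]),
      sub_seg 4 3 (s / 4) s _ (La U) (fun i hi => by omega)
        (fun i => by rw [show 4 * i + 3 = 2 * (2 * i + 1) + 1 by ring, jn_odd, jn_odd])]
  simp only [h0]
  have h1 : ∀ k, tk n k (seg D k) (seg U k) (seg C k) (seg (La U) k) = true ↔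
      ∀ e < k, ∀ m < k, encode ((n, e, seg C m) : ℕ × ℕ × Str) < k →
        La U (encode ((n, e, seg C m) : ℕ × ℕ × Str)) = true ∨
        ¬ (dec (Denumerable.ofNat Code e) (seg (jn 0 D U) k)).take m = seg C m := by
    intro k
    unfold tk
    simp only [List.all_eq_true, List.mem_range]
    refine forall_congr' fun e => forall_congr' fun he => forall_congr' fun m =>
      forall_congr' fun hm => ?_
    rw [take_seg' C hm.le, js2_seg]
    by_cases hx : encode ((n, e, seg C m) : ℕ × ℕ × Str) < k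
    · rw [seg_getD (La U) k _ hx]
      simp only [hx, decide_true, Bool.true_and, Bool.not_eq_true', Bool.and_eq_false_iff,
        Bool.not_eq_false', decide_eq_false_iff_not, forall_const]
    · simp only [hx, decide_false, Bool.false_and, Bool.not_false, false_imp_iff]
  simp only [h1]
  constructor
  · intro h e m
    by_contra hcon
    push Not at hcon
    obtain ⟨h2, s, hs⟩ := hcon
    rw [seg_len] at hs
    set k := max (max (e + 1) (m + 1))
      (max (encode ((n, e, seg C m) : ℕ × ℕ × Str) + 1) s) with hk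
    have k1 : e < k := lt_of_lt_of_le (Nat.lt_succ_self e)
      ((le_max_left _ _).trans (le_max_left _ _))
    have k2 : m < k := lt_of_lt_of_le (Nat.lt_succ_self m)
      ((le_max_right _ _).trans (le_max_left _ _))
    have k3 : encode ((n, e, seg C m) : ℕ × ℕ × Str) < k := lt_of_lt_of_le (Nat.lt_succ_self _)
      ((le_max_left _ _).trans (le_max_right _ _))
    have k4 : s ≤ k := (le_max_right _ _).trans (le_max_right _ _)
    have h3 := h (4 * k)
    rw [show 4 * k / 4 = k by omega] at h3
    rcases h3 e k1 m k2 k3 with h4 | h4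
    · exact h2 h4
    · apply h4
      have h5 := op_mono (U := U) (e := Denumerable.ofNat Code e) (ρ := seg C m) (D := D) k4
        (by rw [seg_len]; exact hs)
      rwa [seg_len] at h5
  · intro h s e _ m _ _
    rcases h e m with h2 | h2
    · exact Or.inl h2
    · right
      intro h3
      exact h2 ⟨_, by rw [seg_len]; exact h3⟩

/-- the presentation of the classes -/
theorem present_K {U C : ℕ → Bool} (hU : le (ch (J U)) (ch (J z0))) (hC : le C (ch (J z0))) :
    ∃ p : Code, ∀ (n b : ℕ) (D : ℕ → Bool),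
      (∀ a, W p D (encode ((n, b, a) : ℕ × ℕ × ℕ))) ↔ K U C n D := by
  have hU' : le U (ch (J z0)) := by
    refine le_trans' ?_ hU
    obtain ⟨h1, h2⟩ := (turingReducible_iff (A := St U) (B := St U)).1 (le_refl' U)
    have h3 : ch (fun n => n ∈ St U) = U := by
      funext n
      rw [Bool.eq_iff_iff, ch_true]
      rfl
    have h4 := (K5 K2).2.2.1 (ch (J U)) (fun n => n ∈ St U) (re_pos h1) (re_pos h2)
    rwa [h3] at h4
  obtain ⟨p, hp⟩ := present (Z := jn 0 U (jn 0 C (La U))) (le_jn hU' (le_jn hC (La_le hU))) c_tz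
  exact ⟨p, fun n b D => (hp n b D).trans (tz_iff n D)⟩

theorem le_iff_tle {X Y : ℕ → Bool} : le Y X ↔ Pool.Agent.Helper227.TLe Y X := by
  have h : ∀ X : ℕ → Bool, chi (St X) = Pool.Agent.Helper227.chi X := by
    intro X
    funext n
    unfold chi Pool.Agent.Helper227.chi
    congr 1
    cases hX : X n
    · exact chiN_eq_zero.2 (by show ¬ X n = true; rw [hX]; decide)
    · exact chiN_eq_one.2 hX
  unfold le Pool.Agent.Helper227.TLe
  rw [h, h]

theorem measurable_op (U : ℕ → Bool) (e : Code) (ρ : Str) : MeasurableSet (Op U e ρ) := by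
  have h1 : Op U e ρ = ⋃ s, {D | (dec e (js2 (pre D s) (seg U s))).take ρ.length = ρ} := by
    ext D
    simp only [Op, Set.mem_iUnion, Set.mem_ofPred_eq]
    refine exists_congr fun s => ?_
    rw [← js2_seg]
    rfl
  rw [h1]
  exact MeasurableSet.iUnion fun s => Pool.Agent.Helper227.measurableSet_pre s
    (fun σ => (dec e (js2 σ (seg U s))).take ρ.length = ρ)

theorem op_anti (U C : ℕ → Bool) (e : Code) {m m' : ℕ} (h : m ≤ m') :
    Op U e (seg C m') ⊆ Op U e (seg C m) := by
  rintro D ⟨s, hs⟩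
  refine ⟨s, ?_⟩
  rw [seg_len] at hs ⊢
  have h1 := congrArg (List.take m) hs
  rwa [List.take_take, min_eq_left h, take_seg' C h] at h1

theorem null_rel {U C : ℕ → Bool} (hC : ¬ le C U) : lam {D | le C (jn 0 D U)} = 0 := by
  have h1 := Pool.Agent.Y785.EN.ae_not_tLe_rel (fun h => hC (le_iff_tle.2 h))
  rw [ae_iff] at h1
  simp only [not_not] at h1
  refine measure_mono_null (fun D hD => ?_) h1
  show Pool.Agent.Helper227.TLe C (Pool.Agent.Helper227.join U D)
  rw [← le_iff_tle]
  have e1 : Pool.Agent.Helper227.join U D = jn 0 U D := by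
    funext n
    unfold Pool.Agent.Helper227.join jn
    simp
  rw [e1]
  exact le_trans' hD (le_jn (le_jn_right _ _) (le_jn_left _ _))

theorem op_inter {U C : ℕ → Bool} (hC : ¬ le C U) (e : Code) :
    lam (⋂ m, Op U e (seg C m)) = 0 := by
  refine measure_mono_null (fun D hD => ?_) (null_rel hC)
  rw [Set.mem_iInter] at hD
  show le C (jn 0 D U)
  have h1 : ∀ m, ∃ s, (dec e (seg (jn 0 D U) s)).take m = seg C m := by
    intro m
    obtain ⟨s, hs⟩ := hD m
    rw [seg_len] at hs
    exact ⟨s, hs⟩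
  obtain ⟨Y, hY1, hY2⟩ := lim_dec (c := e) (X := jn 0 D U) fun N => by
    obtain ⟨s, hs⟩ := h1 N
    refine ⟨s, ?_⟩
    have := congrArg List.length hs
    rw [List.length_take, seg_len] at this
    omega
  have : C = Y := by
    funext n
    obtain ⟨s, hs⟩ := h1 (n + 1)
    have h2 := congrArg List.length hs
    rw [List.length_take, seg_len] at h2
    rw [hY1 s, take_seg' Y (by omega)] at hs
    have h3 := congrArg (fun L : Str => L[n]?) hs
    simp only [seg_get] at h3
    rw [if_pos (by omega), if_pos (by omega)] at h3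
    exact (Option.some.inj h3).symm
  rw [this]
  exact hY2

/-- the members of the classes do not compute `C` -/
theorem K_not {U C : ℕ → Bool} (hC : ¬ le C U) {n : ℕ} {D : ℕ → Bool} (hD : K U C n D) :
    ¬ le C (jn 0 D U) := by
  intro hle
  obtain ⟨e, he⟩ := (le_iff _ _).1 hle
  have h1 : ∀ m, D ∈ Op U e (seg C m) := by
    intro m
    obtain ⟨s, hs⟩ := dec_long he m
    obtain ⟨k, hk⟩ := dec_seg he s
    refine ⟨s, ?_⟩
    have h2 := hs s le_rfl
    rw [hk, seg_len] at h2
    rw [hk, seg_len, take_seg' C h2]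
  have h2 : ∀ m, (1 / 2 : ℝ≥0∞) ^ (n + encode e + 1) < lam (Op U e (seg C m)) := by
    intro m
    rcases hD (encode e) m with h3 | h3
    · unfold La at h3
      rw [ch_true, de_encode] at h3
      unfold Big at h3
      simpa only [Denumerable.ofNat_encode] using h3
    · rw [Denumerable.ofNat_encode] at h3
      exact absurd (h1 m) h3
  have h3 : Filter.Tendsto (fun m => lam (Op U e (seg C m))) Filter.atTop
      (nhds (lam (⋂ m, Op U e (seg C m)))) :=
    tendsto_measure_iInter_atTop (fun m => (measurable_op U e _).nullMeasurableSet)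
      (fun m m' h => op_anti U C e h) ⟨0, measure_ne_top _ _⟩
  rw [op_inter hC] at h3
  have h4 : (0 : ℝ≥0∞) < (1 / 2) ^ (n + encode e + 1) := by
    refine ENNReal.pow_pos ?_ _
    norm_num
  obtain ⟨m, hm⟩ := ((tendsto_order.1 h3).2 _ h4).exists
  exact absurd hm (not_lt.2 (h2 m).le)

theorem sum_geom (n : ℕ) : ∑' e : ℕ, (1 / 2 : ℝ≥0∞) ^ (n + e + 1) = (1 / 2) ^ n := by
  have h1 : ∀ e : ℕ, (1 / 2 : ℝ≥0∞) ^ (n + e + 1) = (1 / 2) ^ (n + 1) * (1 / 2) ^ e := by
    intro e
    rw [← pow_add]
    congr 1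
    omega
  simp only [h1]
  rw [ENNReal.tsum_mul_left, ENNReal.tsum_geometric, pow_succ, mul_assoc]
  have h2 : (1 / 2 : ℝ≥0∞) * (1 - 1 / 2)⁻¹ = 1 := by
    have h3 : (1 : ℝ≥0∞) - 1 / 2 = 1 / 2 := by
      rw [one_div]
      exact ENNReal.one_sub_inv_two
    rw [h3]
    refine ENNReal.mul_inv_cancel ?_ ?_
    · norm_num
    · norm_num
  rw [h2, mul_one]

/-- almost all sets are in one of the classes -/
theorem ae_K (U C : ℕ → Bool) : ∀ᵐ D ∂lam, ∃ n, K U C n D := by
  have h1 : ∀ n, lam {D | ¬ K U C n D} ≤ (1 / 2) ^ n := by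
    intro n
    classical
    set G : ℕ → Set (ℕ → Bool) := fun e => {D | ∃ m,
      ¬ Big U (n, e, seg C m) ∧ D ∈ Op U (Denumerable.ofNat Code e) (seg C m)} with hG
    have h2 : {D | ¬ K U C n D} ⊆ ⋃ e, G e := by
      intro D hD
      have h3 : ¬ K U C n D := hD
      unfold K at h3
      push Not at h3
      obtain ⟨e, m, h4, h5⟩ := h3
      rw [Set.mem_iUnion]
      refine ⟨e, m, fun h6 => h4 ?_, h5⟩
      unfold La
      rw [ch_true, de_encode]
      exact h6
    have h3 : ∀ e, lam (G e) ≤ (1 / 2) ^ (n + e + 1) := by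
      intro e
      by_cases hex : ∃ m, ¬ Big U (n, e, seg C m)
      · have h4 := Nat.find_spec hex
        have h5 := fun m hm => Nat.find_min' hex (m := m) hm
        generalize Nat.find hex = m₀ at h4 h5
        refine (measure_mono (t := Op U (Denumerable.ofNat Code e) (seg C m₀)) ?_).trans ?_
        · rintro D ⟨m, hm, hD⟩
          exact op_anti U C _ (h5 m hm) hD
        · unfold Big at h4
          exact not_lt.1 h4
      · have h4 : G e = ∅ := by
          ext D
          simp only [Set.mem_empty_iff_false, iff_false]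
          rintro ⟨m, hm, -⟩
          exact hex ⟨m, hm⟩
        rw [h4, measure_empty]
        exact zero_le
    calc lam {D | ¬ K U C n D} ≤ lam (⋃ e, G e) := measure_mono h2
      _ ≤ ∑' e, lam (G e) := measure_iUnion_le _
      _ ≤ ∑' e, (1 / 2) ^ (n + e + 1) := ENNReal.tsum_le_tsum h3
      _ = (1 / 2) ^ n := sum_geom n
  rw [ae_iff]
  have h2 : ∀ n, lam {D | ¬ ∃ n, K U C n D} ≤ (1 / 2) ^ n := by
    intro n
    refine (measure_mono ?_).trans (h1 n)
    intro D hD hK
    exact hD ⟨n, hK⟩
  have h3 : Filter.Tendsto (fun n : ℕ => (1 / 2 : ℝ≥0∞) ^ n) Filter.atTop (nhds 0) := by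
    refine ENNReal.tendsto_pow_atTop_nhds_zero_of_lt_one ?_
    norm_num
  exact le_antisymm (ge_of_tendsto' h3 h2) zero_le

end Pool.Agent.K9h58.PT
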