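import Pool.Agent.K9h58.PT.Level

/-!
Gluing of solutions which are given on classes of sets.
-/

set_option autoImplicit false

namespace Pool.Agent.K9h58.PT

open Nat.Partrec (Code)
open Encodable
open Pool.Agent.H639.LU Pool.Agent.H869R3.FN Pool.Agent.R616.DI Pool.Agent.Y579.PP
open Pool.Agent.Helper446.Defs Pool.Agent.Helper446.Oracle Pool.Agent.Helper446

/-- the enumeration of the target of the guess `k` -/
def Bg (q : Code) (k : ℕ) (σ : Str) (x : ℕ) : Bool :=
  hst q (dec (gi k) σ) (Nat.pair (gm k).unpair.1 x)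

theorem Bg_mono (q : Code) (k : ℕ) (σ τ : Str) (x : ℕ) (h : σ <+: τ)
    (hB : Bg q k σ x = true) : Bg q k τ x = true := by
  obtain ⟨-, m2, -, -⟩ := N2 N1
  obtain ⟨d1, d2, d3, d4⟩ := D1
  exact m2 _ _ _ _ (d3 _ _ _ h) hB

theorem c_Bg (q : Code) : Computable fun x : Unit × ℕ × Str × ℕ => Bg q x.2.1 x.2.2.1 x.2.2.2 := by
  unfold Bg
  exact c_hst (Computable.const q) (c_dec (by fun_prop) (by fun_prop)) (by fun_prop)

/-- a true guess -/
theorem of_unb2 {p q : Code} {k : ℕ} {X : ℕ → Bool} (h : ¬ Bdd (lk p 0) X k) :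
    ∃ Y : ℕ → Bool, le Y X ∧ le X Y ∧ (∀ i, W p Y (cf (gm k) i)) ∧
      ∀ x, BX (Bg q) X k x ↔ W q Y (Nat.pair (gm k).unpair.1 x) := by
  obtain ⟨m1, m2, -, -⟩ := N2 N1
  obtain ⟨d1, d2, d3, d4⟩ := D1
  have h1 : ∀ N, ∃ t, ∀ i < N, good p k (seg X t) i = true := by
    intro N
    by_contra hcon
    apply h
    refine ⟨N, fun t => ?_⟩
    by_contra h2
    unfold lk allow at h2
    simp only [decide_true, Bool.true_or, cond_true] at h2
    push Not at h2
    exact hcon ⟨t, (le_run.1 h2.le).2⟩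
  have hgood : ∀ {t i}, good p k (seg X t) i = true →
      hst p (dec (gi k) (seg X t)) (cf (gm k) i) = true ∧
      i < (dec (gj k) (dec (gi k) (seg X t))).length ∧
      (dec (gj k) (dec (gi k) (seg X t)))[i]? = (seg X t)[i]? := by
    intro t i hg
    unfold good at hg
    simpa only [Bool.and_eq_true, decide_eq_true_eq] using hg
  have hlong : ∀ N, ∃ t, N ≤ (dec (gi k) (seg X t)).length := fun N => by
    obtain ⟨t, ht⟩ := h1 (N + 1)
    exact ⟨t, (le_of_lt (hgood (ht N (by omega))).2.1).trans (d4 _ _)⟩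
  obtain ⟨Y, hY1, hY2⟩ := lim_dec (c := gi k) (X := X) hlong
  refine ⟨Y, hY2, ?_, ?_, ?_⟩
  · obtain ⟨Z, hZ1, hZ2⟩ := lim_dec (c := gj k) (X := Y) fun N => by
      obtain ⟨t, ht⟩ := h1 (N + 1)
      refine ⟨(dec (gi k) (seg X t)).length, ?_⟩
      rw [← hY1 t]
      exact le_of_lt (hgood (ht N (by omega))).2.1
    have : X = Z := by
      funext n
      obtain ⟨t, ht⟩ := h1 (n + 1)
      obtain ⟨g1, g2, g3⟩ := hgood (ht n (by omega))
      have h3 := hZ1 (dec (gi k) (seg X t)).length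
      rw [← hY1 t] at h3
      rw [h3, seg_get, if_pos g2, seg_get] at g3
      by_cases hn : n < t
      · rw [if_pos hn] at g3
        exact (Option.some.inj g3).symm
      · rw [if_neg hn] at g3
        cases g3
    rw [this]
    exact hZ2
  · intro i
    obtain ⟨t, ht⟩ := h1 (i + 1)
    have h3 := (hgood (ht i (by omega))).1
    rw [hY1 t] at h3
    exact (m1 _ _ _).2 ⟨_, h3⟩
  · intro x
    rw [m1]
    constructor
    · rintro ⟨t, ht⟩
      unfold Bg at ht
      rw [hY1 t] at ht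
      exact ⟨_, ht⟩
    · rintro ⟨s, hs⟩
      obtain ⟨t, ht⟩ := hlong s
      refine ⟨t, ?_⟩
      unfold Bg
      rw [hY1 t]
      exact m2 _ _ _ _ (G2_seg_le Y ht) hs

/-- an operator joined with the oracle -/
theorem join_op {f : ℕ × Str → Bool} (hf : Computable f) : ∃ R : Code, ∀ X : ℕ → Bool,
    ch (W R X) = jn 0 X (ch fun n => ∃ s, f (n, seg X s) = true) := by
  have m2 : Computable (fun n : ℕ => n % 2) :=
    (Primrec.nat_mod.comp Primrec.id (Primrec.const 2)).to_comp
  have d2 : Computable (fun n : ℕ => n / 2) :=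
    (Primrec.nat_div.comp Primrec.id (Primrec.const 2)).to_comp
  have h1 : Computable fun q : ℕ × Str => decide (q.1 % 2 = 0) :=
    c_deq (m2.comp Computable.fst) (Computable.const 0)
  have h2 : Computable fun q : ℕ × Str => q.2.getD (q.1 / 2) false :=
    c_getD Computable.snd (d2.comp Computable.fst)
  have h3 : Computable fun q : ℕ × Str => f (q.1 / 2, q.2) :=
    hf.comp (g := fun q : ℕ × Str => (q.1 / 2, q.2)) ((d2.comp Computable.fst).pair Computable.snd)
  obtain ⟨R, hR⟩ := w_of_fun (RE.ccond h1 h2 h3)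
  refine ⟨R, fun X => funext fun n => ?_⟩
  rw [Bool.eq_iff_iff, ch_true, hR]
  by_cases hn : n % 2 = 0
  · have e : n = 2 * (n / 2) := by omega
    conv_rhs => rw [e, jn_even]
    simp only [hn, decide_true, cond_true]
    constructor
    · rintro ⟨s, hs⟩
      by_cases hs' : n / 2 < s
      · rw [seg_getD X s _ hs'] at hs
        exact hs
      · rw [List.getD_eq_getElem?_getD, seg_get, if_neg hs'] at hs
        cases hs
    · intro h
      refine ⟨n / 2 + 1, ?_⟩
      rw [seg_getD X _ _ (by omega)]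
      exact h
  · have e : n = 2 * (n / 2) + 1 := by omega
    conv_rhs => rw [e, jn_odd, ch_true]
    simp only [hn, decide_false, cond_false]

/-- the gluing theorem -/
theorem glue (p q : Code) (C : ℕ → (ℕ → Bool) → Prop)
    (hC : ∀ n Y, C n Y ↔ ∃ b, ∀ a, W p Y (encode ((n, b, a) : ℕ × ℕ × ℕ)))
    (hcomp : ∀ n m D E, C n D → C m E → le D E → le E D →
      le (jn 0 D (ch fun x => W q D (Nat.pair n x))) (jn 0 E (ch fun x => W q E (Nat.pair m x))))
    (hpost : ∀ n D, C n D → ¬ le (ch fun x => W q D (Nat.pair n x)) D ∧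
      ¬ le (ch (J D)) (jn 0 D (ch fun x => W q D (Nat.pair n x)))) :
    ∃ r : Code, (∀ X : ℕ → Bool, le X (ch (W r X)) ∧ ¬ le (ch (W r X)) X ∧
        le (ch (W r X)) (ch (J X)) ∧ ¬ le (ch (J X)) (ch (W r X)) ∧
        ((∀ n D, C n D → ¬ (le D X ∧ le X D)) → le (ch (J (ch (W r X)))) (ch (J X)))) ∧
      ∀ n D, C n D → ∀ X : ℕ → Bool, le X D → le D X →
        le (ch (W r X)) (jn 0 D (ch fun x => W q D (Nat.pair n x))) ∧
        le (jn 0 D (ch fun x => W q D (Nat.pair n x))) (ch (W r X)) := by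
  classical
  have hst : Computable (st (lk p 0) (Bg q)) := by
    refine c_st (π := Unit) (l := fun _ => lk p 0) (B := fun _ => Bg q) ?_ (c_Bg q)
      (q := fun _ : Str => ()) (σ := fun σ => σ) (by fun_prop) (by fun_prop)
    exact (c_lk p).comp (g := fun x : Unit × ℕ × Str =>
      (((0, Code.zero), x.2.1, x.2.2) : (ℕ × Code) × ℕ × Str)) (by fun_prop)
  have hmem : Computable fun x : ℕ × Str => decide (x.1 ∈ (st (lk p 0) (Bg q) x.2).1) :=
    c_mem Computable.fst (RE.cfst (hst.comp Computable.snd))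
  obtain ⟨R, hR'⟩ := join_op hmem
  have hR : ∀ X, ch (W R X) = jn 0 X (ch (WX (lk p 0) (Bg q) X)) := by
    intro X
    rw [hR']
    congr 1
    refine ch_congr fun n => ?_
    simp only [decide_eq_true_eq, WX]
  have hDC : ∀ m Z, D p m Z → C m.unpair.1 Z := by
    intro m Z hZ
    exact (hC _ _).2 ⟨m.unpair.2, hZ⟩
  have key : ∀ X : ℕ → Bool,
      ((∀ k, Bdd (lk p 0) X k) ∧ le (ch (J (ch (W R X)))) (ch (J X)) ∧ ¬ le (ch (W R X)) X) ∨
      ∃ n Y, C n Y ∧ eqv Y X ∧ eqv (ch (W R X)) (jn 0 Y (ch fun x => W q Y (Nat.pair n x))) := by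
    intro X
    by_cases hB : ∀ k, Bdd (lk p 0) X k
    · left
      obtain ⟨h1, h2⟩ := low_case hst (lk_mono p 0) hB
      rw [hR]
      exact ⟨hB, h1, fun h => h2 (le_trans' (le_jn_right _ _) h)⟩
    · right
      push Not at hB
      have h1 := Nat.find_spec hB
      have h2 := fun j hj => not_not.1 (Nat.find_min hB (m := j) hj)
      generalize Nat.find hB = k at h1 h2
      obtain ⟨Y, hYX, hXY, hD, hBX⟩ := of_unb2 (q := q) h1
      have hlc : Computable fun x : ℕ × Str => lk p 0 x.1 x.2 :=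
        (c_lk p).comp (g := fun x : ℕ × Str => (((0, Code.zero), x.1, x.2) : (ℕ × Code) × ℕ × Str))
          (by fun_prop)
      obtain ⟨h3, h4⟩ := code_case (lk_mono p 0) hst hlc (Bg_mono q) h2 h1
      have hV : ch (BX (Bg q) X k) = ch fun x => W q Y (Nat.pair (gm k).unpair.1 x) :=
        ch_congr hBX
      rw [hV] at h3 h4
      refine ⟨(gm k).unpair.1, Y, hDC _ _ hD, ⟨hYX, hXY⟩, ?_⟩
      rw [hR]
      constructor
      · refine le_jn (le_trans' hXY (le_jn_left _ _)) (le_trans' h3 ?_)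
        exact le_jn (le_trans' hXY (le_jn_left _ _)) (le_jn_right _ _)
      · exact le_jn (le_trans' hYX (le_jn_left _ _)) h4
  refine ⟨R, fun X => ?_, fun n E hE X h1 h2 => ?_⟩
  · have hX : le X (ch (W R X)) := by
      rw [hR]
      exact le_jn_left _ _
    refine ⟨hX, ?_, w_le_jump R X, ?_, fun hno => ?_⟩
    · rcases key X with ⟨-, -, h⟩ | ⟨n, Y, hY, hYX, hU⟩
      · exact h
      · intro h
        exact (hpost n Y hY).1 (le_trans' (le_jn_right _ _) (le_trans' hU.2 (le_trans' h hYX.2)))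
    · rcases key X with ⟨-, h, -⟩ | ⟨n, Y, hY, hYX, hU⟩
      · exact fun h' => not_jump _ (le_trans' h h')
      · intro h
        exact (hpost n Y hY).2 (le_trans' (jump_mono hYX.1) (le_trans' h hU.1))
    · rcases key X with ⟨-, h, -⟩ | ⟨n, Y, hY, hYX, -⟩
      · exact h
      · exact absurd hYX (hno n Y hY)
  · rcases key X with ⟨h, -, -⟩ | ⟨m, Y, hY, hYX, hU⟩
    · exfalso
      obtain ⟨i, hi⟩ := (le_iff _ _).1 h2
      obtain ⟨j, hj⟩ := (le_iff _ _).1 h1
      obtain ⟨b, hb⟩ := (hC _ _).1 hE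
      refine unb_of (p := p) (a := 0) (k := gk (Nat.pair n b) i j) (X := X) (Y := E) ?_ ?_ ?_ ?_
        (h _)
      · unfold allow
        simp
      · rw [gi_gk]
        exact hi
      · rw [gj_gk]
        exact hj
      · intro a
        rw [gm_gk]
        unfold cf
        rw [Nat.unpair_pair]
        exact hb a
    · have e1 : le Y E := le_trans' hYX.1 h1
      have e2 : le E Y := le_trans' h2 hYX.2
      exact ⟨le_trans' hU.1 (hcomp m n Y E hY hE e1 e2), le_trans' (hcomp n m E Y hE hY e2 e1) hU.2⟩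

end Pool.Agent.K9h58.PT
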