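import Pool.Agent.K9h58.PT.AE1
import Pool.Agent.K9h58.PT.Glue

/-!
An index which is a solution for all oracles and which is almost everywhere the join with a given
low c.e. set.
-/

set_option autoImplicit false

namespace Pool.Agent.K9h58.PT

open Nat.Partrec (Code)
open Encodable
open Pool.Agent.H639.LU Pool.Agent.H869R3.FN Pool.Agent.R616.DI Pool.Agent.Y579.PP
open Pool.Agent.Helper446.Defs Pool.Agent.Helper446.Oracle Pool.Agent.Helper446
open Pool.Agent.Helper227 (lam)
open MeasureTheory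

theorem le_ju (U : ℕ → Bool) : le U (ch (J U)) := by
  obtain ⟨h1, h2⟩ := (turingReducible_iff (A := St U) (B := St U)).1 (le_refl' U)
  have h3 : ch (fun n => n ∈ St U) = U := by
    funext n
    rw [Bool.eq_iff_iff, ch_true]
    rfl
  have h4 := (K5 K2).2.2.1 (ch (J U)) (fun n => n ∈ St U) (re_pos h1) (re_pos h2)
  rwa [h3] at h4

theorem z0_le (D : ℕ → Bool) : le z0 D := by
  have h1 : z0 = ch (fun _ => False) := by
    funext n
    unfold z0
    rw [eq_comm, Bool.eq_false_iff]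
    exact fun h => ch_true.1 h
  have h2 : REIn (St D) (fun _ : ℕ => True) := by
    refine (re_seg D (f := fun _ : ℕ × Str => true) (Computable.const _)).of_eq fun n => ?_
    simp
  have h3 : REIn (St D) (fun _ : ℕ => False) := by
    refine (re_seg D (f := fun _ : ℕ × Str => false) (Computable.const _)).of_eq fun n => ?_
    simp
  rw [h1]
  exact (K5 K2).2.2.1 D (fun _ => False) h3 (h2.of_eq fun n => by simp)

/-- two `Π⁰₂` conditions as one -/
theorem both (p q : Code) : ∃ r : Code, ∀ (Y : ℕ → Bool) (n b a : ℕ),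
    W r Y (encode ((n, b, a) : ℕ × ℕ × ℕ)) ↔
      if a % 2 = 0 then W p Y (encode ((n.unpair.1, b, a / 2) : ℕ × ℕ × ℕ))
      else W q Y (encode ((n.unpair.2, b, a / 2) : ℕ × ℕ × ℕ)) := by
  have m2 : Computable (fun n : ℕ => n % 2) :=
    (Primrec.nat_mod.comp Primrec.id (Primrec.const 2)).to_comp
  have d2 : Computable (fun n : ℕ => n / 2) :=
    (Primrec.nat_div.comp Primrec.id (Primrec.const 2)).to_comp
  have h1 : Computable fun x : ℕ × Str => decide (x.1.unpair.2.unpair.2 % 2 = 0) :=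
    c_deq (m2.comp (g := fun x : ℕ × Str => x.1.unpair.2.unpair.2) (by fun_prop))
      (Computable.const 0)
  have hd : Computable fun x : ℕ × Str => x.1.unpair.2.unpair.2 / 2 :=
    d2.comp (g := fun x : ℕ × Str => x.1.unpair.2.unpair.2) (by fun_prop)
  have h2 : Computable fun x : ℕ × Str =>
      Nat.pair x.1.unpair.1.unpair.1 (Nat.pair x.1.unpair.2.unpair.1
        (x.1.unpair.2.unpair.2 / 2)) :=
    RE.cnatpair (by fun_prop) (RE.cnatpair (by fun_prop) hd)
  have h2' : Computable fun x : ℕ × Str =>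
      Nat.pair x.1.unpair.1.unpair.2 (Nat.pair x.1.unpair.2.unpair.1
        (x.1.unpair.2.unpair.2 / 2)) :=
    RE.cnatpair (by fun_prop) (RE.cnatpair (by fun_prop) hd)
  have h3 := c_hst (r := fun _ : ℕ × Str => p) (Computable.const p) Computable.snd h2
  have h4 := c_hst (r := fun _ : ℕ × Str => q) (Computable.const q) Computable.snd h2'
  obtain ⟨r, hr⟩ := w_of_fun (RE.ccond h1 h3 h4)
  obtain ⟨m1, -, -, -⟩ := N2 N1
  refine ⟨r, fun Y n b a => ?_⟩
  rw [hr]
  simp only [Encodable.encode_prod_val, encode_nat, Nat.unpair_pair]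
  by_cases hn : a % 2 = 0
  · rw [if_pos hn, decide_eq_true hn, m1]
    rfl
  · rw [if_neg hn, decide_eq_false hn, m1]
    rfl

/-- an index of a c.e. set, for use with all oracles -/
theorem no_oracle (a : Code) : ∃ q : Code, ∀ (Y : ℕ → Bool) (n x : ℕ),
    W q Y (Nat.pair n x) ↔ W a z0 x := by
  have h1 : Computable fun x : ℕ × Str => (List.range x.2.length).map fun _ => false :=
    c_map (f := fun (_ : ℕ × Str) (_ : ℕ) => false) (Computable.const _) (by fun_prop)
  obtain ⟨q, hq⟩ := w_of_fun (c_hst (r := fun _ : ℕ × Str => a) (Computable.const a) h1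
    (e := fun x : ℕ × Str => x.1.unpair.2) (by fun_prop))
  obtain ⟨m1, -, -, -⟩ := N2 N1
  refine ⟨q, fun Y n x => ?_⟩
  rw [hq, m1]
  simp only [Nat.unpair_pair, seg_len]
  rfl

/-- there is a low noncomputable c.e. set -/
theorem exists_low : ∃ a : Code, le (ch (J (ch (W a z0)))) (ch (J z0)) ∧
    ¬ le (ch (W a z0)) z0 := by
  have hst : Computable (st (fun _ _ => 0) (fun _ _ _ => false)) := by
    refine c_st (π := Unit) (l := fun _ _ _ => 0) (B := fun _ _ _ _ => false)
      (Computable.const _) (Computable.const _)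
      (q := fun _ : Str => ()) (σ := fun σ => σ) (by fun_prop) (by fun_prop)
  have hmem : Computable fun x : ℕ × Str =>
      decide (x.1 ∈ (st (fun _ _ => 0) (fun _ _ _ => false) x.2).1) :=
    c_mem Computable.fst (RE.cfst (hst.comp Computable.snd))
  obtain ⟨a, ha⟩ := w_of_fun hmem
  have e : W a z0 = WX (fun _ _ => 0) (fun _ _ _ => false) z0 := by
    funext n
    rw [eq_iff_iff, ha]
    unfold WX
    simp only [decide_eq_true_eq]
  obtain ⟨h1, h2⟩ := low_case (X := z0) hst (fun _ _ _ _ => le_rfl) (fun k => ⟨0, fun _ => le_rfl⟩)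
  refine ⟨a, ?_, ?_⟩
  · rw [e]
    exact le_trans' (jump_mono (le_jn_right _ _)) h1
  · rw [e]
    exact h2

/-- the theorem on almost all sets -/
theorem ae_join (a : Code) (hlow : le (ch (J (ch (W a z0)))) (ch (J z0)))
    (hnc : ¬ le (ch (W a z0)) z0) :
    ∃ r : Code, (∀ X : ℕ → Bool, le X (ch (W r X)) ∧ ¬ le (ch (W r X)) X ∧
        le (ch (W r X)) (ch (J X)) ∧ ¬ le (ch (J X)) (ch (W r X))) ∧
      ∀ᵐ D ∂lam, ∀ X : ℕ → Bool, le X D → le D X →
        le (ch (W r X)) (jn 0 D (ch (W a z0))) ∧ le (jn 0 D (ch (W a z0))) (ch (W r X)) := by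
  set A : ℕ → Bool := ch (W a z0) with hA
  have hAJ : le A (ch (J z0)) := w_le_jump a z0
  have hJA : ¬ le (ch (J z0)) A := fun h => not_jump _ (le_trans' hlow h)
  obtain ⟨p1, hp1⟩ := present_K (U := z0) (C := A) (le_refl' _) hAJ
  obtain ⟨p2, hp2⟩ := present_K (U := A) (C := ch (J z0)) hlow (le_refl' _)
  obtain ⟨p, hp⟩ := both p1 p2
  obtain ⟨q, hq⟩ := no_oracle a
  set C : ℕ → (ℕ → Bool) → Prop := fun n D =>
    K z0 A n.unpair.1 D ∧ K A (ch (J z0)) n.unpair.2 D with hC
  have hC1 : ∀ (n b : ℕ) (Y : ℕ → Bool),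
      (∀ a, W p Y (encode ((n, b, a) : ℕ × ℕ × ℕ))) ↔ C n Y := by
    intro n b Y
    constructor
    · intro h
      refine ⟨(hp1 _ b _).1 fun a => ?_, (hp2 _ b _).1 fun a => ?_⟩
      · have h1 := (hp Y n b (2 * a)).1 (h _)
        rwa [if_pos (by omega), show 2 * a / 2 = a by omega] at h1
      · have h1 := (hp Y n b (2 * a + 1)).1 (h _)
        rwa [if_neg (by omega), show (2 * a + 1) / 2 = a by omega] at h1
    · rintro ⟨h1, h2⟩ a
      rw [hp]
      by_cases ha : a % 2 = 0
      · rw [if_pos ha]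
        exact (hp1 _ b _).2 h1 _
      · rw [if_neg ha]
        exact (hp2 _ b _).2 h2 _
  have hT : ∀ n D, jn 0 D (ch fun x => W q D (Nat.pair n x)) = jn 0 D A := by
    intro n D
    congr 1
    rw [hA]
    congr 1
    funext x
    exact propext (hq D n x)
  have g1 : ∀ n Y, C n Y ↔ ∃ b, ∀ a, W p Y (encode ((n, b, a) : ℕ × ℕ × ℕ)) := by
    intro n Y
    constructor
    · intro h
      exact ⟨0, (hC1 n 0 Y).2 h⟩
    · rintro ⟨b, h⟩
      exact (hC1 n b Y).1 h
  have g2 : ∀ n m D E, C n D → C m E → le D E → le E D →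
      le (jn 0 D (ch fun x => W q D (Nat.pair n x)))
        (jn 0 E (ch fun x => W q E (Nat.pair m x))) := by
    intro n m D E _ _ h1 _
    rw [hT, hT]
    exact le_jn (le_trans' h1 (le_jn_left _ _)) (le_jn_right _ _)
  have g3 : ∀ n D, C n D → ¬ le (ch fun x => W q D (Nat.pair n x)) D ∧
      ¬ le (ch (J D)) (jn 0 D (ch fun x => W q D (Nat.pair n x))) := by
    intro n D hD
    have e1 : ch (fun x => W q D (Nat.pair n x)) = A := by
      rw [hA]
      congr 1
      funext x
      exact propext (hq D n x)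
    rw [e1]
    refine ⟨fun h => K_not hnc hD.1 (le_trans' h (le_jn_left _ _)), fun h => ?_⟩
    exact K_not hJA hD.2 (le_trans' (jump_mono (z0_le D)) h)
  obtain ⟨r, k1, k2⟩ := glue p q C g1 g2 g3
  refine ⟨r, fun X => ⟨(k1 X).1, (k1 X).2.1, (k1 X).2.2.1, (k1 X).2.2.2.1⟩, ?_⟩
  filter_upwards [ae_K z0 A, ae_K A (ch (J z0))] with D h1 h2 X g1 g2
  obtain ⟨n1, h1⟩ := h1
  obtain ⟨n2, h2⟩ := h2
  have h3 := k2 (Nat.pair n1 n2) D (by
    rw [hC]
    dsimp only
    rw [Nat.unpair_pair]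
    exact ⟨h1, h2⟩) X g1 g2
  rwa [hT] at h3

end Pool.Agent.K9h58.PT
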