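import Pool.Agent.K9h58.PT.Low

/-!
The patching construction: the case of a least true guess.
-/

set_option autoImplicit false

namespace Pool.Agent.K9h58.PT

open Nat.Partrec (Code)
open Encodable
open Pool.Agent.H639.LU Pool.Agent.H869R3.FN Pool.Agent.R616.DI Pool.Agent.Y579.PP
open Pool.Agent.Helper446.Defs Pool.Agent.Helper446.Oracle Pool.Agent.Helper446

theorem le_jn_left (X Y : ℕ → Bool) : le X (jn 0 X Y) :=
  K4.2.2.2 (jn 0 X Y) X (fun n => 2 * n) (by fun_prop) fun n => (jn_even X Y n).symm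

theorem le_jn_right (X Y : ℕ → Bool) : le Y (jn 0 X Y) :=
  K4.2.2.2 (jn 0 X Y) Y (fun n => 2 * n + 1) (by fun_prop) fun n => (jn_odd X Y n).symm

/-- sets which agree from `R` on -/
theorem le_fin {P Q : ℕ → Prop} {R : ℕ} {Z : ℕ → Bool} (h : ∀ x ≥ R, P x ↔ Q x)
    (hQ : le (ch Q) Z) : le (ch P) Z := by
  classical
  obtain ⟨h1, h2⟩ := (K5 K2).2.2.2 _ _ hQ
  set F := (List.range R).filter fun x => decide (P x) with hF
  have hmem : ∀ x, x ∈ F ↔ x < R ∧ P x := by
    intro x
    simp [hF]
  refine (K5 K2).2.2.1 _ _ ?_ ?_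
  · refine (REIn.or (REIn.of_re (RE.mem_list (f := fun x : ℕ => x) (l := fun _ => F)
      (by fun_prop) (by fun_prop)))
      (REIn.and (REIn.of_re (RE.le (f := fun _ : ℕ => R) (g := fun x => x)
        (by fun_prop) (by fun_prop))) h1)).of_eq fun x => ?_
    rw [hmem]
    constructor
    · rintro (h3 | h3)
      · exact h3.2
      · exact (h x h3.1).2 h3.2
    · intro h3
      by_cases hx : x < R
      · exact Or.inl ⟨hx, h3⟩
      · exact Or.inr ⟨by omega, (h x (by omega)).1 h3⟩
  · refine (REIn.or (REIn.and (REIn.of_re (RE.not_mem_list (f := fun x : ℕ => x)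
      (l := fun _ => F) (by fun_prop) (by fun_prop)))
      (REIn.of_re (RE.lt (f := fun x : ℕ => x) (g := fun _ => R) (by fun_prop) (by fun_prop))))
      (REIn.and (REIn.of_re (RE.le (f := fun _ : ℕ => R) (g := fun x => x)
        (by fun_prop) (by fun_prop))) h2)).of_eq fun x => ?_
    rw [hmem]
    constructor
    · rintro (h3 | h3)
      · intro h4
        exact h3.1 ⟨h3.2, h4⟩
      · intro h4
        exact h3.2 ((h x h3.1).1 h4)
    · intro h3
      by_cases hx : x < R
      · exact Or.inl ⟨fun h4 => h3 h4.2, hx⟩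
      · exact Or.inr ⟨by omega, fun h4 => h3 ((h x (by omega)).2 h4)⟩

variable {l : ℕ → Str → ℕ} {B : ℕ → Str → ℕ → Bool} {X : ℕ → Bool}

theorem enter {t c : ℕ} (hc : c ∈ (st l B (seg X t)).1) : ∃ s < t,
    c ∈ (st l B (seg X (s + 1))).1 ∧ c ∉ (st l B (seg X s)).1 ∧ (Qa l B X s c ∨ Pa l B X s c) := by
  induction t with
  | zero => rw [st_zero] at hc; simp at hc
  | succ t ih =>
    by_cases h : c ∈ (st l B (seg X t)).1
    · obtain ⟨s, hs, h1⟩ := ih h
      exact ⟨s, by omega, h1⟩
    · rcases mem_W.1 hc with h1 | ⟨h1, -⟩ | ⟨h1, -⟩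
      · exact absurd h1 h
      · exact ⟨t, by omega, hc, h, Or.inl h1⟩
      · exact ⟨t, by omega, hc, h, Or.inr h1⟩

theorem le_ver {j k : ℕ} (h : j < k) (σ : Str) : l j σ ≤ ver l k σ := by
  unfold ver
  exact List.single_le_sum (by simp) _ (List.mem_map.2 ⟨j, List.mem_range.2 h, rfl⟩)

section

variable (hl : ∀ (k : ℕ) (σ τ : Str), σ <+: τ → l k σ ≤ l k τ)
include hl

theorem expand {k : ℕ} (h : ¬ Bdd l X k) (n : ℕ) :
    ∃ t ≥ n, l k (seg X t) < l k (seg X (t + 1)) := by
  by_contra hcon
  push Not at hcon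
  apply h
  refine ⟨l k (seg X n), fun t => ?_⟩
  by_cases ht : n ≤ t
  · induction t, ht using Nat.le_induction with
    | base => exact le_rfl
    | succ t ht ih => exact (hcon t ht).trans ih
  · exact l_mono hl k (by omega)

theorem unbdd {k : ℕ} (h : ¬ Bdd l X k) (N : ℕ) : ∃ t, N < l k (seg X t) := by
  by_contra hcon
  push Not at hcon
  exact h ⟨N, hcon⟩

/-- the coded set is correct for large numbers -/
theorem code_iff (hBm : ∀ (k : ℕ) (σ τ : Str) (x : ℕ), σ <+: τ → B k σ x = true → B k τ x = true)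
    {k₀ : ℕ} (h1 : ∀ j < k₀, Bdd l X j) (h2 : ¬ Bdd l X k₀) :
    ∃ v₀ R, ∀ x ≥ R, BX B X k₀ x ↔ WX l B X (mk 0 k₀ v₀ x) := by
  obtain ⟨t₁, ht₁⟩ := ver_stable (X := X) (k := k₀) hl h1
  obtain ⟨R, hR⟩ := restraints (l := l) (B := B) (X := X) (k := k₀)
    fun e he => settle hl fun j hj => h1 j (by omega)
  refine ⟨ver l k₀ (seg X t₁), R, fun x hx => ⟨?_, ?_⟩⟩
  · rintro ⟨s, hs⟩
    set c := mk 0 k₀ (ver l k₀ (seg X t₁)) x with hc
    obtain ⟨t, ht, hex⟩ := expand hl h2 (max (max s t₁) c)
    have hts : s ≤ t := le_trans (le_trans (le_max_left _ _) (le_max_left _ _)) ht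
    have htt : t₁ ≤ t := le_trans (le_trans (le_max_right _ _) (le_max_left _ _)) ht
    have htc : c ≤ t := le_trans (le_max_right _ _) ht
    have hcR : R ≤ c := hx.trans (le_mk _ _ _ _)
    have key : ∀ u, c ∈ (st l B (seg X u)).2 → c ∈ (st l B (seg X u)).1 := by
      intro u
      induction u with
      | zero => intro h; rw [st_zero] at h; simp at h
      | succ u ih =>
        intro h
        rcases mem_T.1 h with h3 | h3
        · exact W_mono (Nat.le_succ u) (ih h3)
        · refine mem_W.2 (Or.inr (Or.inl ⟨h3, ?_⟩))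
          rw [show mi c = k₀ by simp [hc]]
          exact hR c hcR u
    refine ⟨t + 1, key _ ?_⟩
    by_cases hT : c ∈ (st l B (seg X t)).2
    · exact mem_T.2 (Or.inl hT)
    · refine mem_T.2 (Or.inr ⟨by omega, by simp [hc], ?_, ?_, ?_, hT⟩)
      · rw [show mi c = k₀ by simp [hc], ht₁ (t + 1) (by omega)]
        simp [hc]
      · rw [show mi c = k₀ by simp [hc]]
        exact hex
      · rw [show mi c = k₀ by simp [hc], show mx c = x by simp [hc]]
        exact hBm k₀ _ _ x (G2_seg_le X (by omega)) hs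
  · rintro ⟨t, ht⟩
    have := (W_code ht (by simp)).1
    simpa using this

/-- the complement of the enumerated set -/
theorem co_iff (hBm : ∀ (k : ℕ) (σ τ : Str) (x : ℕ), σ <+: τ → B k σ x = true → B k τ x = true)
    {k₀ : ℕ} (h1 : ∀ j < k₀, Bdd l X j) (h2 : ¬ Bdd l X k₀) :
    ∃ (v₀ : ℕ) (F : List ℕ), ∀ c, ¬ WX l B X c ↔
      ((mt c ≠ 0 ∧ mt c ≠ 1) ∨ (mi c < k₀ ∧ c ∉ F)) ∨
      ((mt c = 0 ∧ mi c = k₀ ∧ mv c ≠ v₀ ∧ c ∉ F) ∨ (mt c = 0 ∧ mi c = k₀ ∧ ¬ BX B X k₀ (mx c))) ∨
      ((∃ t, c ∈ (st l B (seg X t)).2 ∧ c ∉ (st l B (seg X t)).1) ∨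
      ((∃ t, c ∉ (st l B (seg X t)).1 ∧ mt c = 0 ∧ mv c < ver l (mi c) (seg X t)) ∨
      (∃ t, c ∉ (st l B (seg X t)).1 ∧ mt c = 1 ∧ mv c < ver l (mi c + 1) (seg X t)))) := by
  classical
  obtain ⟨t₁, ht₁⟩ := ver_stable (X := X) (k := k₀) hl h1
  have hfin : ∀ k, ∃ t₀, k < k₀ → ∀ t, ∀ c ∈ (st l B (seg X t)).1,
      mi c = k → c ∈ (st l B (seg X t₀)).1 := by
    intro k
    by_cases hk : k < k₀
    · obtain ⟨t₂, h3⟩ := fin_Q (B := B) hl (h1 k hk)
      obtain ⟨t₃, h4⟩ := fin_P (B := B) (k := k) hl fun j hj => h1 j (by omega)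
      refine ⟨max t₂ t₃, fun _ t c hc hk' => ?_⟩
      rcases W_type hc with h5 | h5
      · exact W_mono (le_max_left _ _) (h3 t c hc h5 hk')
      · exact W_mono (le_max_right _ _) (h4 t c hc h5 hk')
    · exact ⟨0, fun h => absurd h hk⟩
  choose f hf using hfin
  set t₂ := max t₁ ((Finset.range k₀).sup f) with ht₂
  refine ⟨ver l k₀ (seg X t₁), (st l B (seg X t₂)).1, fun c => ⟨?_, ?_⟩⟩
  · intro hW
    have hA : ∀ t, c ∉ (st l B (seg X t)).1 := fun t h => hW ⟨t, h⟩
    by_cases hty : mt c = 0 ∨ mt c = 1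
    · by_cases hk : mi c < k₀
      · exact Or.inl (Or.inr ⟨hk, hA _⟩)
      · right
        rcases hty with h0 | h0
        · by_cases hk' : mi c = k₀
          · by_cases hv : mv c = ver l k₀ (seg X t₁)
            · by_cases hB : BX B X k₀ (mx c)
              · right
                left
                obtain ⟨s, hs⟩ := hB
                obtain ⟨t, ht, hex⟩ := expand hl h2 (max (max s t₁) c)
                have hts : s ≤ t := le_trans (le_trans (le_max_left _ _) (le_max_left _ _)) ht
                have htt : t₁ ≤ t := le_trans (le_trans (le_max_right _ _) (le_max_left _ _)) ht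
                have htc : c ≤ t := le_trans (le_max_right _ _) ht
                refine ⟨t + 1, ?_, hA _⟩
                by_cases hT : c ∈ (st l B (seg X t)).2
                · exact mem_T.2 (Or.inl hT)
                · refine mem_T.2 (Or.inr ⟨by omega, h0, ?_, ?_, ?_, hT⟩)
                  · rw [hk', ht₁ (t + 1) (by omega)]
                    exact hv
                  · rw [hk']
                    exact hex
                  · rw [hk']
                    exact hBm k₀ _ _ _ (G2_seg_le X (by omega)) hs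
              · exact Or.inl (Or.inr ⟨h0, hk', hB⟩)
            · exact Or.inl (Or.inl ⟨h0, hk', hv, hA _⟩)
          · right
            right
            left
            obtain ⟨t, ht⟩ := unbdd hl h2 (mv c)
            exact ⟨t, hA _, h0, lt_of_lt_of_le ht (le_ver (by omega) _)⟩
        · right
          right
          right
          obtain ⟨t, ht⟩ := unbdd hl h2 (mv c)
          exact ⟨t, hA _, h0, lt_of_lt_of_le ht (le_ver (by omega) _)⟩
    · push Not at hty
      exact Or.inl (Or.inl hty)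
  · rintro ((h | h) | (h | h) | h | h | h) ⟨t, ht⟩
    · rcases W_type ht with h3 | h3
      · exact h.1 h3
      · exact h.2 h3
    · refine h.2 (W_mono ?_ (hf (mi c) h.1 t c ht rfl))
      exact (Finset.le_sup (f := f) (Finset.mem_range.2 h.1)).trans (le_max_right _ _)
    · obtain ⟨h3, h4, h5, h6⟩ := h
      obtain ⟨s, hs, h7, h8, h9⟩ := enter ht
      rcases h9 with h9 | h9
      · have e1 := h9.2.2.1
        rw [h4] at e1
        by_cases hst : t₁ ≤ s + 1
        · rw [ht₁ _ hst] at e1
          exact h5 e1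
        · exact h6 (W_mono (le_trans (by omega : s + 1 ≤ t₁) (le_max_left _ _)) h7)
      · have := h9.2.1
        omega
    · have := (W_code ht h.1).1
      rw [h.2.1] at this
      exact h.2.2 this
    · obtain ⟨s, h3, h4⟩ := h
      rcases T_dec h3 with h5 | h5
      · exact h4 h5
      · exact h5 ⟨t, ht⟩
    · obtain ⟨u, h3, h4, h5⟩ := h
      obtain ⟨s, hs, h7, h8, h9⟩ := enter ht
      have hus : u ≤ s := by
        by_contra hcon
        exact h3 (W_mono (by omega) h7)
      rcases h9 with h9 | h9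
      · have e1 := h9.2.2.1
        have e2 := ver_mono (X := X) hl (mi c) (by omega : u ≤ s + 1)
        omega
      · have := h9.2.1
        omega
    · obtain ⟨u, h3, h4, h5⟩ := h
      obtain ⟨s, hs, h7, h8, h9⟩ := enter ht
      have hus : u ≤ s := by
        by_contra hcon
        exact h3 (W_mono (by omega) h7)
      rcases h9 with h9 | h9
      · have := h9.2.1
        omega
      · have e1 := h9.2.2.1
        have e2 := ver_mono (X := X) hl (mi c + 1) (by omega : u ≤ s + 1)
        omega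

/-- the least true guess is coded -/
theorem code_case (hc : Computable (st l B)) (hlc : Computable fun p : ℕ × Str => l p.1 p.2)
    (hBm : ∀ (k : ℕ) (σ τ : Str) (x : ℕ), σ <+: τ → B k σ x = true → B k τ x = true)
    {k₀ : ℕ} (h1 : ∀ j < k₀, Bdd l X j) (h2 : ¬ Bdd l X k₀) :
    le (ch (WX l B X)) (jn 0 X (ch (BX B X k₀))) ∧
      le (ch (BX B X k₀)) (jn 0 X (ch (WX l B X))) := by
  constructor
  · set Z := jn 0 X (ch (BX B X k₀)) with hZ
    have hX : le X Z := le_jn_left _ _
    have hst : Computable (fun p : ℕ × Str => st l B p.2) := hc.comp Computable.snd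
    have hin : Computable (fun p : ℕ × Str => decide (p.1 ∈ (st l B p.2).1)) :=
      c_mem (by fun_prop) (RE.cfst hst)
    have hT : Computable (fun p : ℕ × Str => decide (p.1 ∈ (st l B p.2).2)) :=
      c_mem (by fun_prop) (RE.csnd hst)
    obtain ⟨v₀, F, hF⟩ := co_iff hl hBm h1 h2
    have hver1 : Computable (fun p : ℕ × Str => ver l (mi p.1) p.2) := by
      have := c_ver (π := Unit) (l := fun _ => l) (α := ℕ × Str)
        (by
          refine hlc.comp (g := fun p : Unit × ℕ × Str => p.2) (by fun_prop)) (q := fun _ => ())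
        (k := fun p => mi p.1) (σ := fun p => p.2) (by fun_prop) (by fun_prop) (by fun_prop)
      exact this
    have hver2 : Computable (fun p : ℕ × Str => ver l (mi p.1 + 1) p.2) := by
      have := c_ver (π := Unit) (l := fun _ => l) (α := ℕ × Str)
        (by
          refine hlc.comp (g := fun p : Unit × ℕ × Str => p.2) (by fun_prop)) (q := fun _ => ())
        (k := fun p => mi p.1 + 1) (σ := fun p => p.2) (by fun_prop) (by fun_prop) (by fun_prop)
      exact this
    refine (K5 K2).2.2.1 _ _ ?_ ?_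
    · refine K4.1 X Z hX _ ?_
      refine (re_seg X hin).of_eq fun c => ?_
      simp only [decide_eq_true_eq, WX]
    · refine REIn.of_eq ?_ fun c => (hF c).symm
      refine REIn.or (REIn.or ?_ ?_) (REIn.or (REIn.or ?_ ?_) (REIn.or ?_ (REIn.or ?_ ?_)))
      · exact REIn.and (REIn.of_re (RE.ne (by fun_prop) (by fun_prop)))
          (REIn.of_re (RE.ne (by fun_prop) (by fun_prop)))
      · exact REIn.and (REIn.of_re (RE.lt (by fun_prop) (by fun_prop)))
          (REIn.of_re (RE.not_mem_list (by fun_prop) (by fun_prop)))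
      · exact REIn.and (REIn.of_re (RE.eq (by fun_prop) (by fun_prop)))
          (REIn.and (REIn.of_re (RE.eq (by fun_prop) (by fun_prop)))
          (REIn.and (REIn.of_re (RE.ne (by fun_prop) (by fun_prop)))
          (REIn.of_re (RE.not_mem_list (by fun_prop) (by fun_prop)))))
      · refine REIn.and (REIn.of_re (RE.eq (by fun_prop) (by fun_prop)))
          (REIn.and (REIn.of_re (RE.eq (by fun_prop) (by fun_prop))) ?_)
        refine (REIn.not_mem (A := St Z) (f := fun c => 2 * mx c + 1) (by fun_prop)).of_eq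
          fun c => ?_
        show ¬ (Z (2 * mx c + 1) = true) ↔ _
        rw [hZ, jn_odd, ch_true]
      · refine K4.1 X Z hX _ ((re_seg X (RE.cand hT (RE.cnot hin))).of_eq fun c => ?_)
        simp
      · refine K4.1 X Z hX _ ((re_seg X (RE.cand (RE.cnot hin) (RE.cand
          (c_deq (f := fun p : ℕ × Str => mt p.1) (g := fun _ => 0) (by fun_prop) (by fun_prop))
          (c_dlt (f := fun p : ℕ × Str => mv p.1) (by fun_prop) hver1)))).of_eq fun c => ?_)
        simp
      · refine K4.1 X Z hX _ ((re_seg X (RE.cand (RE.cnot hin) (RE.cand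
          (c_deq (f := fun p : ℕ × Str => mt p.1) (g := fun _ => 1) (by fun_prop) (by fun_prop))
          (c_dlt (f := fun p : ℕ × Str => mv p.1) (by fun_prop) hver2)))).of_eq fun c => ?_)
        simp
  · obtain ⟨v₀, R, hR⟩ := code_iff hl hBm h1 h2
    refine le_fin (Q := fun x => WX l B X (mk 0 k₀ v₀ x)) (R := R) hR ?_
    refine le_trans' ?_ (le_jn_right X (ch (WX l B X)))
    refine K4.2.2.2 _ _ (fun x => mk 0 k₀ v₀ x) (by unfold mk; fun_prop) fun n => ?_
    rw [Bool.eq_iff_iff, ch_true, ch_true]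

end

end Pool.Agent.K9h58.PT
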