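import Pool.Agent.K9h58.PT.Core

/-!
Computability of the patching construction, uniformly in a parameter.
-/

set_option autoImplicit false

namespace Pool.Agent.K9h58.PT

open Nat.Partrec (Code)
open Encodable
open Pool.Agent.H639.LU Pool.Agent.H869R3.FN Pool.Agent.R616.DI Pool.Agent.Y579.PP
open Pool.Agent.Helper446.Defs Pool.Agent.Helper446.Oracle Pool.Agent.Helper446

section lists

variable {α β γ : Type*} [Primcodable α] [Primcodable β] [Primcodable γ]

theorem map_foldl {β γ : Type*} (f : β → γ) (L : List β) (acc : List γ) :
    L.foldl (fun s b => s ++ [f b]) acc = acc ++ L.map f := by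
  induction L generalizing acc with
  | nil => simp
  | cons b L ih => simp [ih]

theorem filter_foldl {β : Type*} (f : β → Bool) (L : List β) (acc : List β) :
    L.foldl (fun s b => bif f b then s ++ [b] else s) acc = acc ++ L.filter f := by
  induction L generalizing acc with
  | nil => simp
  | cons b L ih =>
    rw [List.foldl_cons, ih]
    cases h : f b <;> simp [h]

theorem all_foldl {β : Type*} (f : β → Bool) (L : List β) (acc : Bool) :
    L.foldl (fun s b => s && f b) acc = (acc && L.all f) := by
  induction L generalizing acc with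
  | nil => simp
  | cons b L ih => simp [ih, Bool.and_assoc]

theorem sum_foldl (L : List ℕ) (acc : ℕ) : L.foldl (fun s b => s + b) acc = acc + L.sum := by
  induction L generalizing acc with
  | nil => simp
  | cons b L ih => simp [ih, Nat.add_assoc]

theorem c_map {f : α → β → γ} {L : α → List β} (hf : Computable fun p : α × β => f p.1 p.2)
    (hL : Computable L) : Computable fun a => (L a).map (f a) := by
  have h := RE.list_foldl (f := L) (g := fun _ => ([] : List γ))
    (h := fun a p => p.1 ++ [f a p.2]) hL (Computable.const _) (by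
      have h1 : Computable fun q : α × (List γ × β) => f q.1 q.2.2 :=
        hf.comp (f := fun p : α × β => f p.1 p.2) (g := fun q : α × (List γ × β) => (q.1, q.2.2))
          (by fun_prop)
      unfold Computable₂
      fun_prop)
  refine h.of_eq fun a => ?_
  dsimp only
  rw [map_foldl]
  simp

theorem c_filter {f : α → β → Bool} {L : α → List β} (hf : Computable fun p : α × β => f p.1 p.2)
    (hL : Computable L) : Computable fun a => (L a).filter (f a) := by
  have h := RE.list_foldl (f := L) (g := fun _ => ([] : List β))
    (h := fun a p => bif f a p.2 then p.1 ++ [p.2] else p.1) hL (Computable.const _) (by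
      have h1 : Computable fun q : α × (List β × β) => f q.1 q.2.2 :=
        hf.comp (f := fun p : α × β => f p.1 p.2) (g := fun q : α × (List β × β) => (q.1, q.2.2))
          (by fun_prop)
      unfold Computable₂
      fun_prop)
  refine h.of_eq fun a => ?_
  dsimp only
  rw [filter_foldl]
  simp

theorem c_all {f : α → β → Bool} {L : α → List β} (hf : Computable fun p : α × β => f p.1 p.2)
    (hL : Computable L) : Computable fun a => (L a).all (f a) := by
  have h := RE.list_foldl (f := L) (g := fun _ => true)
    (h := fun a p => p.1 && f a p.2) hL (Computable.const _) (by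
      have h1 : Computable fun q : α × (Bool × β) => f q.1 q.2.2 :=
        hf.comp (f := fun p : α × β => f p.1 p.2) (g := fun q : α × (Bool × β) => (q.1, q.2.2))
          (by fun_prop)
      unfold Computable₂
      fun_prop)
  refine h.of_eq fun a => ?_
  dsimp only
  rw [all_foldl]
  simp

theorem c_sum {L : α → List ℕ} (hL : Computable L) : Computable fun a => (L a).sum := by
  have h := RE.list_foldl (f := L) (g := fun _ => 0)
    (h := fun _ p => p.1 + p.2) hL (Computable.const _) (by
      unfold Computable₂
      fun_prop)
  refine h.of_eq fun a => ?_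
  dsimp only
  rw [sum_foldl]
  simp

@[fun_prop] theorem c_take {L : α → List β} {n : α → ℕ} (hL : Computable L) (hn : Computable n) :
    Computable fun a => (L a).take (n a) := by
  have h := RE.list_foldl (f := L) (g := fun _ => ([] : List β))
    (h := fun a p => bif decide (p.1.length < n a) then p.1 ++ [p.2] else p.1) hL
    (Computable.const _) (by
      have h1 : Computable fun q : α × (List β × β) => decide (q.2.1.length < n q.1) :=
        RE.cdecide (RE.cp_lt (by fun_prop) (by fun_prop))
      unfold Computable₂
      fun_prop)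
  refine h.of_eq fun a => ?_
  dsimp only
  have key : ∀ (L acc : List β) (m : ℕ), acc.length ≤ m →
      L.foldl (fun s b => bif decide (s.length < m) then s ++ [b] else s) acc =
        acc ++ L.take (m - acc.length) := by
    intro L
    induction L with
    | nil => intro acc m _; simp
    | cons b L ih =>
      intro acc m hm
      rw [List.foldl_cons]
      by_cases h : acc.length < m
      · rw [decide_eq_true h, cond_true, ih _ _ (by simp; omega)]
        obtain ⟨k, hk⟩ : ∃ k, m - acc.length = k + 1 := ⟨m - acc.length - 1, by omega⟩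
        rw [hk, List.take_succ_cons]
        simp only [List.length_append, List.length_cons, List.length_nil, List.append_assoc,
          List.cons_append, List.nil_append]
        congr 3
        omega
      · rw [decide_eq_false h, cond_false, ih _ _ hm]
        have : m - acc.length = 0 := by omega
        rw [this]
        simp
  rw [key _ _ _ (by simp)]
  simp

@[fun_prop] theorem c_range {n : α → ℕ} (hn : Computable n) :
    Computable fun a => List.range (n a) := Primrec.list_range.to_comp.comp hn

theorem c_getD {L : α → List Bool} {n : α → ℕ} (hL : Computable L) (hn : Computable n) :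
    Computable fun a => (L a).getD (n a) false :=
  ((Primrec.list_getD false).to_comp).comp hL hn

theorem c_mem {f : α → ℕ} {L : α → List ℕ} (hf : Computable f) (hL : Computable L) :
    Computable fun a => decide (f a ∈ L a) := RE.cdecide (RE.cp_mem hf hL)

theorem c_deq {f g : α → ℕ} (hf : Computable f) (hg : Computable g) :
    Computable fun a => decide (f a = g a) := RE.cdecide (RE.cp_eq hf hg)

theorem c_dlt {f g : α → ℕ} (hf : Computable f) (hg : Computable g) :
    Computable fun a => decide (f a < g a) := RE.cdecide (RE.cp_lt hf hg)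

theorem c_ofCode {f : α → ℕ} (hf : Computable f) :
    Computable fun a => Denumerable.ofNat Code (f a) := (Computable.ofNat Code).comp hf

end lists

section constr

variable {α : Type*} [Primcodable α]

theorem c_js {L : α → List ℕ} {σ : α → Str} (hL : Computable L) (hσ : Computable σ) :
    Computable fun a => js (L a) (σ a) := by
  unfold js
  refine c_map (f := fun a i => if i % 2 = 0 then (σ a).getD (i / 2) false
    else decide (i / 2 ∈ L a)) ?_ (by fun_prop)
  have m2 : Computable (fun n : ℕ => n % 2) :=
    (Primrec.nat_mod.comp Primrec.id (Primrec.const 2)).to_comp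
  have d2 : Computable (fun n : ℕ => n / 2) :=
    (Primrec.nat_div.comp Primrec.id (Primrec.const 2)).to_comp
  have h1 : Computable fun p : α × ℕ => p.2 % 2 := m2.comp Computable.snd
  have h2 : Computable fun p : α × ℕ => p.2 / 2 := d2.comp Computable.snd
  refine RE.cite (RE.cp_eq h1 (Computable.const 0)) (c_getD (by fun_prop) h2)
    (c_mem h2 (by fun_prop))

theorem c_kst {σ : α → Str} {e : α → ℕ} (hσ : Computable σ) (he : Computable e) :
    Computable fun a => kst (σ a) (e a) :=
  c1.2.2.2.comp (f := fun p : Str × ℕ => kst p.1 p.2) (g := fun a => (σ a, e a)) (hσ.pair he)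

theorem c_hst {r : α → Code} {σ : α → Str} {e : α → ℕ} (hr : Computable r) (hσ : Computable σ)
    (he : Computable e) : Computable fun a => hst (r a) (σ a) (e a) :=
  c1.2.2.1.comp (f := fun p : Code × Str × ℕ => hst p.1 p.2.1 p.2.2)
    (g := fun a => (r a, σ a, e a)) (hr.pair (hσ.pair he))

theorem c_nxtv {r : α → Code} {σ : α → Str} {e : α → ℕ} (hr : Computable r) (hσ : Computable σ)
    (he : Computable e) : Computable fun a => nxtv (r a) (σ a) (e a) :=
  c1.1.comp (f := fun p : Code × Str × ℕ => nxtv p.1 p.2.1 p.2.2)
    (g := fun a => (r a, σ a, e a)) (hr.pair (hσ.pair he))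

theorem c_dec {r : α → Code} {σ : α → Str} (hr : Computable r) (hσ : Computable σ) :
    Computable fun a => dec (r a) (σ a) :=
  c2.comp (f := fun p : Code × Str => dec p.1 p.2) (g := fun a => (r a, σ a)) (hr.pair hσ)

theorem c_okk {j : α → Str} {e c : α → ℕ} (hj : Computable j) (he : Computable e)
    (hc : Computable c) : Computable fun a => okk (j a) (e a) (c a) := by
  unfold okk
  have h1 := c_kst hj he
  have h2 : Computable fun a => kst ((j a).take (2 * c a + 1)) (e a) :=
    c_kst (by fun_prop) he
  exact RE.cor (RE.cnot h1) h2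

theorem c_okl {j : α → Str} {m c : α → ℕ} (hj : Computable j) (hm : Computable m)
    (hc : Computable c) : Computable fun a => okl (j a) (m a) (c a) := by
  unfold okl
  refine c_all (f := fun a e => okk (j a) e (c a)) ?_ (by fun_prop)
  exact c_okk (hj.comp Computable.fst) Computable.snd (hc.comp Computable.fst)

@[fun_prop] theorem c_mt {c : α → ℕ} (hc : Computable c) : Computable fun a => mt (c a) := by
  unfold mt
  fun_prop

@[fun_prop] theorem c_mi {c : α → ℕ} (hc : Computable c) : Computable fun a => mi (c a) := by
  unfold mi
  fun_prop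

@[fun_prop] theorem c_mv {c : α → ℕ} (hc : Computable c) : Computable fun a => mv (c a) := by
  unfold mv
  fun_prop

@[fun_prop] theorem c_mx {c : α → ℕ} (hc : Computable c) : Computable fun a => mx (c a) := by
  unfold mx
  fun_prop

variable {π : Type*} [Primcodable π] {l : π → ℕ → Str → ℕ} {B : π → ℕ → Str → ℕ → Bool}

theorem c_l (hl : Computable fun p : π × ℕ × Str => l p.1 p.2.1 p.2.2) {q : α → π} {k : α → ℕ}
    {σ : α → Str} (hq : Computable q) (hk : Computable k) (hσ : Computable σ) :
    Computable fun a => l (q a) (k a) (σ a) :=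
  hl.comp (f := fun p : π × ℕ × Str => l p.1 p.2.1 p.2.2) (hq.pair (hk.pair hσ))

theorem c_B (hB : Computable fun p : π × ℕ × Str × ℕ => B p.1 p.2.1 p.2.2.1 p.2.2.2)
    {q : α → π} {k x : α → ℕ} {σ : α → Str} (hq : Computable q) (hk : Computable k)
    (hσ : Computable σ) (hx : Computable x) :
    Computable fun a => B (q a) (k a) (σ a) (x a) :=
  hB.comp (f := fun p : π × ℕ × Str × ℕ => B p.1 p.2.1 p.2.2.1 p.2.2.2)
    (hq.pair (hk.pair (hσ.pair hx)))

theorem c_ver (hl : Computable fun p : π × ℕ × Str => l p.1 p.2.1 p.2.2) {q : α → π} {k : α → ℕ}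
    {σ : α → Str} (hq : Computable q) (hk : Computable k) (hσ : Computable σ) :
    Computable fun a => ver (l (q a)) (k a) (σ a) := by
  unfold ver
  refine c_sum (c_map (f := fun a j => l (q a) j (σ a)) ?_ (by fun_prop))
  exact c_l hl (hq.comp Computable.fst) Computable.snd (hσ.comp Computable.fst)

theorem c_isQ (hl : Computable fun p : π × ℕ × Str => l p.1 p.2.1 p.2.2)
    (hB : Computable fun p : π × ℕ × Str × ℕ => B p.1 p.2.1 p.2.2.1 p.2.2.2)
    {q : α → π} {T : α → List ℕ} {ρ σ : α → Str} {c : α → ℕ} (hq : Computable q)
    (hT : Computable T) (hρ : Computable ρ) (hσ : Computable σ) (hc : Computable c) :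
    Computable fun a => isQ (l (q a)) (B (q a)) (T a) (ρ a) (σ a) (c a) := by
  unfold isQ
  have h1 : Computable fun a => decide (mt (c a) = 0) := c_deq (by fun_prop) (by fun_prop)
  have h2 : Computable fun a => decide (mv (c a) = ver (l (q a)) (mi (c a)) (σ a)) :=
    c_deq (by fun_prop) (c_ver hl hq (by fun_prop) hσ)
  have h3 : Computable fun a => decide (l (q a) (mi (c a)) (ρ a) < l (q a) (mi (c a)) (σ a)) :=
    c_dlt (c_l hl hq (by fun_prop) hρ) (c_l hl hq (by fun_prop) hσ)
  have h4 : Computable fun a => B (q a) (mi (c a)) (σ a) (mx (c a)) :=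
    c_B hB hq (by fun_prop) hσ (by fun_prop)
  have h5 : Computable fun a => decide (c a ∈ T a) := c_mem hc hT
  exact RE.cand h1 (RE.cand h2 (RE.cand h3 (RE.cand h4 (RE.cnot h5))))

theorem c_isP (hl : Computable fun p : π × ℕ × Str => l p.1 p.2.1 p.2.2)
    {q : α → π} {L : α → List ℕ} {σ : α → Str} {c : α → ℕ} (hq : Computable q)
    (hL : Computable L) (hσ : Computable σ) (hc : Computable c) :
    Computable fun a => isP (l (q a)) (L a) (σ a) (c a) := by
  unfold isP
  have h1 : Computable fun a => decide (mt (c a) = 1) := c_deq (by fun_prop) (by fun_prop)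
  have h2 : Computable fun a => decide (mv (c a) = ver (l (q a)) (mi (c a) + 1) (σ a)) :=
    c_deq (by fun_prop) (c_ver hl hq (by fun_prop) hσ)
  have h3 : Computable fun a =>
      decide (nxtv (Denumerable.ofNat Code (mi (c a))) (σ a) (c a) = some 0) :=
    RE.cdecide (RE.cp_eq (c_nxtv (c_ofCode (by fun_prop)) hσ hc) (Computable.const _))
  have h4 : Computable fun a => (L a).all fun d =>
      !(decide (mt d = 1) && (decide (mi d = mi (c a)) && decide (mv d = mv (c a)))) := by
    refine c_all (f := fun a d =>
      !(decide (mt d = 1) && (decide (mi d = mi (c a)) && decide (mv d = mv (c a))))) ?_ hL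
    have g1 : Computable fun p : α × ℕ => decide (mt p.2 = 1) :=
      c_deq (by fun_prop) (by fun_prop)
    have g2 : Computable fun p : α × ℕ => decide (mi p.2 = mi (c p.1)) :=
      c_deq (by fun_prop) (by fun_prop)
    have g3 : Computable fun p : α × ℕ => decide (mv p.2 = mv (c p.1)) :=
      c_deq (by fun_prop) (by fun_prop)
    exact RE.cnot (RE.cand g1 (RE.cand g2 g3))
  exact RE.cand h1 (RE.cand h2 (RE.cand h3 h4))

theorem c_step (hl : Computable fun p : π × ℕ × Str => l p.1 p.2.1 p.2.2)
    (hB : Computable fun p : π × ℕ × Str × ℕ => B p.1 p.2.1 p.2.2.1 p.2.2.2)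
    {q : α → π} {S : α → List ℕ × List ℕ} {ρ σ : α → Str} (hq : Computable q)
    (hS : Computable S) (hρ : Computable ρ) (hσ : Computable σ) :
    Computable fun a => step (l (q a)) (B (q a)) (S a) (ρ a) (σ a) := by
  unfold step
  have q1 : Computable fun p : α × ℕ => q p.1 := hq.comp Computable.fst
  have s1 : Computable fun p : α × ℕ => (S p.1).1 := by fun_prop
  have s2 : Computable fun p : α × ℕ => (S p.1).2 := by fun_prop
  have r1 : Computable fun p : α × ℕ => ρ p.1 := by fun_prop
  have r2 : Computable fun p : α × ℕ => σ p.1 := by fun_prop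
  have k1 := c_isQ hl hB q1 s2 r1 r2 Computable.snd
  have k2 := c_okl (c_js s1 r1) (c_mi (Computable.snd (α := α) (β := ℕ))) Computable.snd
  have k3 := c_isP hl q1 s1 r2 Computable.snd
  have k4 := c_okl (m := fun p : α × ℕ => mi p.2 + 1) (c_js s1 r1) (by fun_prop)
    Computable.snd
  have g1 := c_filter (L := fun a => List.range (σ a).length)
    (f := fun a c => (isQ (l (q a)) (B (q a)) (S a).2 (ρ a) (σ a) c && okl (js (S a).1 (ρ a))
      (mi c) c) || (isP (l (q a)) (S a).1 (σ a) c && okl (js (S a).1 (ρ a)) (mi c + 1) c))
    (RE.cor (RE.cand k1 k2) (RE.cand k3 k4)) (by fun_prop)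
  have g2 := c_filter (L := fun a => List.range (σ a).length)
    (f := fun a c => isQ (l (q a)) (B (q a)) (S a).2 (ρ a) (σ a) c) k1 (by fun_prop)
  exact RE.cpair (RE.cappend (RE.cfst hS) g1) (RE.cappend (RE.csnd hS) g2)

/-- the construction is computable -/
theorem c_st (hl : Computable fun p : π × ℕ × Str => l p.1 p.2.1 p.2.2)
    (hB : Computable fun p : π × ℕ × Str × ℕ => B p.1 p.2.1 p.2.2.1 p.2.2.2)
    {q : α → π} {σ : α → Str} (hq : Computable q) (hσ : Computable σ) :
    Computable fun a => st (l (q a)) (B (q a)) (σ a) := by
  unfold st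
  refine Computable.nat_rec (f := fun a => (σ a).length)
    (g := fun _ => (([], []) : List ℕ × List ℕ))
    (h := fun a p => step (l (q a)) (B (q a)) p.2 ((σ a).take p.1) ((σ a).take (p.1 + 1)))
    (by fun_prop) (Computable.const _) ?_
  unfold Computable₂
  exact c_step hl hB (q := fun x : α × ℕ × (List ℕ × List ℕ) => q x.1)
    (S := fun x => x.2.2) (ρ := fun x => (σ x.1).take x.2.1) (σ := fun x => (σ x.1).take (x.2.1 + 1))
    (by fun_prop) (by fun_prop) (by fun_prop) (by fun_prop)

end constr

end Pool.Agent.K9h58.PT
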