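import Pool.Agent.R616.DI.Rea
import Pool.Agent.R616.DI.Cone

/-!
# The patching construction

From expansion functions `l k` (guesses: the guess `k` is true for the oracle `X` if `l k` is
unbounded along `X`) and enumerations `B k` a c.e. operator is built. If `k` is the least true
guess for `X` the operator gives the degree of `X ⊕ B k`; if no guess is true it gives a
set which is low over `X` and not computable in `X`.
-/

set_option autoImplicit false

namespace Pool.Agent.K9h58.PT

open Nat.Partrec (Code)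
open Encodable
open Pool.Agent.H639.LU Pool.Agent.H869R3.FN Pool.Agent.R616.DI Pool.Agent.Y579.PP
open Pool.Agent.Helper446.Defs Pool.Agent.Helper446.Oracle

/-- the type of a number: `0` for coding, `1` for diagonalization -/
def mt (c : ℕ) : ℕ := c.unpair.1.unpair.1
/-- the index of the strategy -/
def mi (c : ℕ) : ℕ := c.unpair.1.unpair.2
/-- the version of the strategy -/
def mv (c : ℕ) : ℕ := c.unpair.2.unpair.1
/-- the argument -/
def mx (c : ℕ) : ℕ := c.unpair.2.unpair.2
/-- the number with the given data -/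
def mk (t k v x : ℕ) : ℕ := Nat.pair (Nat.pair t k) (Nat.pair v x)

@[simp] theorem mt_mk (t k v x : ℕ) : mt (mk t k v x) = t := by simp [mt, mk]
@[simp] theorem mi_mk (t k v x : ℕ) : mi (mk t k v x) = k := by simp [mi, mk]
@[simp] theorem mv_mk (t k v x : ℕ) : mv (mk t k v x) = v := by simp [mv, mk]
@[simp] theorem mx_mk (t k v x : ℕ) : mx (mk t k v x) = x := by simp [mx, mk]

theorem mk_eta (c : ℕ) : mk (mt c) (mi c) (mv c) (mx c) = c := by simp [mt, mi, mv, mx, mk]

theorem mx_le (c : ℕ) : mx c ≤ c :=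
  (Nat.unpair_right_le _).trans (Nat.unpair_right_le _)

theorem le_mk (t k v x : ℕ) : x ≤ mk t k v x := by
  have := mx_le (mk t k v x)
  simpa using this

/-- the join of an initial segment with a finite set -/
def js (L : List ℕ) (σ : Str) : Str :=
  (List.range σ.length).map fun i =>
    if i % 2 = 0 then σ.getD (i / 2) false else decide (i / 2 ∈ L)

theorem js_length (L : List ℕ) (σ : Str) : (js L σ).length = σ.length := by simp [js]

/-- the number `c` may be enumerated with respect to the requirement `e` -/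
def okk (j : Str) (e c : ℕ) : Bool := !(kst j e) || kst (j.take (2 * c + 1)) e

/-- the number `c` may be enumerated with respect to the requirements below `m` -/
def okl (j : Str) (m c : ℕ) : Bool := (List.range m).all fun e => okk j e c

theorem okl_iff {j : Str} {m c : ℕ} : okl j m c = true ↔ ∀ e < m, okk j e c = true := by
  simp [okl]

section defs

variable (l : ℕ → Str → ℕ) (B : ℕ → Str → ℕ → Bool)

/-- the version -/
def ver (k : ℕ) (σ : Str) : ℕ := ((List.range k).map fun j => l j σ).sum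

/-- coding: the number `c` is treated -/
def isQ (T : List ℕ) (ρ σ : Str) (c : ℕ) : Bool :=
  decide (mt c = 0) && (decide (mv c = ver l (mi c) σ) && (decide (l (mi c) ρ < l (mi c) σ) &&
    (B (mi c) σ (mx c) && !(decide (c ∈ T)))))

/-- diagonalization -/
def isP (L : List ℕ) (σ : Str) (c : ℕ) : Bool :=
  decide (mt c = 1) && (decide (mv c = ver l (mi c + 1) σ) &&
    (decide (nxtv (Denumerable.ofNat Code (mi c)) σ c = some 0) &&
    L.all fun d => !(decide (mt d = 1) && (decide (mi d = mi c) && decide (mv d = mv c)))))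

/-- one stage -/
def step (S : List ℕ × List ℕ) (ρ σ : Str) : List ℕ × List ℕ :=
  (S.1 ++ (List.range σ.length).filter (fun c =>
      (isQ l B S.2 ρ σ c && okl (js S.1 ρ) (mi c) c) ||
      (isP l S.1 σ c && okl (js S.1 ρ) (mi c + 1) c)),
   S.2 ++ (List.range σ.length).filter (fun c => isQ l B S.2 ρ σ c))

/-- the state: the set enumerated so far, and the numbers treated so far -/
def st (σ : Str) : List ℕ × List ℕ :=
  Nat.rec ([], []) (fun t S => step l B S (σ.take t) (σ.take (t + 1))) σ.length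

/-- the set enumerated along `X` -/
def WX (X : ℕ → Bool) (c : ℕ) : Prop := ∃ t, c ∈ (st l B (seg X t)).1

/-- the enumeration `k` along `X` -/
def BX (X : ℕ → Bool) (k x : ℕ) : Prop := ∃ t, B k (seg X t) x = true

/-- the guess `k` is false -/
def Bdd (X : ℕ → Bool) (k : ℕ) : Prop := ∃ N, ∀ t, l k (seg X t) ≤ N

end defs

theorem rec_congr {α : Type*} {a : α} {f g : ℕ → α → α} {n : ℕ} (h : ∀ t < n, ∀ s, f t s = g t s) :
    (Nat.rec a f n : α) = Nat.rec a g n := by
  induction n with
  | zero => rfl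
  | succ n ih =>
    show f n _ = g n _
    rw [ih fun t ht s => h t (by omega) s, h n (by omega)]

section real

variable {l : ℕ → Str → ℕ} {B : ℕ → Str → ℕ → Bool} {X : ℕ → Bool}

theorem st_zero : st l B (seg X 0) = ([], []) := by simp [st, seg]

theorem st_succ (t : ℕ) : st l B (seg X (t + 1)) =
    step l B (st l B (seg X t)) (seg X t) (seg X (t + 1)) := by
  unfold st
  rw [seg_len, seg_len]
  show step l B (Nat.rec _ _ t) ((seg X (t + 1)).take t) ((seg X (t + 1)).take (t + 1)) = _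
  rw [take_seg' X (Nat.le_succ t), take_seg' X le_rfl]
  congr 1
  refine rec_congr fun s hs S => ?_
  rw [take_seg' X (by omega : s ≤ t + 1), take_seg' X (by omega : s + 1 ≤ t + 1),
    take_seg' X (by omega : s ≤ t), take_seg' X (by omega : s + 1 ≤ t)]

/-- the join at stage `t` -/
def jt (l : ℕ → Str → ℕ) (B : ℕ → Str → ℕ → Bool) (X : ℕ → Bool) (t : ℕ) : Str :=
  js (st l B (seg X t)).1 (seg X t)

/-- `c` is enumerated by coding at stage `t + 1` -/
def Qa (l : ℕ → Str → ℕ) (B : ℕ → Str → ℕ → Bool) (X : ℕ → Bool) (t c : ℕ) : Prop :=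
  c < t + 1 ∧ mt c = 0 ∧ mv c = ver l (mi c) (seg X (t + 1)) ∧
    l (mi c) (seg X t) < l (mi c) (seg X (t + 1)) ∧
    B (mi c) (seg X (t + 1)) (mx c) = true ∧ c ∉ (st l B (seg X t)).2

/-- `c` is enumerated by diagonalization at stage `t + 1` -/
def Pa (l : ℕ → Str → ℕ) (B : ℕ → Str → ℕ → Bool) (X : ℕ → Bool) (t c : ℕ) : Prop :=
  c < t + 1 ∧ mt c = 1 ∧ mv c = ver l (mi c + 1) (seg X (t + 1)) ∧
    nxtv (Denumerable.ofNat Code (mi c)) (seg X (t + 1)) c = some 0 ∧
    ∀ d ∈ (st l B (seg X t)).1, ¬ (mt d = 1 ∧ mi d = mi c ∧ mv d = mv c)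

theorem mem_T {t c : ℕ} : c ∈ (st l B (seg X (t + 1))).2 ↔
    c ∈ (st l B (seg X t)).2 ∨ Qa l B X t c := by
  rw [st_succ]
  simp only [step, List.mem_append, List.mem_filter, List.mem_range, seg_len, isQ,
    Bool.and_eq_true, decide_eq_true_eq, Bool.not_eq_true', decide_eq_false_iff_not, Qa]

theorem mem_W {t c : ℕ} : c ∈ (st l B (seg X (t + 1))).1 ↔
    c ∈ (st l B (seg X t)).1 ∨ (Qa l B X t c ∧ okl (jt l B X t) (mi c) c = true) ∨
      (Pa l B X t c ∧ okl (jt l B X t) (mi c + 1) c = true) := by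
  rw [st_succ]
  simp only [step, List.mem_append, List.mem_filter, List.mem_range, seg_len, isQ, isP, jt,
    Bool.and_eq_true, decide_eq_true_eq, Bool.not_eq_true', decide_eq_false_iff_not, Qa, Pa,
    Bool.or_eq_true, List.all_eq_true, Bool.and_eq_false_iff]
  refine or_congr Iff.rfl ?_
  constructor
  · rintro ⟨h0, ⟨⟨h1, h2, h3, h4, h5⟩, h6⟩ | ⟨⟨h1, h2, h3, h4⟩, h5⟩⟩
    · exact Or.inl ⟨⟨h0, h1, h2, h3, h4, h5⟩, h6⟩
    · refine Or.inr ⟨⟨h0, h1, h2, h3, fun d hd => ?_⟩, h5⟩
      have := h4 d hd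
      tauto
  · rintro (⟨⟨h0, h1, h2, h3, h4, h5⟩, h6⟩ | ⟨⟨h0, h1, h2, h3, h4⟩, h5⟩)
    · exact ⟨h0, Or.inl ⟨⟨h1, h2, h3, h4, h5⟩, h6⟩⟩
    · refine ⟨h0, Or.inr ⟨⟨h1, h2, h3, fun d hd => ?_⟩, h5⟩⟩
      have := h4 d hd
      tauto

theorem W_mono {s t c : ℕ} (h : s ≤ t) (hc : c ∈ (st l B (seg X s)).1) :
    c ∈ (st l B (seg X t)).1 := by
  induction t, h using Nat.le_induction with
  | base => exact hc
  | succ t _ ih => exact mem_W.2 (Or.inl ih)

theorem T_mono {s t c : ℕ} (h : s ≤ t) (hc : c ∈ (st l B (seg X s)).2) :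
    c ∈ (st l B (seg X t)).2 := by
  induction t, h using Nat.le_induction with
  | base => exact hc
  | succ t _ ih => exact mem_T.2 (Or.inl ih)

theorem W_type {t c : ℕ} (hc : c ∈ (st l B (seg X t)).1) : mt c = 0 ∨ mt c = 1 := by
  induction t with
  | zero => rw [st_zero] at hc; simp at hc
  | succ t ih =>
    rcases mem_W.1 hc with h | ⟨h, -⟩ | ⟨h, -⟩
    · exact ih h
    · exact Or.inl h.2.1
    · exact Or.inr h.2.1

/-- coded numbers are correct, and treated -/
theorem W_code {t c : ℕ} (hc : c ∈ (st l B (seg X t)).1) (h0 : mt c = 0) :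
    BX B X (mi c) (mx c) ∧ c ∈ (st l B (seg X t)).2 := by
  induction t with
  | zero => rw [st_zero] at hc; simp at hc
  | succ t ih =>
    rcases mem_W.1 hc with h | ⟨h, -⟩ | ⟨h, -⟩
    · exact ⟨(ih h).1, mem_T.2 (Or.inl (ih h).2)⟩
    · exact ⟨⟨t + 1, h.2.2.2.2.1⟩, mem_T.2 (Or.inr h)⟩
    · have := h.2.1
      omega

theorem T_code {t c : ℕ} (hc : c ∈ (st l B (seg X t)).2) :
    mt c = 0 ∧ BX B X (mi c) (mx c) := by
  induction t with
  | zero => rw [st_zero] at hc; simp at hc
  | succ t ih =>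
    rcases mem_T.1 hc with h | h
    · exact ih h
    · exact ⟨h.2.1, ⟨t + 1, h.2.2.2.2.1⟩⟩

/-- a treated number is enumerated at once or never -/
theorem T_dec {t c : ℕ} (hc : c ∈ (st l B (seg X t)).2) :
    c ∈ (st l B (seg X t)).1 ∨ ¬ WX l B X c := by
  by_contra hcon
  push Not at hcon
  obtain ⟨h1, s, hs⟩ := hcon
  have hts : t ≤ s := by
    by_contra h
    exact h1 (W_mono (by omega) hs)
  have key : ∀ s, t ≤ s → c ∉ (st l B (seg X s)).1 := by
    intro s hs
    induction s, hs using Nat.le_induction with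
    | base => exact h1
    | succ s hs ih =>
      intro hc'
      rcases mem_W.1 hc' with h | ⟨h, -⟩ | ⟨h, -⟩
      · exact ih h
      · exact h.2.2.2.2.2 (T_mono hs hc)
      · have := h.2.1
        have := (T_code hc).1
        omega
  exact key s hts hs

section mono

variable (hl : ∀ (k : ℕ) (σ τ : Str), σ <+: τ → l k σ ≤ l k τ)
include hl

theorem l_mono (k : ℕ) {s t : ℕ} (h : s ≤ t) : l k (seg X s) ≤ l k (seg X t) :=
  hl _ _ _ (G2_seg_le X h)

theorem ver_succ (k : ℕ) (σ : Str) : ver l (k + 1) σ = ver l k σ + l k σ := by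
  simp [ver, List.range_succ]

theorem ver_mono (k : ℕ) {s t : ℕ} (h : s ≤ t) : ver l k (seg X s) ≤ ver l k (seg X t) := by
  induction k with
  | zero => simp [ver]
  | succ k ih =>
    rw [ver_succ hl, ver_succ hl]
    exact add_le_add ih (l_mono hl k h)

theorem Bdd.stable {k : ℕ} (h : Bdd l X k) : ∃ t₀, ∀ t ≥ t₀, l k (seg X t) = l k (seg X t₀) := by
  classical
  obtain ⟨N, hN⟩ := h
  have h1 : ∃ m, ∀ t, l k (seg X t) ≤ m := ⟨N, hN⟩
  have h2 := Nat.find_spec h1
  rcases Nat.eq_zero_or_pos (Nat.find h1) with h0 | hpos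
  · refine ⟨0, fun t _ => ?_⟩
    have e1 := h2 t
    have e2 := h2 0
    omega
  · have h3 := Nat.find_min h1 (m := Nat.find h1 - 1) (by omega)
    push Not at h3
    obtain ⟨t₀, ht₀⟩ := h3
    refine ⟨t₀, fun t ht => ?_⟩
    have e1 := h2 t
    have e2 := h2 t₀
    have e3 := l_mono (X := X) hl k ht
    omega

theorem ver_stable {k : ℕ} (h : ∀ j < k, Bdd l X j) :
    ∃ t₀, ∀ t ≥ t₀, ver l k (seg X t) = ver l k (seg X t₀) := by
  induction k with
  | zero => exact ⟨0, fun t _ => by simp [ver]⟩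
  | succ k ih =>
    obtain ⟨t₁, h1⟩ := ih fun j hj => h j (by omega)
    obtain ⟨t₂, h2⟩ := (h k (by omega)).stable hl
    refine ⟨max t₁ t₂, fun t ht => ?_⟩
    rw [ver_succ hl, ver_succ hl, h1 t (le_trans (le_max_left _ _) ht), h1 _ (le_max_left _ _),
      h2 t (le_trans (le_max_right _ _) ht), h2 _ (le_max_right _ _)]

theorem fin_Q {k : ℕ} (h : Bdd l X k) : ∃ t₀, ∀ t, ∀ c ∈ (st l B (seg X t)).1,
    mt c = 0 → mi c = k → c ∈ (st l B (seg X t₀)).1 := by
  obtain ⟨t₀, h0⟩ := h.stable hl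
  refine ⟨t₀, fun t => ?_⟩
  induction t with
  | zero => intro c hc; rw [st_zero] at hc; simp at hc
  | succ t ih =>
    intro c hc h1 h2
    rcases mem_W.1 hc with h3 | ⟨h3, -⟩ | ⟨h3, -⟩
    · exact ih c h3 h1 h2
    · by_cases ht : t₀ ≤ t
      · have e1 := h0 t ht
        have e2 := h0 (t + 1) (by omega)
        have e3 := h3.2.2.2.1
        rw [h2] at e3
        omega
      · exact W_mono (by omega) hc
    · have := h3.2.1
      omega

theorem fin_P {k : ℕ} (h : ∀ j ≤ k, Bdd l X j) : ∃ t₀, ∀ t, ∀ c ∈ (st l B (seg X t)).1,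
    mt c = 1 → mi c = k → c ∈ (st l B (seg X t₀)).1 := by
  obtain ⟨t₁, h1⟩ := ver_stable (k := k + 1) hl fun j hj => h j (by omega)
  by_cases hex : ∃ t ≥ t₁, ∃ c ∈ (st l B (seg X (t + 1))).1, c ∉ (st l B (seg X t)).1 ∧
      mt c = 1 ∧ mi c = k
  · obtain ⟨s, hs, c, hc1, hc2, hc3, hc4⟩ := hex
    refine ⟨s + 1, fun t => ?_⟩
    induction t with
    | zero => intro c hc; rw [st_zero] at hc; simp at hc
    | succ t ih =>
      intro d hd h5 h6
      rcases mem_W.1 hd with h3 | ⟨h3, -⟩ | ⟨h3, -⟩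
      · exact ih d h3 h5 h6
      · have := h3.2.1
        omega
      · by_cases ht : t < s + 1
        · exact W_mono (by omega) hd
        · exfalso
          rcases mem_W.1 hc1 with h7 | ⟨h7, -⟩ | ⟨h7, -⟩
          · exact hc2 h7
          · have := h7.2.1
            omega
          · have e1 := h7.2.2.1
            have e2 := h3.2.2.1
            rw [hc4] at e1
            rw [h6] at e2
            rw [h1 _ (by omega)] at e1 e2
            exact h3.2.2.2.2 c (W_mono (by omega) hc1) ⟨hc3, by rw [hc4, h6], by rw [e1, e2]⟩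
  · push Not at hex
    refine ⟨t₁, fun t => ?_⟩
    induction t with
    | zero => intro c hc; rw [st_zero] at hc; simp at hc
    | succ t ih =>
      intro c hc h2 h3
      by_cases ht : t₁ ≤ t
      · by_cases hct : c ∈ (st l B (seg X t)).1
        · exact ih c hct h2 h3
        · exact absurd h3 (hex t ht c hc hct h2)
      · exact W_mono (by omega) hc

/-- a bound for all strategies which may injure the requirement `e` -/
theorem settle {e : ℕ} (h : ∀ j ≤ e, Bdd l X j) : ∃ t₀, ∀ t ≥ t₀,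
    ∀ c ∈ (st l B (seg X (t + 1))).1, c ∉ (st l B (seg X t)).1 →
      okk (jt l B X t) e c = true := by
  have h1 : ∀ k, ∃ t₀, k ≤ e → ∀ t, ∀ c ∈ (st l B (seg X t)).1,
      mi c = k → c ∈ (st l B (seg X t₀)).1 := by
    intro k
    by_cases hk : k ≤ e
    · obtain ⟨t₁, h1⟩ := fin_Q (B := B) hl (h k hk)
      obtain ⟨t₂, h2⟩ := fin_P (B := B) (k := k) hl fun j hj => h j (by omega)
      refine ⟨max t₁ t₂, fun _ t c hc hk' => ?_⟩
      rcases W_type hc with h3 | h3
      · exact W_mono (le_max_left _ _) (h1 t c hc h3 hk')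
      · exact W_mono (le_max_right _ _) (h2 t c hc h3 hk')
    · exact ⟨0, fun h => absurd h hk⟩
  choose f hf using h1
  refine ⟨(Finset.range (e + 1)).sup f, fun t ht c hc hct => ?_⟩
  have hm : e < mi c := by
    by_contra hcon
    have h2 := hf (mi c) (by omega) (t + 1) c hc rfl
    have h3 : f (mi c) ≤ (Finset.range (e + 1)).sup f :=
      Finset.le_sup (f := f) (Finset.mem_range.2 (by omega))
    exact hct (W_mono (h3.trans ht) h2)
  rcases mem_W.1 hc with h3 | ⟨-, h3⟩ | ⟨-, h3⟩
  · exact absurd h3 hct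
  · exact okl_iff.1 h3 e hm
  · exact okl_iff.1 h3 e (by omega)

end mono

end real

end Pool.Agent.K9h58.PT
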