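import Pool.Agent.K9h58.PT.Hop

/-!
The theorem on partial transversals, together with the degrees of the sets `hop l`.
-/

set_option autoImplicit false

namespace Pool.Agent.K9h58.PT

open Nat.Partrec (Code)
open Encodable
open Pool.Agent.H639.LU Pool.Agent.H869R3.FN Pool.Agent.R616.DI Pool.Agent.Y579.PP
open Pool.Agent.Helper446.Defs Pool.Agent.Helper446.Oracle Pool.Agent.Helper446

/-- two sequences of classes as one -/
theorem mix (p q : Code) : ∃ r : Code, ∀ (Y : ℕ → Bool) (n b a : ℕ),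
    W r Y (encode ((n, b, a) : ℕ × ℕ × ℕ)) ↔
      if n % 2 = 0 then W p Y (encode ((n / 2, b, a) : ℕ × ℕ × ℕ))
      else W q Y (encode ((n / 2, b, a) : ℕ × ℕ × ℕ)) := by
  have m2 : Computable (fun n : ℕ => n % 2) :=
    (Primrec.nat_mod.comp Primrec.id (Primrec.const 2)).to_comp
  have d2 : Computable (fun n : ℕ => n / 2) :=
    (Primrec.nat_div.comp Primrec.id (Primrec.const 2)).to_comp
  have h1 : Computable fun x : ℕ × Str => decide (x.1.unpair.1 % 2 = 0) :=
    c_deq (m2.comp (g := fun x : ℕ × Str => x.1.unpair.1) (by fun_prop)) (Computable.const 0)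
  have h2 : Computable fun x : ℕ × Str =>
      Nat.pair (x.1.unpair.1 / 2) x.1.unpair.2 :=
    RE.cnatpair (d2.comp (g := fun x : ℕ × Str => x.1.unpair.1) (by fun_prop)) (by fun_prop)
  have h3 := c_hst (r := fun _ : ℕ × Str => p) (Computable.const p) Computable.snd h2
  have h4 := c_hst (r := fun _ : ℕ × Str => q) (Computable.const q) Computable.snd h2
  obtain ⟨r, hr⟩ := w_of_fun (RE.ccond h1 h3 h4)
  obtain ⟨m1, -, -, -⟩ := N2 N1
  refine ⟨r, fun Y n b a => ?_⟩
  rw [hr]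
  simp only [Encodable.encode_prod_val, encode_nat, Nat.unpair_pair]
  by_cases hn : n % 2 = 0
  · rw [if_pos hn, decide_eq_true hn, m1]
    rfl
  · rw [if_neg hn, decide_eq_false hn, m1]
    rfl

/-- the theorem -/
theorem main (p : Code) (C : ℕ → (ℕ → Bool) → Prop)
    (hC : ∀ n Y, C n Y ↔ ∃ b, ∀ a, W p Y (encode ((n, b, a) : ℕ × ℕ × ℕ)))
    (huniq : ∀ n Y Z, C n Y → C n Z → le Y Z → le Z Y → Y = Z) :
    ∃ r : Code, (∀ X : ℕ → Bool, le X (ch (W r X)) ∧ ¬ le (ch (W r X)) X ∧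
        le (ch (W r X)) (ch (J X)) ∧ ¬ le (ch (J X)) (ch (W r X)) ∧
        le (ch (J (ch (W r X)))) (ch (J X))) ∧
      ∀ X Y : ℕ → Bool, le X Y → le Y X →
        ((∃ n D, C n D ∧ le D X ∧ le X D) ∨ ∃ l, le (hop l) X ∧ le X (hop l)) →
        le (ch (W r X)) (ch (W r Y)) ∧ le (ch (W r Y)) (ch (W r X)) := by
  obtain ⟨q, hq⟩ := exists_p
  obtain ⟨s, hs⟩ := mix p q
  set C' : ℕ → (ℕ → Bool) → Prop := fun n Y =>
    if n % 2 = 0 then C (n / 2) Y else Y = hop (Denumerable.ofNat (List Code) (n / 2)) with hC'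
  have h1 : ∀ n Y, C' n Y ↔ ∃ b, ∀ a, W s Y (encode ((n, b, a) : ℕ × ℕ × ℕ)) := by
    intro n Y
    simp only [hs, hC']
    by_cases hn : n % 2 = 0
    · simp only [if_pos hn]
      exact hC _ _
    · simp only [if_neg hn]
      exact hq _ _
  have h2 : ∀ n Y Z, C' n Y → C' n Z → le Y Z → le Z Y → Y = Z := by
    intro n Y Z hY hZ g1 g2
    simp only [hC'] at hY hZ
    by_cases hn : n % 2 = 0
    · rw [if_pos hn] at hY hZ
      exact huniq _ _ _ hY hZ g1 g2
    · rw [if_neg hn] at hY hZ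
      rw [hY, hZ]
  obtain ⟨r, k1, k2⟩ := transversals s C' h1 h2
  refine ⟨r, fun X => ?_, fun X Y g1 g2 h => ?_⟩
  · obtain ⟨e1, e2, e3⟩ := k1 X
    exact ⟨e1, e2, w_le_jump r X, fun h => not_jump _ (le_trans' e3 h), e3⟩
  · rcases h with ⟨n, D, hD, h3, h4⟩ | ⟨l, h3, h4⟩
    · refine k2 (2 * n) D ?_ X Y h4 h3 g1 g2
      simp only [hC']
      rw [if_pos (by omega), show 2 * n / 2 = n by omega]
      exact hD
    · refine k2 (2 * encode l + 1) (hop l) ?_ X Y h4 h3 g1 g2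
      simp only [hC']
      rw [if_neg (by omega), show (2 * encode l + 1) / 2 = encode l by omega,
        Denumerable.ofNat_encode]

end Pool.Agent.K9h58.PT
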