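import Pool.Agent.K9h58.PT.Case

/-!
The guesses: `(m, i, j)` is true for `X` at the level `a` if `m` is allowed, `i` computes from `X`
a set `Y` in the class `m` and `j` computes `X` from `Y`.
-/

set_option autoImplicit false

namespace Pool.Agent.K9h58.PT

open Nat.Partrec (Code)
open Encodable
open Pool.Agent.H639.LU Pool.Agent.H869R3.FN Pool.Agent.R616.DI Pool.Agent.Y579.PP
open Pool.Agent.Helper446.Defs Pool.Agent.Helper446.Oracle Pool.Agent.Helper446

/-- the length of the initial run of `g` below `n` -/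
def run (n : ℕ) (g : ℕ → Bool) : ℕ :=
  Nat.rec 0 (fun t s => bif decide (s = t) && g t then t + 1 else s) n

theorem run_succ (n : ℕ) (g : ℕ → Bool) :
    run (n + 1) g = bif decide (run n g = n) && g n then n + 1 else run n g := rfl

theorem le_run {n N : ℕ} {g : ℕ → Bool} : N ≤ run n g ↔ N ≤ n ∧ ∀ i < N, g i = true := by
  induction n generalizing N with
  | zero =>
    show N ≤ 0 ↔ _
    constructor
    · intro h
      exact ⟨h, fun i hi => by omega⟩
    · exact fun h => h.1
  | succ n ih =>
    rw [run_succ]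
    have h0 : run n g ≤ n := (ih.1 le_rfl).1
    by_cases h : run n g = n ∧ g n = true
    · rw [h.2, decide_eq_true h.1]
      simp only [Bool.and_self, cond_true]
      constructor
      · intro h1
        refine ⟨h1, fun i hi => ?_⟩
        by_cases hin : i = n
        · rw [hin]
          exact h.2
        · exact (ih.1 (le_of_eq h.1.symm)).2 i (by omega)
      · exact fun h1 => h1.1
    · have h1 : (decide (run n g = n) && g n) = false := by
        rw [Bool.eq_false_iff]
        intro h2
        simp only [Bool.and_eq_true, decide_eq_true_eq] at h2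
        exact h h2
      rw [h1, cond_false, ih]
      constructor
      · exact fun h2 => ⟨by omega, h2.2⟩
      · intro h2
        refine ⟨?_, h2.2⟩
        by_contra hcon
        have hN : N = n + 1 := by omega
        subst hN
        have h3 : n ≤ run n g := ih.2 ⟨le_rfl, fun i hi => h2.2 i (by omega)⟩
        exact h ⟨by omega, h2.2 n (by omega)⟩

theorem c_run {α : Type*} [Primcodable α] {n : α → ℕ} {g : α → ℕ → Bool} (hn : Computable n)
    (hg : Computable fun p : α × ℕ => g p.1 p.2) : Computable fun a => run (n a) (g a) := by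
  unfold run
  refine Computable.nat_rec (f := n) (g := fun _ => 0)
    (h := fun a p => bif decide (p.2 = p.1) && g a p.1 then p.1 + 1 else p.2) hn
    (Computable.const _) ?_
  unfold Computable₂
  have h1 : Computable fun q : α × ℕ × ℕ => decide (q.2.2 = q.2.1) :=
    c_deq (by fun_prop) (by fun_prop)
  have h2 : Computable fun q : α × ℕ × ℕ => g q.1 q.2.1 :=
    hg.comp (f := fun p : α × ℕ => g p.1 p.2) (g := fun q : α × ℕ × ℕ => (q.1, q.2.1))
      (by fun_prop)
  exact RE.ccond (RE.cand h1 h2) (by fun_prop) (by fun_prop)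

/-- the class -/
def gm (k : ℕ) : ℕ := k.unpair.1
/-- the program for `Y` from `X` -/
def gi (k : ℕ) : Code := Denumerable.ofNat Code k.unpair.2.unpair.1
/-- the program for `X` from `Y` -/
def gj (k : ℕ) : Code := Denumerable.ofNat Code k.unpair.2.unpair.2
/-- the guess with the given data -/
def gk (m : ℕ) (i j : Code) : ℕ := Nat.pair m (Nat.pair (encode i) (encode j))

@[simp] theorem gm_gk (m : ℕ) (i j : Code) : gm (gk m i j) = m := by simp [gm, gk]
@[simp] theorem gi_gk (m : ℕ) (i j : Code) : gi (gk m i j) = i := by simp [gi, gk]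
@[simp] theorem gj_gk (m : ℕ) (i j : Code) : gj (gk m i j) = j := by simp [gj, gk]

/-- the conditions of the class `m` -/
def cf (m i : ℕ) : ℕ := encode (m.unpair.1, m.unpair.2, i)

/-- the condition `i` of the guess `k` is verified -/
def good (p : Code) (k : ℕ) (σ : Str) (i : ℕ) : Bool :=
  hst p (dec (gi k) σ) (cf (gm k) i) &&
    (decide (i < (dec (gj k) (dec (gi k) σ)).length) &&
      decide ((dec (gj k) (dec (gi k) σ))[i]? = σ[i]?))

/-- the guess `k` is allowed at the level `a` -/
def allow (a k : ℕ) : Bool := decide (a = 0) || decide (gm k + 1 < a)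

/-- the expansion functions at the level `a` -/
def lk (p : Code) (a k : ℕ) (σ : Str) : ℕ :=
  bif allow a k then run σ.length (good p k σ) else 0

/-- the enumerations, for the program `r` -/
def Bk (r : Code) (k : ℕ) (σ : Str) (x : ℕ) : Bool :=
  hst r (dec (gi k) σ) (Nat.pair (gm k + 1) x)

theorem good_mono {p : Code} {k : ℕ} {σ τ : Str} (h : σ <+: τ) {i : ℕ}
    (hg : good p k σ i = true) : good p k τ i = true := by
  obtain ⟨-, m2, -, -⟩ := N2 N1
  obtain ⟨d1, d2, d3, d4⟩ := D1
  unfold good at hg ⊢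
  simp only [Bool.and_eq_true, decide_eq_true_eq] at hg ⊢
  obtain ⟨h1, h2, h3⟩ := hg
  have e1 := d3 (gi k) _ _ h
  have e2 := d3 (gj k) _ _ e1
  refine ⟨m2 _ _ _ _ e1 h1, lt_of_lt_of_le h2 e2.length_le, ?_⟩
  obtain ⟨u, hu⟩ := e2
  obtain ⟨w, hw⟩ := h
  have h4 : i < σ.length := by
    by_contra hcon
    rw [List.getElem?_eq_none (by omega : σ.length ≤ i), List.getElem?_eq_none_iff] at h3
    omega
  rw [← hu, List.getElem?_append_left h2, h3, ← hw, List.getElem?_append_left h4]

theorem lk_mono (p : Code) (a k : ℕ) (σ τ : Str) (h : σ <+: τ) : lk p a k σ ≤ lk p a k τ := by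
  unfold lk
  cases allow a k
  · exact le_rfl
  · simp only [cond_true]
    rw [le_run]
    obtain ⟨h1, h2⟩ := le_run.1 (le_refl (run σ.length (good p k σ)))
    exact ⟨h1.trans h.length_le, fun i hi => good_mono h (h2 i hi)⟩

theorem Bk_mono (r : Code) (k : ℕ) (σ τ : Str) (x : ℕ) (h : σ <+: τ)
    (hB : Bk r k σ x = true) : Bk r k τ x = true := by
  obtain ⟨-, m2, -, -⟩ := N2 N1
  obtain ⟨d1, d2, d3, d4⟩ := D1
  exact m2 _ _ _ _ (d3 _ _ _ h) hB

section comp

variable {α : Type*} [Primcodable α]

@[fun_prop] theorem c_gm {k : α → ℕ} (hk : Computable k) : Computable fun a => gm (k a) := by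
  unfold gm
  fun_prop

@[fun_prop] theorem c_gi {k : α → ℕ} (hk : Computable k) : Computable fun a => gi (k a) := by
  unfold gi
  exact c_ofCode (by fun_prop)

@[fun_prop] theorem c_gj {k : α → ℕ} (hk : Computable k) : Computable fun a => gj (k a) := by
  unfold gj
  exact c_ofCode (by fun_prop)

@[fun_prop] theorem c_cf {m i : α → ℕ} (hm : Computable m) (hi : Computable i) :
    Computable fun a => cf (m a) (i a) := by
  unfold cf
  fun_prop

theorem c_good (p : Code) {k : α → ℕ} {σ : α → Str} {i : α → ℕ} (hk : Computable k)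
    (hσ : Computable σ) (hi : Computable i) : Computable fun a => good p (k a) (σ a) (i a) := by
  unfold good
  have h1 : Computable fun a => dec (gi (k a)) (σ a) := c_dec (by fun_prop) hσ
  have h2 : Computable fun a => dec (gj (k a)) (dec (gi (k a)) (σ a)) := c_dec (by fun_prop) h1
  have h3 : Computable fun a => hst p (dec (gi (k a)) (σ a)) (cf (gm (k a)) (i a)) :=
    c_hst (Computable.const p) h1 (by fun_prop)
  have h4 : Computable fun a => decide (i a < (dec (gj (k a)) (dec (gi (k a)) (σ a))).length) :=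
    c_dlt hi (RE.clength h2)
  have h5 : Computable fun a =>
      decide ((dec (gj (k a)) (dec (gi (k a)) (σ a)))[i a]? = (σ a)[i a]?) :=
    RE.cdecide (RE.cp_eq (RE.cgetElem h2 hi) (RE.cgetElem hσ hi))
  exact RE.cand h3 (RE.cand h4 h5)

theorem c_lk (p : Code) : Computable fun q : (ℕ × Code) × ℕ × Str => lk p q.1.1 q.2.1 q.2.2 := by
  unfold lk allow
  have h1 : Computable fun q : (ℕ × Code) × ℕ × Str => decide (q.1.1 = 0) :=
    c_deq (by fun_prop) (by fun_prop)
  have h2 : Computable fun q : (ℕ × Code) × ℕ × Str => decide (gm q.2.1 + 1 < q.1.1) :=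
    c_dlt (by fun_prop) (by fun_prop)
  refine RE.ccond (RE.cor h1 h2) ?_ (Computable.const _)
  refine c_run (by fun_prop) ?_
  exact c_good p (by fun_prop) (by fun_prop) (by fun_prop)

theorem c_Bk : Computable fun q : (ℕ × Code) × ℕ × Str × ℕ =>
    Bk q.1.2 q.2.1 q.2.2.1 q.2.2.2 := by
  unfold Bk
  exact c_hst (by fun_prop) (c_dec (by fun_prop) (by fun_prop)) (by fun_prop)

end comp

/-- the limit of a decoding -/
theorem lim_dec {c : Code} {X : ℕ → Bool} (h : ∀ N, ∃ t, N ≤ (dec c (seg X t)).length) :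
    ∃ Y : ℕ → Bool, (∀ t, dec c (seg X t) = seg Y (dec c (seg X t)).length) ∧ le Y X := by
  obtain ⟨d1, d2, d3, d4⟩ := D1
  have h' : ∀ n, ∃ t, n < (dec c (seg X t)).length := fun n => h (n + 1)
  choose T hT using h'
  set Y : ℕ → Bool := fun n => (dec c (seg X (T n))).getD n false with hY
  have key : ∀ t n, n < (dec c (seg X t)).length → (dec c (seg X t))[n]? = some (Y n) := by
    intro t n hn
    have e1 : (dec c (seg X (T n)))[n]? = some (Y n) := by
      rw [hY]
      simp only [List.getD_eq_getElem?_getD]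
      rw [List.getElem?_eq_getElem (hT n)]
      rfl
    rcases le_total t (T n) with hle | hle
    · obtain ⟨u, hu⟩ := d3 c _ _ (G2_seg_le X hle)
      rw [← e1, ← hu, List.getElem?_append_left hn]
    · obtain ⟨u, hu⟩ := d3 c _ _ (G2_seg_le X hle)
      rw [← e1, ← hu, List.getElem?_append_left (hT n)]
  refine ⟨Y, fun t => ?_, ?_⟩
  · apply List.ext_getElem?
    intro i
    rw [seg_get]
    by_cases hi : i < (dec c (seg X t)).length
    · rw [if_pos hi, key t i hi]
    · rw [if_neg hi, List.getElem?_eq_none (by omega)]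
  · have hf : Computable (fun p : ℕ × Str => ((dec c p.2)[p.1]?).map Bool.toNat) := by
      have h1 : Computable (fun p : ℕ × Str => (dec c p.2)[p.1]?) :=
        RE.cgetElem (c_dec (Computable.const c) Computable.snd) Computable.fst
      refine Computable.option_map h1 ?_
      exact (Primrec.dom_bool Bool.toNat).to_comp.comp Computable.snd
    obtain ⟨e, he⟩ := red_of_fun hf
    refine (le_iff _ _).2 ⟨e, (he X Y).2 fun n v => ?_⟩
    dsimp only
    constructor
    · rintro ⟨s, hs⟩
      by_cases hn : n < (dec c (seg X s)).length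
      · rw [key s n hn] at hs
        simpa using hs.symm
      · rw [List.getElem?_eq_none (by omega)] at hs
        cases hs
    · rintro rfl
      refine ⟨T n, ?_⟩
      rw [key _ _ (hT n)]
      rfl

/-- a true guess -/
theorem of_unb {p : Code} {a k : ℕ} {X : ℕ → Bool} (h : ¬ Bdd (lk p a) X k) :
    allow a k = true ∧ ∃ Y : ℕ → Bool, le Y X ∧ le X Y ∧ (∀ i, W p Y (cf (gm k) i)) ∧
      ∀ r x, BX (Bk r) X k x ↔ W r Y (Nat.pair (gm k + 1) x) := by
  obtain ⟨m1, m2, -, -⟩ := N2 N1
  obtain ⟨d1, d2, d3, d4⟩ := D1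
  have hal : allow a k = true := by
    by_contra hcon
    rw [Bool.not_eq_true] at hcon
    refine h ⟨0, fun t => ?_⟩
    unfold lk
    rw [hcon]
    exact le_rfl
  refine ⟨hal, ?_⟩
  have h1 : ∀ N, ∃ t, ∀ i < N, good p k (seg X t) i = true := by
    intro N
    by_contra hcon
    apply h
    refine ⟨N, fun t => ?_⟩
    by_contra h2
    unfold lk at h2
    rw [hal, cond_true] at h2
    push Not at h2
    exact hcon ⟨t, (le_run.1 h2.le).2⟩
  have hgood : ∀ {t i}, good p k (seg X t) i = true →
      hst p (dec (gi k) (seg X t)) (cf (gm k) i) = true ∧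
      i < (dec (gj k) (dec (gi k) (seg X t))).length ∧
      (dec (gj k) (dec (gi k) (seg X t)))[i]? = (seg X t)[i]? := by
    intro t i hg
    unfold good at hg
    simpa only [Bool.and_eq_true, decide_eq_true_eq] using hg
  obtain ⟨Y, hY1, hY2⟩ := lim_dec (c := gi k) (X := X) fun N => by
    obtain ⟨t, ht⟩ := h1 (N + 1)
    exact ⟨t, (le_of_lt (hgood (ht N (by omega))).2.1).trans (d4 _ _)⟩
  have hlong : ∀ N, ∃ t, N ≤ (dec (gi k) (seg X t)).length := fun N => by
    obtain ⟨t, ht⟩ := h1 (N + 1)
    exact ⟨t, (le_of_lt (hgood (ht N (by omega))).2.1).trans (d4 _ _)⟩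
  refine ⟨Y, hY2, ?_, ?_, ?_⟩
  · obtain ⟨Z, hZ1, hZ2⟩ := lim_dec (c := gj k) (X := Y) fun N => by
      obtain ⟨t, ht⟩ := h1 (N + 1)
      refine ⟨(dec (gi k) (seg X t)).length, ?_⟩
      rw [← hY1 t]
      exact le_of_lt (hgood (ht N (by omega))).2.1
    have : X = Z := by
      funext n
      obtain ⟨t, ht⟩ := h1 (n + 1)
      obtain ⟨g1, g2, g3⟩ := hgood (ht n (by omega))
      have h3 := hZ1 (dec (gi k) (seg X t)).length
      rw [← hY1 t] at h3
      rw [h3, seg_get, if_pos g2, seg_get] at g3
      by_cases hn : n < t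
      · rw [if_pos hn] at g3
        exact (Option.some.inj g3).symm
      · rw [if_neg hn] at g3
        cases g3
    rw [this]
    exact hZ2
  · intro i
    obtain ⟨t, ht⟩ := h1 (i + 1)
    have h3 := (hgood (ht i (by omega))).1
    rw [hY1 t] at h3
    exact (m1 _ _ _).2 ⟨_, h3⟩
  · intro r x
    rw [m1]
    constructor
    · rintro ⟨t, ht⟩
      unfold Bk at ht
      rw [hY1 t] at ht
      exact ⟨_, ht⟩
    · rintro ⟨s, hs⟩
      obtain ⟨t, ht⟩ := hlong s
      refine ⟨t, ?_⟩
      unfold Bk
      rw [hY1 t]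
      exact m2 _ _ _ _ (G2_seg_le Y ht) hs

/-- a correct guess is true -/
theorem unb_of {p : Code} {a k : ℕ} {X Y : ℕ → Bool} (hal : allow a k = true)
    (h1 : Red (gi k) X Y) (h2 : Red (gj k) Y X) (h3 : ∀ i, W p Y (cf (gm k) i)) :
    ¬ Bdd (lk p a) X k := by
  obtain ⟨m1, m2, -, -⟩ := N2 N1
  obtain ⟨d1, d2, d3, d4⟩ := D1
  rintro ⟨N, hN⟩
  have key : ∀ M, ∃ t₀, ∀ t ≥ t₀, ∀ i < M, good p k (seg X t) i = true := by
    intro M
    induction M with
    | zero => exact ⟨0, fun t _ i hi => by omega⟩
    | succ M ih =>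
      obtain ⟨t₀, h0⟩ := ih
      obtain ⟨s, hs⟩ := (m1 _ _ _).1 (h3 M)
      obtain ⟨s', hs'⟩ := dec_long h2 (M + 1)
      obtain ⟨t₁, ht₁⟩ := dec_long h1 (max s s')
      refine ⟨max (max t₀ t₁) (M + 1), fun t ht i hi => ?_⟩
      have ht0 : t₀ ≤ t := le_trans (le_trans (le_max_left _ _) (le_max_left _ _)) ht
      have ht1 : t₁ ≤ t := le_trans (le_trans (le_max_right _ _) (le_max_left _ _)) ht
      have ht2 : M + 1 ≤ t := le_trans (le_max_right _ _) ht
      by_cases hiM : i < M
      · exact h0 t ht0 i hiM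
      · have hiM : i = M := by omega
        subst hiM
        obtain ⟨b, hb⟩ := dec_seg h1 t
        have hb1 : max s s' ≤ b := by
          have := ht₁ t ht1
          rw [hb, seg_len] at this
          exact this
        obtain ⟨b', hb'⟩ := dec_seg h2 b
        have hb2 : i + 1 ≤ b' := by
          have := hs' b (le_trans (le_max_right _ _) hb1)
          rw [hb', seg_len] at this
          exact this
        unfold good
        simp only [Bool.and_eq_true, decide_eq_true_eq]
        rw [hb, hb', seg_len, seg_get, seg_get, if_pos (by omega), if_pos (by omega)]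
        exact ⟨m2 _ _ _ _ (G2_seg_le Y ((le_max_left _ _).trans hb1)) hs, by omega, rfl⟩
  obtain ⟨t₀, h0⟩ := key (N + 1)
  have h4 := hN (max t₀ (N + 1))
  unfold lk at h4
  rw [hal, cond_true] at h4
  have h5 : N + 1 ≤ run (seg X (max t₀ (N + 1))).length (good p k (seg X (max t₀ (N + 1)))) := by
    rw [le_run, seg_len]
    exact ⟨le_max_right _ _, fun i hi => h0 _ (le_max_left _ _) i hi⟩
  omega

end Pool.Agent.K9h58.PT
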