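import Pool.Agent.K9h58.PT.Level

/-!
The sets obtained from the empty set by finitely many steps `Z ↦ Z ⊕ W r Z` form a
sequence of `Π⁰₂` singletons, uniformly.
-/

set_option autoImplicit false

namespace Pool.Agent.K9h58.PT

open Nat.Partrec (Code)
open Encodable
open Pool.Agent.H639.LU Pool.Agent.H869R3.FN Pool.Agent.R616.DI Pool.Agent.Y579.PP
open Pool.Agent.Helper446.Defs Pool.Agent.Helper446.Oracle Pool.Agent.Helper446

/-- the sets obtained from the empty set by finitely many steps `Z ↦ Z ⊕ W r Z` -/
noncomputable def hop : List Code → ℕ → Bool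
  | [] => fun _ => false
  | r :: l => jn 0 (hop l) (ch (W r (hop l)))

/-- the even part -/
def evp (Y : ℕ → Bool) : ℕ → Bool := fun n => Y (2 * n)

/-- the even part of a string -/
def ev (σ : Str) : Str := (List.range ((σ.length + 1) / 2)).map fun i => σ.getD (2 * i) false

theorem ev_seg (Y : ℕ → Bool) (t : ℕ) : ev (seg Y t) = seg (evp Y) ((t + 1) / 2) := by
  unfold ev
  rw [seg_len]
  unfold seg
  refine List.map_congr_left fun i hi => ?_
  rw [List.mem_range] at hi
  have := seg_getD Y t (2 * i) (by omega)
  unfold seg at this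
  rw [this]
  rfl

/-- the test at the top level -/
def tst (l : List Code) (σ : Str) (x s : ℕ) : Bool :=
  bif decide (l.length = 0) then decide (σ[x]? = some false)
  else (decide (σ[2 * x + 1]? = some true) && hst (l.head?.getD Code.zero) (ev σ) x) ||
    (decide (σ[2 * x + 1]? = some false) && (decide (s < (ev σ).length + 1) &&
      !(hst (l.head?.getD Code.zero) ((ev σ).take s) x)))

/-- the next level -/
def down (q : List Code × Str) : List Code × Str := (q.1.tail, ev q.2)

/-- the test at the level `d` -/
def Tst (l : List Code) (Y : ℕ → Bool) (d x s : ℕ) : Prop :=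
  ∃ t, tst (down^[d] (l, seg Y t)).1 (down^[d] (l, seg Y t)).2 x s = true

theorem Tst_succ (l : List Code) (Y : ℕ → Bool) (d x s : ℕ) :
    Tst l Y (d + 1) x s ↔ Tst l.tail (evp Y) d x s := by
  unfold Tst
  have h : ∀ t, down^[d + 1] (l, seg Y t) = down^[d] (l.tail, seg (evp Y) ((t + 1) / 2)) := by
    intro t
    rw [Function.iterate_succ_apply]
    congr 1
    unfold down
    rw [ev_seg]
  constructor
  · rintro ⟨t, ht⟩
    rw [h] at ht
    exact ⟨_, ht⟩
  · rintro ⟨t, ht⟩
    refine ⟨2 * t, ?_⟩
    rw [h, show (2 * t + 1) / 2 = t by omega]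
    exact ht

theorem Tst_nil (Y : ℕ → Bool) (x s : ℕ) : Tst [] Y 0 x s ↔ Y x = false := by
  show (∃ t, tst [] (seg Y t) x s = true) ↔ _
  unfold tst
  simp only [List.length_nil, decide_true, cond_true, decide_eq_true_eq]
  constructor
  · rintro ⟨t, ht⟩
    rw [seg_get] at ht
    by_cases h : x < t
    · rw [if_pos h] at ht
      exact Option.some.inj ht
    · rw [if_neg h] at ht
      cases ht
  · intro h
    refine ⟨x + 1, ?_⟩
    rw [seg_get, if_pos (by omega), h]

theorem Tst_cons (r : Code) (l : List Code) (Y : ℕ → Bool) (x s : ℕ) :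
    Tst (r :: l) Y 0 x s ↔ (Y (2 * x + 1) = true ∧ W r (evp Y) x) ∨
      (Y (2 * x + 1) = false ∧ ¬ hst r (seg (evp Y) s) x = true) := by
  obtain ⟨m1, m2, -, -⟩ := N2 N1
  show (∃ t, tst (r :: l) (seg Y t) x s = true) ↔ _
  unfold tst
  simp only [List.length_cons, Nat.add_eq_zero_iff, one_ne_zero,
    and_false, decide_false, cond_false, List.head?_cons, Option.getD_some, Bool.or_eq_true,
    Bool.and_eq_true, decide_eq_true_eq, Bool.not_eq_true', ev_seg, seg_len, seg_get,
    Nat.lt_succ_iff, Bool.not_eq_true]
  constructor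
  · rintro ⟨t, ⟨h1, h2⟩ | ⟨h1, h2, h3⟩⟩
    · left
      by_cases h : 2 * x + 1 < t
      · rw [if_pos h] at h1
        exact ⟨Option.some.inj h1, (m1 _ _ _).2 ⟨_, h2⟩⟩
      · rw [if_neg h] at h1
        cases h1
    · right
      by_cases h : 2 * x + 1 < t
      · rw [if_pos h] at h1
        rw [take_seg' _ h2] at h3
        exact ⟨Option.some.inj h1, h3⟩
      · rw [if_neg h] at h1
        cases h1
  · rintro (⟨h1, h2⟩ | ⟨h1, h2⟩)
    · obtain ⟨u, hu⟩ := (m1 _ _ _).1 h2
      refine ⟨2 * (u + x + 1), Or.inl ⟨?_, ?_⟩⟩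
      · rw [if_pos (by omega), h1]
      · exact m2 _ _ _ _ (G2_seg_le (evp Y) (by omega)) hu
    · refine ⟨2 * (s + x + 1), Or.inr ⟨?_, by omega, ?_⟩⟩
      · rw [if_pos (by omega), h1]
      · rw [take_seg' _ (by omega)]
        exact h2

theorem evp_jn (A B : ℕ → Bool) : evp (jn 0 A B) = A := by
  funext n
  unfold evp
  rw [jn_even]

theorem hop_iff (l : List Code) : ∀ Y : ℕ → Bool, (∀ d x s, Tst l Y d x s) ↔ Y = hop l := by
  obtain ⟨m1, m2, -, -⟩ := N2 N1
  induction l with
  | nil =>
    intro Y
    constructor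
    · intro h
      funext x
      exact (Tst_nil Y x 0).1 (h 0 x 0)
    · rintro rfl d
      induction d with
      | zero =>
        intro x s
        exact (Tst_nil _ x s).2 rfl
      | succ d ih =>
        intro x s
        rw [Tst_succ]
        exact ih x s
  | cons r l ih =>
    intro Y
    constructor
    · intro h
      have h1 : evp Y = hop l := (ih _).1 fun d x s => (Tst_succ (r :: l) Y d x s).1 (h (d + 1) x s)
      have h2 : ∀ x, Y (2 * x + 1) = true ↔ W r (evp Y) x := by
        intro x
        constructor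
        · intro h3
          rcases (Tst_cons r l Y x 0).1 (h 0 x 0) with h4 | h4
          · exact h4.2
          · rw [h4.1] at h3
            cases h3
        · intro h3
          obtain ⟨s, hs⟩ := (m1 _ _ _).1 h3
          rcases (Tst_cons r l Y x s).1 (h 0 x s) with h4 | h4
          · exact h4.1
          · exact absurd hs h4.2
      rw [h1] at h2
      funext n
      show Y n = jn 0 (hop l) (ch (W r (hop l))) n
      rcases Nat.even_or_odd' n with ⟨m, rfl | rfl⟩
      · rw [jn_even, ← h1]
        rfl
      · rw [jn_odd, Bool.eq_iff_iff, ch_true]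
        exact h2 m
    · rintro rfl d x s
      have h1 : evp (hop (r :: l)) = hop l := evp_jn _ _
      cases d with
      | succ d =>
        rw [Tst_succ, h1]
        exact (ih _).2 rfl d x s
      | zero =>
        rw [Tst_cons, h1]
        have h2 : hop (r :: l) (2 * x + 1) = ch (W r (hop l)) x := jn_odd _ _ _
        by_cases h3 : W r (hop l) x
        · left
          rw [h2, ch_true]
          exact ⟨h3, h3⟩
        · right
          rw [h2]
          refine ⟨?_, fun h4 => h3 ((m1 _ _ _).2 ⟨s, h4⟩)⟩
          rw [Bool.eq_false_iff]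
          intro h4
          exact h3 (ch_true.1 h4)

section comp

variable {α : Type*} [Primcodable α]

theorem c_ev {σ : α → Str} (hσ : Computable σ) : Computable fun a => ev (σ a) := by
  unfold ev
  have d2 : Computable (fun n : ℕ => n / 2) :=
    (Primrec.nat_div.comp Primrec.id (Primrec.const 2)).to_comp
  have h1 : Computable fun a => ((σ a).length + 1) / 2 :=
    d2.comp (g := fun a => (σ a).length + 1) (by fun_prop)
  refine c_map (f := fun a i => (σ a).getD (2 * i) false) ?_ (c_range h1)
  exact c_getD (by fun_prop) (by fun_prop)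

theorem c_tst {l : α → List Code} {σ : α → Str} {x s : α → ℕ} (hl : Computable l)
    (hσ : Computable σ) (hx : Computable x) (hs : Computable s) :
    Computable fun a => tst (l a) (σ a) (x a) (s a) := by
  unfold tst
  have h0 : Computable fun a => decide ((l a).length = 0) :=
    c_deq (RE.clength hl) (Computable.const 0)
  have h1 : Computable fun a => decide ((σ a)[x a]? = some false) :=
    RE.cdecide (RE.cp_eq (RE.cgetElem hσ hx) (Computable.const _))
  have g : Computable fun a => (σ a)[2 * x a + 1]? := RE.cgetElem hσ (by fun_prop)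
  have h2 : Computable fun a => decide ((σ a)[2 * x a + 1]? = some true) :=
    RE.cdecide (RE.cp_eq g (Computable.const _))
  have h3 : Computable fun a => decide ((σ a)[2 * x a + 1]? = some false) :=
    RE.cdecide (RE.cp_eq g (Computable.const _))
  have hh : Computable fun a => (l a).head?.getD Code.zero :=
    (Primrec.option_getD.to_comp).comp (Primrec.list_head?.to_comp.comp hl) (Computable.const _)
  have he := c_ev hσ
  have h4 := c_hst hh he hx
  have h5 : Computable fun a => hst ((l a).head?.getD Code.zero) ((ev (σ a)).take (s a)) (x a) :=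
    c_hst hh (c_take he hs) hx
  have h6 : Computable fun a => decide (s a < (ev (σ a)).length + 1) :=
    c_dlt hs (RE.cadd (RE.clength he) (Computable.const 1))
  exact RE.ccond h0 h1 (RE.cor (RE.cand h2 h4) (RE.cand h3 (RE.cand h6 (RE.cnot h5))))

theorem c_down {q : α → List Code × Str} {d : α → ℕ} (hq : Computable q) (hd : Computable d) :
    Computable fun a => down^[d a] (q a) := by
  have h : Computable fun a => (Nat.rec (q a) (fun _ s => down s) (d a) : List Code × Str) := by
    refine Computable.nat_rec (f := d) (g := q) (h := fun _ p => down p.2) hd hq ?_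
    unfold Computable₂ down
    have e1 : Computable fun x : α × ℕ × (List Code × Str) => x.2.2.1 := by fun_prop
    have e2 : Computable fun x : α × ℕ × (List Code × Str) => x.2.2.2 := by fun_prop
    exact RE.cpair (Primrec.list_tail.to_comp.comp e1) (c_ev e2)
  refine h.of_eq fun a => ?_
  induction d a with
  | zero => rfl
  | succ n ih =>
    rw [Function.iterate_succ_apply', ← ih]

end comp

/-- the uniform presentation of the classes `{hop l}` -/
theorem exists_p : ∃ p : Code, ∀ n Y, Y = hop (Denumerable.ofNat (List Code) n) ↔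
    ∃ b, ∀ a, W p Y (encode ((n, b, a) : ℕ × ℕ × ℕ)) := by
  have hd : Computable fun q : ℕ × Str => down^[q.1.unpair.2.unpair.2.unpair.1]
      (Denumerable.ofNat (List Code) q.1.unpair.1, q.2) := by
    refine c_down (RE.cpair ?_ Computable.snd) (by fun_prop)
    exact (Computable.ofNat (List Code)).comp (by fun_prop)
  have hG : Computable fun q : ℕ × Str => tst
      (down^[q.1.unpair.2.unpair.2.unpair.1] (Denumerable.ofNat (List Code) q.1.unpair.1, q.2)).1
      (down^[q.1.unpair.2.unpair.2.unpair.1] (Denumerable.ofNat (List Code) q.1.unpair.1, q.2)).2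
      q.1.unpair.2.unpair.2.unpair.2.unpair.1 q.1.unpair.2.unpair.2.unpair.2.unpair.2 :=
    c_tst (RE.cfst hd) (RE.csnd hd) (by fun_prop) (by fun_prop)
  obtain ⟨p, hp⟩ := w_of_fun hG
  refine ⟨p, fun n Y => ?_⟩
  rw [← hop_iff]
  have h : ∀ b a, W p Y (encode ((n, b, a) : ℕ × ℕ × ℕ)) ↔
      Tst (Denumerable.ofNat (List Code) n) Y a.unpair.1 a.unpair.2.unpair.1
        a.unpair.2.unpair.2 := by
    intro b a
    rw [hp]
    simp only [Encodable.encode_prod_val, encode_nat, Nat.unpair_pair]
    rfl
  constructor
  · intro h1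
    exact ⟨0, fun a => (h 0 a).2 (h1 _ _ _)⟩
  · rintro ⟨b, hb⟩ d x s
    have := (h b (Nat.pair d (Nat.pair x s))).1 (hb _)
    simpa using this

/-- a solution to Post's problem which is invariant on the degrees of all sets `hop l` -/
theorem hop_main : ∃ R : Code, (∀ X : ℕ → Bool, le X (ch (W R X)) ∧ ¬ le (ch (W R X)) X ∧
      le (ch (J (ch (W R X)))) (ch (J X))) ∧
    ∀ l : List Code, ∀ X Y : ℕ → Bool, le X (hop l) → le (hop l) X → le X Y → le Y X →
      le (ch (W R X)) (ch (W R Y)) ∧ le (ch (W R Y)) (ch (W R X)) := by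
  obtain ⟨p, hp⟩ := exists_p
  obtain ⟨R, h1, h2⟩ := transversals p
    (fun n Y => Y = hop (Denumerable.ofNat (List Code) n)) hp
    (fun n Y Z hY hZ _ _ => hY.trans hZ.symm)
  refine ⟨R, h1, fun l X Y g1 g2 g3 g4 => ?_⟩
  refine h2 (encode l) (hop l) ?_ X Y g1 g2 g3 g4
  rw [Denumerable.ofNat_encode]

end Pool.Agent.K9h58.PT
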