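import Pool.Agent.K9h58.PT.Guess

/-!
The levels of the construction, and the theorem on partial transversals.
-/

set_option autoImplicit false

namespace Pool.Agent.K9h58.PT

open Nat.Partrec (Code)
open Encodable
open Pool.Agent.H639.LU Pool.Agent.H869R3.FN Pool.Agent.R616.DI Pool.Agent.Y579.PP
open Pool.Agent.Helper446.Defs Pool.Agent.Helper446.Oracle Pool.Agent.Helper446

/-- the recursion theorem for c.e. operators -/
theorem w_fix {F : Code × ℕ × Str → Bool} (hF : Computable F) :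
    ∃ r : Code, ∀ (X : ℕ → Bool) (n : ℕ), W r X n ↔ ∃ s, F (r, n, seg X s) = true := by
  set f : Code → ℕ →. ℕ := fun r N =>
    (Part.ofOption (decode (α := ℕ × Str) N)).bind fun a =>
      (Part.ofOption (bif F (r, a) then some 0 else (none : Option ℕ))) with hf
  have hp : Partrec₂ f := by
    have h1 : Computable fun q : (Code × ℕ) × (ℕ × Str) =>
        bif F (q.1.1, q.2) then some 0 else (none : Option ℕ) := by
      have h2 : Computable fun q : (Code × ℕ) × (ℕ × Str) => F (q.1.1, q.2) :=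
        hF.comp (g := fun q : (Code × ℕ) × (ℕ × Str) => (q.1.1, q.2)) (by fun_prop)
      exact RE.ccond h2 (Computable.const _) (Computable.const _)
    have h3 : Partrec fun q : Code × ℕ =>
        (Part.ofOption (decode (α := ℕ × Str) q.2)).bind fun a =>
          (Part.ofOption (bif F (q.1, a) then some 0 else (none : Option ℕ))) :=
      Partrec.bind (Computable.ofOption (Computable.decode.comp Computable.snd))
        (Computable.ofOption h1).to₂
    exact h3
  obtain ⟨r, hr⟩ := Nat.Partrec.Code.fixed_point₂ hp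
  refine ⟨r, fun X n => ?_⟩
  unfold W
  rw [hr, hf]
  have h1 : ∀ s, (((Part.ofOption (decode (α := ℕ × Str) (encode (n, seg X s)))).bind fun a =>
      (Part.ofOption (bif F (r, a) then some 0 else (none : Option ℕ)))) : Part ℕ).Dom ↔
      F (r, n, seg X s) = true := by
    intro s
    rw [encodek]
    have h2 : (Part.ofOption (some ((n, seg X s) : ℕ × Str))).bind (fun a =>
      (Part.ofOption (bif F (r, a) then some 0 else (none : Option ℕ)))) =
      (Part.ofOption (bif F (r, (n, seg X s)) then some 0 else (none : Option ℕ))) :=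
      Part.bind_some _ _
    rw [h2]
    cases F (r, n, seg X s)
    · simp
    · simp
  simp only [h1]

/-- the value at the level `a` -/
def V (r : Code) (a : ℕ) (X : ℕ → Bool) (x : ℕ) : Prop := W r X (Nat.pair a x)

theorem exists_r (p : Code) : ∃ r : Code, ∀ (a : ℕ) (X : ℕ → Bool) (x : ℕ),
    V r a X x ↔ WX (lk p a) (Bk r) X x := by
  have hst : Computable fun q : Code × ℕ × Str =>
      st (lk p q.2.1.unpair.1) (Bk q.1) q.2.2 :=
    c_st (π := ℕ × Code) (l := fun q => lk p q.1) (B := fun q => Bk q.2) (c_lk p) c_Bk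
      (q := fun q : Code × ℕ × Str => (q.2.1.unpair.1, q.1)) (σ := fun q => q.2.2)
      (by fun_prop) (by fun_prop)
  have hF : Computable fun q : Code × ℕ × Str =>
      decide (q.2.1.unpair.2 ∈ (st (lk p q.2.1.unpair.1) (Bk q.1) q.2.2).1) :=
    c_mem (by fun_prop) (RE.cfst hst)
  obtain ⟨r, hr⟩ := w_fix hF
  refine ⟨r, fun a X x => ?_⟩
  unfold V WX
  rw [hr]
  simp only [Nat.unpair_pair, decide_eq_true_eq]

theorem jump_mono {X Y : ℕ → Bool} (h : le X Y) : le (ch (J X)) (ch (J Y)) := by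
  obtain ⟨i, hi⟩ := (le_iff _ _).1 h
  obtain ⟨l, hl⟩ := jump_unif i
  exact (le_iff _ _).2 ⟨l, hl _ _ hi⟩

theorem le_jn {X Y Z : ℕ → Bool} (h1 : le X Z) (h2 : le Y Z) : le (jn 0 X Y) Z := by
  obtain ⟨c, hc⟩ := (le_iff _ _).1 h1
  obtain ⟨d, hd⟩ := (le_iff _ _).1 h2
  obtain ⟨e, he⟩ := red_join c d
  exact (le_iff _ _).2 ⟨e, he _ _ _ hc hd⟩

/-- the operator at the level `a`, joined with the oracle -/
noncomputable def U (r : Code) (a : ℕ) (X : ℕ → Bool) : ℕ → Bool := jn 0 X (ch (V r a X))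

/-- the class `m` -/
def D (p : Code) (m : ℕ) (Y : ℕ → Bool) : Prop := ∀ i, W p Y (cf m i)

/-- Turing equivalence -/
def eqv (X Y : ℕ → Bool) : Prop := le X Y ∧ le Y X

theorem eqv.symm {X Y : ℕ → Bool} (h : eqv X Y) : eqv Y X := ⟨h.2, h.1⟩
theorem eqv.trans {X Y Z : ℕ → Bool} (h : eqv X Y) (h' : eqv Y Z) : eqv X Z :=
  ⟨le_trans' h.1 h'.1, le_trans' h'.2 h.2⟩

section

variable {p r : Code} (hr : ∀ (a : ℕ) (X : ℕ → Bool) (x : ℕ), V r a X x ↔ WX (lk p a) (Bk r) X x)
include hr

theorem U_eq (a : ℕ) (X : ℕ → Bool) : U r a X = jn 0 X (ch (WX (lk p a) (Bk r) X)) := by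
  unfold U
  rw [ch_congr (hr a X)]

/-- the value at the level `a`, in terms of the least true guess -/
theorem level (a : ℕ) (X : ℕ → Bool) :
    ((∀ k, Bdd (lk p a) X k) ∧ le (ch (J (U r a X))) (ch (J X)) ∧ ¬ le (ch (V r a X)) X) ∨
    ∃ (k : ℕ) (Y : ℕ → Bool), allow a k = true ∧ eqv Y X ∧ D p (gm k) Y ∧
      eqv (U r a X) (U r (gm k + 1) Y) := by
  classical
  have hst : Computable (st (lk p a) (Bk r)) :=
    c_st (π := ℕ × Code) (l := fun q => lk p q.1) (B := fun q => Bk q.2) (c_lk p) c_Bk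
      (q := fun _ : Str => (a, r)) (σ := fun σ => σ) (by fun_prop) (by fun_prop)
  by_cases hB : ∀ k, Bdd (lk p a) X k
  · left
    obtain ⟨h1, h2⟩ := low_case hst (lk_mono p a) hB
    rw [U_eq hr, ch_congr (hr a X)]
    exact ⟨hB, h1, h2⟩
  · right
    push Not at hB
    have h1 := Nat.find_spec hB
    have h2 := fun j hj => not_not.1 (Nat.find_min hB (m := j) hj)
    generalize Nat.find hB = k at h1 h2
    obtain ⟨hal, Y, hYX, hXY, hD, hBX⟩ := of_unb h1
    have hlc : Computable fun q : ℕ × Str => lk p a q.1 q.2 :=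
      (c_lk p).comp (g := fun q : ℕ × Str => (((a, r), q.1, q.2) : (ℕ × Code) × ℕ × Str))
        (by fun_prop)
    obtain ⟨h3, h4⟩ := code_case (lk_mono p a) hst hlc (Bk_mono r) h2 h1
    have hV : ch (BX (Bk r) X k) = ch (V r (gm k + 1) Y) := ch_congr fun x => hBX r x
    rw [hV] at h3 h4
    refine ⟨k, Y, hal, ⟨hYX, hXY⟩, hD, ?_⟩
    rw [U_eq hr a]
    constructor
    · refine le_jn (le_trans' hXY (le_jn_left _ _)) (le_trans' h3 ?_)
      exact le_jn (le_trans' hXY (le_jn_left _ _)) (le_jn_right _ _)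
    · exact le_jn (le_trans' hYX (le_jn_left _ _)) h4

/-- all levels are solutions to Post's problem -/
theorem solves : ∀ (a : ℕ) (X : ℕ → Bool),
    le (ch (J (U r a X))) (ch (J X)) ∧ ¬ le (U r a X) X := by
  have step : ∀ a, (∀ m, (a = 0 ∨ m + 1 < a) → ∀ X : ℕ → Bool,
      le (ch (J (U r (m + 1) X))) (ch (J X)) ∧ ¬ le (U r (m + 1) X) X) → ∀ X : ℕ → Bool,
      le (ch (J (U r a X))) (ch (J X)) ∧ ¬ le (U r a X) X := by
    intro a ih X
    rcases level hr a X with ⟨-, h1, h2⟩ | ⟨k, Y, hal, hYX, -, hU⟩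
    · exact ⟨h1, fun h => h2 (le_trans' (le_jn_right _ _) h)⟩
    · have hal' : a = 0 ∨ gm k + 1 < a := by
        unfold allow at hal
        simpa using hal
      obtain ⟨h1, h2⟩ := ih (gm k) hal' Y
      refine ⟨le_trans' (jump_mono hU.1) (le_trans' h1 (jump_mono hYX.1)), fun h => h2 ?_⟩
      exact le_trans' hU.2 (le_trans' h hYX.2)
  have pos : ∀ a, 0 < a → ∀ X : ℕ → Bool,
      le (ch (J (U r a X))) (ch (J X)) ∧ ¬ le (U r a X) X := by
    intro a
    induction a using Nat.strong_induction_on with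
    | _ a ih =>
      intro ha
      refine step a fun m hm => ?_
      rcases hm with hm | hm
      · omega
      · exact ih (m + 1) hm (by omega)
  intro a
  rcases Nat.eq_zero_or_pos a with h0 | h0
  · exact step a fun m _ => pos (m + 1) (by omega)
  · exact pos a h0

/-- invariance -/
theorem invar (huniq : ∀ m Y Z, D p m Y → D p m Z → eqv Y Z → Y = Z)
    {m : ℕ} {Y₀ : ℕ → Bool} (hD : D p m Y₀) (hmin : ∀ m' < m, ∀ Y, D p m' Y → ¬ eqv Y Y₀) :
    ∀ X : ℕ → Bool, eqv X Y₀ → eqv (U r 0 X) (U r (m + 1) Y₀) := by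
  have step : ∀ a, (a = 0 ∨ m + 1 < a) → (∀ m', m < m' → (a = 0 ∨ m' + 1 < a) →
      ∀ X : ℕ → Bool, eqv X Y₀ → eqv (U r (m' + 1) X) (U r (m + 1) Y₀)) →
      ∀ X : ℕ → Bool, eqv X Y₀ → eqv (U r a X) (U r (m + 1) Y₀) := by
    intro a ha ih X hX
    rcases level hr a X with ⟨h1, -, -⟩ | ⟨k, Y, hal, hYX, hDY, hU⟩
    · exfalso
      obtain ⟨i, hi⟩ := (le_iff _ _).1 hX.2
      obtain ⟨j, hj⟩ := (le_iff _ _).1 hX.1
      refine unb_of (p := p) (a := a) (k := gk m i j) (X := X) (Y := Y₀) ?_ ?_ ?_ ?_ (h1 _)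
      · unfold allow
        simpa using ha
      · rw [gi_gk]
        exact hi
      · rw [gj_gk]
        exact hj
      · rw [gm_gk]
        exact hD
    · have hal' : a = 0 ∨ gm k + 1 < a := by
        unfold allow at hal
        simpa using hal
      have hYY : eqv Y Y₀ := hYX.trans hX
      rcases lt_trichotomy (gm k) m with h2 | h2 | h2
      · exact absurd hYY (hmin _ h2 Y hDY)
      · rw [h2] at hDY hU
        rw [huniq m Y Y₀ hDY hD hYY] at hU
        exact hU
      · exact hU.trans (ih (gm k) h2 hal' Y hYY)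
  have pos : ∀ a, m + 1 < a → ∀ X : ℕ → Bool, eqv X Y₀ → eqv (U r a X) (U r (m + 1) Y₀) := by
    intro a
    induction a using Nat.strong_induction_on with
    | _ a ih =>
      intro ha
      refine step a (Or.inr ha) fun m' h1 h2 => ?_
      rcases h2 with h2 | h2
      · omega
      · exact ih (m' + 1) h2 (by omega)
  exact step 0 (Or.inl rfl) fun m' h1 _ => pos (m' + 1) (by omega)

end

/-- the final operator -/
theorem exists_R (r : Code) : ∃ R : Code, ∀ X : ℕ → Bool, ch (W R X) = U r 0 X := by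
  have m2 : Computable (fun n : ℕ => n % 2) :=
    (Primrec.nat_mod.comp Primrec.id (Primrec.const 2)).to_comp
  have d2 : Computable (fun n : ℕ => n / 2) :=
    (Primrec.nat_div.comp Primrec.id (Primrec.const 2)).to_comp
  have h1 : Computable fun q : ℕ × Str => decide (q.1 % 2 = 0) :=
    c_deq (m2.comp Computable.fst) (Computable.const 0)
  have h2 : Computable fun q : ℕ × Str => q.2.getD (q.1 / 2) false :=
    c_getD Computable.snd (d2.comp Computable.fst)
  have h3 : Computable fun q : ℕ × Str => hst r q.2 (Nat.pair 0 (q.1 / 2)) :=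
    c_hst (Computable.const r) Computable.snd
      (RE.cnatpair (Computable.const 0) (d2.comp Computable.fst))
  obtain ⟨R, hR⟩ := w_of_fun (RE.ccond h1 h2 h3)
  obtain ⟨m1, -, -, -⟩ := N2 N1
  refine ⟨R, fun X => funext fun n => ?_⟩
  rw [Bool.eq_iff_iff, ch_true, hR]
  unfold U
  by_cases hn : n % 2 = 0
  · have e : n = 2 * (n / 2) := by omega
    conv_rhs => rw [e, jn_even]
    simp only [hn, decide_true, cond_true]
    constructor
    · rintro ⟨s, hs⟩
      by_cases hs' : n / 2 < s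
      · rw [seg_getD X s _ hs'] at hs
        exact hs
      · rw [List.getD_eq_getElem?_getD, seg_get, if_neg hs'] at hs
        cases hs
    · intro h
      refine ⟨n / 2 + 1, ?_⟩
      rw [seg_getD X _ _ (by omega)]
      exact h
  · have e : n = 2 * (n / 2) + 1 := by omega
    conv_rhs => rw [e, jn_odd, ch_true]
    simp only [hn, decide_false, cond_false]
    unfold V
    rw [m1]

/-- the theorem on partial transversals -/
theorem transversals (p : Code) (C : ℕ → (ℕ → Bool) → Prop)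
    (hC : ∀ n Y, C n Y ↔ ∃ b, ∀ a, W p Y (encode ((n, b, a) : ℕ × ℕ × ℕ)))
    (huniq : ∀ n Y Z, C n Y → C n Z → le Y Z → le Z Y → Y = Z) :
    ∃ R : Code, (∀ X : ℕ → Bool, le X (ch (W R X)) ∧ ¬ le (ch (W R X)) X ∧
        le (ch (J (ch (W R X)))) (ch (J X))) ∧
      ∀ n D, C n D → ∀ X Y : ℕ → Bool, le X D → le D X → le X Y → le Y X →
        le (ch (W R X)) (ch (W R Y)) ∧ le (ch (W R Y)) (ch (W R X)) := by
  classical
  obtain ⟨r, hr⟩ := exists_r p
  obtain ⟨R, hR⟩ := exists_R r
  refine ⟨R, fun X => ?_, fun n E hE X Y h1 h2 h3 h4 => ?_⟩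
  · rw [hR X]
    obtain ⟨g1, g2⟩ := solves hr 0 X
    exact ⟨le_jn_left _ _, g2, g1⟩
  · have hDC : ∀ m Z, D p m Z → C m.unpair.1 Z := by
      intro m Z hZ
      exact (hC _ _).2 ⟨m.unpair.2, hZ⟩
    have hu : ∀ m Y Z, D p m Y → D p m Z → eqv Y Z → Y = Z := fun m Y Z hY hZ hYZ =>
      huniq _ Y Z (hDC m Y hY) (hDC m Z hZ) hYZ.1 hYZ.2
    have hex : ∃ m, ∃ Z, D p m Z ∧ eqv Z X := by
      obtain ⟨b, hb⟩ := (hC _ _).1 hE
      refine ⟨Nat.pair n b, E, ?_, ⟨h2, h1⟩⟩
      intro i
      unfold cf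
      rw [Nat.unpair_pair]
      exact hb i
    obtain ⟨Z, hZ, hZX⟩ := Nat.find_spec hex
    have hmin := fun j hj => Nat.find_min hex (m := j) hj
    generalize Nat.find hex = m at hZ hmin
    have key := invar hr hu hZ (fun m' hm' Z' hZ' hZZ => hmin m' hm' ⟨Z', hZ', hZZ.trans hZX⟩)
    have e1 := key X hZX.symm
    have e2 := key Y (eqv.trans ⟨h4, h3⟩ hZX.symm)
    have e3 := e1.trans e2.symm
    rw [hR X, hR Y]
    exact e3

end Pool.Agent.K9h58.PT
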