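import Pool.Agent.K9h58.PT.Core

/-!
The patching construction: preservation, bounded restraint, limits.
-/

set_option autoImplicit false

namespace Pool.Agent.K9h58.PT

open Nat.Partrec (Code)
open Encodable
open Pool.Agent.H639.LU Pool.Agent.H869R3.FN Pool.Agent.R616.DI Pool.Agent.Y579.PP
open Pool.Agent.Helper446.Defs Pool.Agent.Helper446.Oracle

variable {l : ℕ → Str → ℕ} {B : ℕ → Str → ℕ → Bool} {X : ℕ → Bool}

theorem jt_len (t : ℕ) : (jt l B X t).length = t := by
  unfold jt
  rw [js_length, seg_len]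

theorem js_get (L : List ℕ) (σ : Str) (i : ℕ) (hi : i < σ.length) :
    (js L σ)[i]? = some (if i % 2 = 0 then σ.getD (i / 2) false else decide (i / 2 ∈ L)) := by
  unfold js
  rw [List.getElem?_map, List.getElem?_range hi]
  rfl

theorem jt_get (t i : ℕ) (hi : i < t) : (jt l B X t)[i]? =
    some (if i % 2 = 0 then X (i / 2) else decide (i / 2 ∈ (st l B (seg X t)).1)) := by
  unfold jt
  rw [js_get _ _ _ (by rw [seg_len]; exact hi)]
  by_cases h : i % 2 = 0
  · rw [if_pos h, if_pos h, seg_getD X t (i / 2) (by omega)]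
  · rw [if_neg h, if_neg h]

/-- no new small elements: the initial segment of the join does not change -/
theorem jt_take_succ {t u : ℕ} (hu : u ≤ t)
    (h : ∀ c, 2 * c + 1 < u → c ∈ (st l B (seg X (t + 1))).1 → c ∈ (st l B (seg X t)).1) :
    (jt l B X (t + 1)).take u = (jt l B X t).take u := by
  apply List.ext_getElem?
  intro i
  rw [List.getElem?_take, List.getElem?_take]
  by_cases hi : i < u
  · rw [if_pos hi, if_pos hi, jt_get _ _ (by omega), jt_get _ _ (by omega)]
    by_cases h2 : i % 2 = 0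
    · rw [if_pos h2, if_pos h2]
    · rw [if_neg h2, if_neg h2]
      congr 1
      rw [decide_eq_decide]
      exact ⟨h (i / 2) (by omega), W_mono (Nat.le_succ t)⟩
  · rw [if_neg hi, if_neg hi]

/-- the limit of the initial segments of the join -/
theorem jt_lim (u : ℕ) : ∃ t₀, ∀ t ≥ t₀,
    (jt l B X t).take u = seg (jn 0 X (ch (WX l B X))) u := by
  classical
  induction u with
  | zero => exact ⟨0, fun t _ => by simp [seg]⟩
  | succ u ih =>
    obtain ⟨t₀, h0⟩ := ih
    obtain ⟨t₁, h1⟩ : ∃ t₁, ∀ t ≥ t₁, (u / 2 ∈ (st l B (seg X t)).1 ↔ WX l B X (u / 2)) := by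
      by_cases hW : WX l B X (u / 2)
      · obtain ⟨s, hs⟩ := id hW
        exact ⟨s, fun t ht => ⟨fun _ => hW, fun _ => W_mono ht hs⟩⟩
      · exact ⟨0, fun t _ => ⟨fun h => absurd ⟨t, h⟩ hW, fun h => absurd h hW⟩⟩
    refine ⟨max (max t₀ t₁) (u + 1), fun t ht => ?_⟩
    have ht0 : t₀ ≤ t := le_trans (le_trans (le_max_left _ _) (le_max_left _ _)) ht
    have ht1 : t₁ ≤ t := le_trans (le_trans (le_max_right _ _) (le_max_left _ _)) ht
    have ht2 : u + 1 ≤ t := le_trans (le_max_right _ _) ht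
    rw [List.take_add_one, h0 t ht0, G2_seg_succ, jt_get _ _ (by omega)]
    congr 1
    by_cases h2 : u % 2 = 0
    · rw [if_pos h2]
      have : u = 2 * (u / 2) := by omega
      conv_rhs => rw [this, jn_even]
      rfl
    · rw [if_neg h2]
      have : u = 2 * (u / 2) + 1 := by omega
      conv_rhs => rw [this, jn_odd]
      have h3 := h1 t ht1
      simp only [Option.toList_some, List.cons.injEq, and_true]
      unfold ch
      rw [decide_eq_decide]
      exact h3

/-- the requirement `e` is preserved from stage `t₀` on -/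
def Pres (l : ℕ → Str → ℕ) (B : ℕ → Str → ℕ → Bool) (X : ℕ → Bool) (t₀ e : ℕ) : Prop :=
  ∀ t ≥ t₀, ∀ c ∈ (st l B (seg X (t + 1))).1, c ∉ (st l B (seg X t)).1 →
      okk (jt l B X t) e c = true

theorem preserve {t₀ t₁ e : ℕ} (h : Pres l B X t₀ e) (ht : t₀ ≤ t₁)
    (hk : kst (jt l B X t₁) e = true) : ∃ u ≤ t₁, kst ((jt l B X t₁).take u) e = true ∧
      ∀ t ≥ t₁, (jt l B X t).take u = (jt l B X t₁).take u := by
  classical
  obtain ⟨-, -, -, m4⟩ := N2 N1
  have hex : ∃ u, kst ((jt l B X t₁).take u) e = true :=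
    ⟨t₁, by rw [List.take_of_length_le (by rw [jt_len])]; exact hk⟩
  have hu := Nat.find_spec hex
  have hmin : ∀ {m}, m < Nat.find hex → ¬ kst ((jt l B X t₁).take m) e = true :=
    fun hm => Nat.find_min hex hm
  have hle : Nat.find hex ≤ t₁ := Nat.find_min' hex
    (by rw [List.take_of_length_le (by rw [jt_len])]; exact hk)
  refine ⟨Nat.find hex, hle, hu, fun t ht' => ?_⟩
  generalize Nat.find hex = u at hu hmin hle
  induction t, ht' using Nat.le_induction with
  | base => rfl
  | succ t ht' ih =>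
    rw [← ih]
    refine jt_take_succ (by omega) fun c hc hc1 => ?_
    by_contra hcon
    have h1 := h t (by omega) c hc1 hcon
    unfold okk at h1
    have h2 : kst (jt l B X t) e = true :=
      m4 _ _ _ (List.take_prefix u _) (by rw [ih]; exact hu)
    rw [h2] at h1
    simp only [Bool.not_true, Bool.false_or] at h1
    have h3 : (jt l B X t).take (2 * c + 1) = (jt l B X t₁).take (2 * c + 1) := by
      have e1 : ((jt l B X t).take u).take (2 * c + 1) = (jt l B X t).take (2 * c + 1) := by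
        rw [List.take_take, min_eq_left (by omega)]
      have e2 : ((jt l B X t₁).take u).take (2 * c + 1) = (jt l B X t₁).take (2 * c + 1) := by
        rw [List.take_take, min_eq_left (by omega)]
      rw [← e1, ← e2, ih]
    rw [h3] at h1
    exact hmin hc h1

/-- bounded restraint -/
theorem restraint {t₀ e : ℕ} (h : Pres l B X t₀ e) :
    ∃ R, ∀ c ≥ R, ∀ t, okk (jt l B X t) e c = true := by
  obtain ⟨-, -, -, m4⟩ := N2 N1
  have hsmall : ∀ c t, t ≤ c → okk (jt l B X t) e c = true := by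
    intro c t htc
    unfold okk
    rw [List.take_of_length_le (by rw [jt_len]; omega)]
    cases kst (jt l B X t) e <;> rfl
  by_cases hex : ∃ t₁ ≥ t₀, kst (jt l B X t₁) e = true
  · obtain ⟨t₁, h1, h2⟩ := hex
    obtain ⟨u, hu, h3, h4⟩ := preserve h h1 h2
    refine ⟨t₁, fun c hc t => ?_⟩
    by_cases ht : t₁ ≤ t
    · unfold okk
      have h5 : kst ((jt l B X t).take (2 * c + 1)) e = true := by
        refine m4 ((jt l B X t).take u) _ _ ?_ (by rw [h4 t ht]; exact h3)
        exact List.take_prefix_take_left (by omega)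
      rw [h5]
      simp
    · exact hsmall c t (by omega)
  · push Not at hex
    refine ⟨t₀, fun c hc t => ?_⟩
    by_cases ht : t₀ ≤ t
    · unfold okk
      have := hex t ht
      rw [Bool.eq_false_iff.2 this]
      rfl
    · exact hsmall c t (by omega)

theorem restraints {k : ℕ} (h : ∀ e < k, ∃ t₀, Pres l B X t₀ e) :
    ∃ R, ∀ c ≥ R, ∀ t, okl (jt l B X t) k c = true := by
  induction k with
  | zero => exact ⟨0, fun c _ t => okl_iff.2 fun e he => by omega⟩
  | succ k ih =>
    obtain ⟨R, hR⟩ := ih fun e he => h e (by omega)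
    obtain ⟨t₀, h0⟩ := h k (by omega)
    obtain ⟨R', hR'⟩ := restraint h0
    refine ⟨max R R', fun c hc t => okl_iff.2 fun e he => ?_⟩
    by_cases hek : e = k
    · subst hek
      exact hR' c (le_trans (le_max_right _ _) hc) t
    · exact okl_iff.1 (hR c (le_trans (le_max_left _ _) hc) t) e (by omega)

theorem jump_fwd (e : ℕ) (h : J (jn 0 X (ch (WX l B X))) e) :
    ∃ t₀, ∀ t ≥ t₀, kst (jt l B X t) e = true := by
  obtain ⟨-, -, m3, m4⟩ := N2 N1
  obtain ⟨u, hu⟩ := (m3 _ _).1 h
  obtain ⟨t₀, h0⟩ := jt_lim (l := l) (B := B) (X := X) u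
  exact ⟨t₀, fun t ht => m4 _ _ _ (List.take_prefix u _) (by rw [h0 t ht]; exact hu)⟩

theorem jump_bwd {t₀ e : ℕ} (h : Pres l B X t₀ e) (hk : ∃ t ≥ t₀, kst (jt l B X t) e = true) :
    J (jn 0 X (ch (WX l B X))) e := by
  obtain ⟨-, -, m3, m4⟩ := N2 N1
  obtain ⟨t₁, h1, h2⟩ := hk
  obtain ⟨u, hu, h3, h4⟩ := preserve h h1 h2
  obtain ⟨t₂, h5⟩ := jt_lim (l := l) (B := B) (X := X) u
  refine (m3 _ _).2 ⟨u, ?_⟩
  rw [← h5 (max t₁ t₂) (le_max_right _ _), h4 _ (le_max_left _ _)]
  exact h3

end Pool.Agent.K9h58.PT
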