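import Pool.Agent.K9h58.PT.Lim
import Pool.Agent.K9h58.PT.Comp

/-!
The patching construction: the case that no guess is true.
-/

set_option autoImplicit false

namespace Pool.Agent.K9h58.PT

open Nat.Partrec (Code)
open Encodable
open Pool.Agent.H639.LU Pool.Agent.H869R3.FN Pool.Agent.R616.DI Pool.Agent.Y579.PP
open Pool.Agent.Helper446.Defs Pool.Agent.Helper446.Oracle Pool.Agent.Helper446

/-- enumerable by initial segments -/
theorem re_seg {α : Type} [Primcodable α] (X : ℕ → Bool) {f : α × Str → Bool}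
    (hf : Computable f) : REIn (St X) (fun a => ∃ t, f (a, seg X t) = true) :=
  (K2 α X _).2 ⟨fun a σ => f (a, σ) = true, RE.of_bool hf, fun _ => Iff.rfl⟩

theorem re_jump {α : Type} [Primcodable α] {X : ℕ → Bool} {S : α → Prop}
    (h : REIn (St X) S) : ∃ f : α → ℕ, Computable f ∧ ∀ a, S a ↔ f a ∈ St (ch (J X)) := by
  have h1 : REIn (St X) (fun n : ℕ => ∃ a : α, encode a = n ∧ S a) := by
    refine REIn.ex (S := fun (n : ℕ) (a : α) => encode a = n ∧ S a) (REIn.and ?_ ?_)
    · exact REIn.of_re (RE.eq (by fun_prop) (by fun_prop))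
    · exact h.comp Computable.snd
  obtain ⟨e, he⟩ := K10 X _ h1
  refine ⟨fun a => Nat.pair (encode e) (encode a), by fun_prop, fun a => ?_⟩
  show S a ↔ ch (J X) _ = true
  rw [ch_true]
  unfold J
  rw [Nat.unpair_pair]
  simp only [Denumerable.ofNat_encode]
  rw [← he]
  constructor
  · intro ha
    exact ⟨a, rfl, ha⟩
  · rintro ⟨b, hb, hS⟩
    rwa [← encode_injective hb]

theorem re_pos {α : Type} [Primcodable α] {X : ℕ → Bool} {S : α → Prop}
    (h : REIn (St X) S) : REIn (St (ch (J X))) S := by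
  obtain ⟨f, hf, h1⟩ := re_jump h
  exact (REIn.mem hf).of_eq fun a => (h1 a).symm

theorem re_neg {α : Type} [Primcodable α] {X : ℕ → Bool} {S : α → Prop}
    (h : REIn (St X) S) : REIn (St (ch (J X))) (fun a => ¬ S a) := by
  obtain ⟨f, hf, h1⟩ := re_jump h
  exact (REIn.not_mem hf).of_eq fun a => (not_congr (h1 a)).symm

/-- limits: eventually always -/
theorem re_ev {X : ℕ → Bool} {g : ℕ × Str → Bool} (hg : Computable g) :
    REIn (St (ch (J X))) (fun e => ∃ t₀, ∀ t ≥ t₀, g (e, seg X t) = true) := by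
  have h1 : REIn (St X) (fun p : ℕ × ℕ =>
      ∃ t, (decide (p.2 < t + 1) && !(g (p.1, seg X t))) = true) := by
    have h2 : Computable (fun q : (ℕ × ℕ) × Str =>
        decide (q.1.2 < q.2.length + 1) && !(g (q.1.1, q.2))) := by
      have h3 : Computable (fun q : (ℕ × ℕ) × Str => decide (q.1.2 < q.2.length + 1)) :=
        c_dlt (by fun_prop) (by fun_prop)
      have h4 : Computable (fun q : (ℕ × ℕ) × Str => g (q.1.1, q.2)) :=
        hg.comp (g := fun q : (ℕ × ℕ) × Str => (q.1.1, q.2)) (by fun_prop)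
      exact RE.cand h3 (RE.cnot h4)
    refine (re_seg X h2).of_eq fun p => ?_
    simp only [seg_len]
  have h2 := re_neg h1
  refine (REIn.ex (S := fun e t₀ => ¬ ∃ t, (decide (t₀ < t + 1) && !(g (e, seg X t))) = true)
    h2).of_eq fun e => ?_
  simp only [Bool.and_eq_true, decide_eq_true_eq, Bool.not_eq_true', not_exists, not_and,
    Bool.not_eq_false]
  constructor
  · rintro ⟨t₀, h⟩
    exact ⟨t₀, fun t ht => h t (by omega)⟩
  · rintro ⟨t₀, h⟩
    exact ⟨t₀, fun t ht => h t (by omega)⟩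

/-- no set computes its jump -/
theorem not_jump (X : ℕ → Bool) : ¬ le (ch (J X)) X := by
  intro h
  obtain ⟨-, h2⟩ := (turingReducible_iff (A := St X) (B := St (ch (J X)))).1 h
  have h3 : REIn (St X) (fun n : ℕ => ¬ J X (Nat.pair n n)) := by
    refine (h2.comp (f := fun n : ℕ => Nat.pair n n) (by fun_prop)).of_eq fun n => ?_
    show ¬ (ch (J X) _ = true) ↔ _
    rw [ch_true]
  obtain ⟨e, he⟩ := K10 X _ h3
  have h4 := he (encode e)
  unfold J at h4
  rw [Nat.unpair_pair] at h4
  simp only [Denumerable.ofNat_encode] at h4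
  tauto

variable {l : ℕ → Str → ℕ} {B : ℕ → Str → ℕ → Bool} {X : ℕ → Bool}

/-- no guess is true: the operator is low -/
theorem low_jump (hc : Computable (st l B)) (hP : ∀ e, ∃ t₀, Pres l B X t₀ e) :
    le (ch (J (jn 0 X (ch (WX l B X))))) (ch (J X)) := by
  have hj : Computable (fun p : ℕ × Str => kst (js (st l B p.2).1 p.2) p.1) := by
    have h1 : Computable (fun p : ℕ × Str => st l B p.2) := hc.comp Computable.snd
    exact c_kst (c_js (RE.cfst h1) Computable.snd) Computable.fst
  refine K5 K2 |>.2.2.1 _ _ ?_ ?_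
  · refine (re_ev hj).of_eq fun e => ?_
    constructor
    · rintro ⟨t₀, h⟩
      obtain ⟨t₁, h1⟩ := hP e
      exact jump_bwd h1 ⟨max t₀ t₁, le_max_right _ _, h _ (le_max_left _ _)⟩
    · intro h
      exact jump_fwd e h
  · refine (re_ev (RE.cnot hj)).of_eq fun e => ?_
    constructor
    · rintro ⟨t₀, h⟩ hJ
      obtain ⟨t₁, h1⟩ := jump_fwd e hJ
      have h2 := h (max t₀ t₁) (le_max_left _ _)
      have h3 := h1 (max t₀ t₁) (le_max_right _ _)
      change (!(kst (jt l B X (max t₀ t₁)) e)) = true at h2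
      rw [h3] at h2
      cases h2
    · intro h
      by_contra hcon
      push Not at hcon
      obtain ⟨t₁, h1⟩ := hP e
      obtain ⟨t, ht, h2⟩ := hcon t₁
      refine h (jump_bwd h1 ⟨t, ht, ?_⟩)
      change (!(kst (jt l B X t) e)) ≠ true at h2
      cases h3 : kst (jt l B X t) e
      · rw [h3] at h2
        exact absurd rfl h2
      · rfl

/-- no guess is true: the operator is not computable -/
theorem low_diag (hl : ∀ (k : ℕ) (σ τ : Str), σ <+: τ → l k σ ≤ l k τ)
    (hB : ∀ k, Bdd l X k) (hP : ∀ e, ∃ t₀, Pres l B X t₀ e) : ¬ le (ch (WX l B X)) X := by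
  intro hle
  obtain ⟨c₀, hc₀⟩ := (le_iff _ _).1 hle
  obtain ⟨n1, n2, n3⟩ := N1
  obtain ⟨t₁, h1⟩ := ver_stable (X := X) (k := encode c₀ + 1) hl fun j _ => hB j
  obtain ⟨R, hR⟩ := restraints (l := l) (B := B) (X := X) (k := encode c₀ + 1) fun e _ => hP e
  set v := ver l (encode c₀ + 1) (seg X t₁) with hv
  by_cases hex : ∃ t, ∃ d ∈ (st l B (seg X t)).1, mt d = 1 ∧ mi d = encode c₀ ∧ mv d = v
  · obtain ⟨t, d, hd, h2, h3, h4⟩ := hex
    have key : ∀ t, d ∈ (st l B (seg X t)).1 → ∃ s, nxtv c₀ (seg X s) d = some 0 := by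
      intro t
      induction t with
      | zero => intro h; rw [st_zero] at h; simp at h
      | succ t ih =>
        intro h
        rcases mem_W.1 h with h5 | ⟨h5, -⟩ | ⟨h5, -⟩
        · exact ih h5
        · have := h5.2.1
          omega
        · refine ⟨t + 1, ?_⟩
          have h6 := h5.2.2.2.1
          rw [h3] at h6
          simpa using h6
    have h5 := (red_nxtv hc₀ d 0).1 (key t hd)
    have h6 : ch (WX l B X) d = true := ch_true.2 ⟨t, hd⟩
    rw [h6] at h5
    cases h5
  · push Not at hex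
    set c := mk 1 (encode c₀) v R with hc
    have hcW : ¬ WX l B X c := by
      rintro ⟨t, ht⟩
      exact hex t c ht (by simp [hc]) (by simp [hc]) (by simp [hc])
    have h2 : ch (WX l B X) c = false := by
      rw [Bool.eq_false_iff]
      intro h
      exact hcW (ch_true.1 h)
    obtain ⟨s, hs⟩ := (red_nxtv hc₀ c 0).2 (by rw [h2]; rfl)
    set t := max (max s t₁) c with ht
    have hts : s ≤ t := le_trans (le_max_left _ _) (le_max_left _ _)
    have htt : t₁ ≤ t := le_trans (le_max_right _ _) (le_max_left _ _)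
    have htc : c ≤ t := le_max_right _ _
    apply hcW
    refine ⟨t + 1, mem_W.2 (Or.inr (Or.inr ⟨⟨by omega, by simp [hc], ?_, ?_, ?_⟩, ?_⟩))⟩
    · rw [show mv c = v by simp [hc], show mi c = encode c₀ by simp [hc], h1 (t + 1) (by omega)]
    · rw [show mi c = encode c₀ by simp [hc]]
      simp only [Denumerable.ofNat_encode]
      have h3 : (nxtv c₀ (seg X (t + 1)) c).isSome = true := by
        refine n1 c₀ _ _ c (G2_seg_le X (by omega : s ≤ t + 1)) ?_
        rw [hs]
        rfl
      obtain ⟨w, hw⟩ := Option.isSome_iff_exists.1 h3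
      have h4 := (red_nxtv hc₀ c w).1 ⟨_, hw⟩
      rw [h2] at h4
      rw [hw, h4]
      rfl
    · intro d hd h5
      refine hex t d hd h5.1 ?_ ?_
      · rw [h5.2.1]
        simp [hc]
      · rw [h5.2.2]
        simp [hc]
    · rw [show mi c = encode c₀ by simp [hc]]
      exact hR c (by rw [hc]; exact le_mk _ _ _ _) t

theorem low_case (hc : Computable (st l B))
    (hl : ∀ (k : ℕ) (σ τ : Str), σ <+: τ → l k σ ≤ l k τ) (hB : ∀ k, Bdd l X k) :
    le (ch (J (jn 0 X (ch (WX l B X))))) (ch (J X)) ∧ ¬ le (ch (WX l B X)) X := by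
  have hP : ∀ e, ∃ t₀, Pres l B X t₀ e := fun e => settle hl fun j _ => hB j
  exact ⟨low_jump hc hP, low_diag hl hB hP⟩

end Pool.Agent.K9h58.PT
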