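import Pool.Agent.K9h58.PT.AE2

/-!
A Posner-Robinson construction inside the class of all `X` for which two given programs translate
between `W_r^(X ⊕ Z)` and `(X ⊕ Z) ⊕ A`: definitions and computability.
-/

set_option autoImplicit false

namespace Pool.Agent.K9h58.PT.Mg

open Nat.Partrec (Code)
open Encodable
open Pool.Agent.H639.LU Pool.Agent.H869R3.FN Pool.Agent.R616.DI Pool.Agent.Y579.PP
open Pool.Agent.Helper446.Defs Pool.Agent.Helper446.Oracle Pool.Agent.Helper446

theorem re_at {α : Type} [Primcodable α] (X : ℕ → Bool) {f : α × Str → Bool} {l : α → ℕ}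
    (hf : Computable f) (hl : Computable l) :
    REIn (St X) (fun a => f (a, seg X (l a)) = true) := by
  have h1 : Computable fun p : α × Str => decide (p.2.length = l p.1) && f p :=
    RE.cand (c_deq (by fun_prop) (hl.comp Computable.fst)) hf
  refine (re_seg X h1).of_eq fun a => ?_
  constructor
  · rintro ⟨t, ht⟩
    simp only [Bool.and_eq_true, decide_eq_true_eq, seg_len] at ht
    obtain ⟨rfl, h⟩ := ht
    exact h
  · intro h
    exact ⟨l a, by simp [seg_len, h]⟩

/-- the visible part of `W_r` -/
def nu (r : Code) (δ : Str) (l : ℕ) : Str := (List.range l).map fun n => hst r δ n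

/-- the visible part is verified -/
def vr (r j : Code) (δ α : Str) (l : ℕ) : Bool :=
  (List.range l).all fun n => hst r δ n || !((dec j (js2 δ α)).getD n true)

/-- a verified part of `W_r` decides the number `m` -/
def gd (r i j : Code) (m : ℕ) (δ α : Str) : Bool :=
  !((List.range (δ.length + 1)).all fun l =>
    !(decide (m < l + 1) && (decide (m < (dec i (nu r δ l)).length) && vr r j δ α l)))

/-- the string `σ 0ᵏ 1` -/
def ext (σ : Str) (k : ℕ) : Str := σ ++ ((List.range k).map (fun _ => false) ++ [true])

/-- the conditions on the next string -/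
def P (r i j : Code) (Z A : ℕ → Bool) (s : Bool) (x : (ℕ × Str) × (ℕ × Str)) : Prop :=
  ext x.1.2 x.2.1 <+: x.2.2 ∧
    ((s ^^ A x.2.1) = false → kst (js2 x.2.2 (seg Z x.2.2.length)) x.1.1 = true) ∧
    gd r i j x.1.1 (js2 x.2.2 (seg Z x.2.2.length)) (seg A x.2.2.length) = true

def fb (r i j : Code) (s : Bool) (y : ((ℕ × Str) × (ℕ × Str)) × Str) : Bool :=
  decide (y.1.2.2.take (ext y.1.1.2 y.1.2.1).length = ext y.1.1.2 y.1.2.1) &&
    (((s ^^ y.2.getD (2 * y.1.2.1 + 1) false) ||
      kst (js2 y.1.2.2 (sub 4 2 y.1.2.2.length y.2)) y.1.1.1) &&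
    gd r i j y.1.1.1 (js2 y.1.2.2 (sub 4 2 y.1.2.2.length y.2)) (sub 2 1 y.1.2.2.length y.2))

theorem js2_len (σ υ : Str) : (js2 σ υ).length = σ.length := by simp [js2]

section comp

variable {α : Type*} [Primcodable α]

theorem c_nu (r : Code) {δ : α → Str} {l : α → ℕ} (hδ : Computable δ) (hl : Computable l) :
    Computable fun a => nu r (δ a) (l a) := by
  unfold nu
  refine c_map (f := fun (a : α) n => hst r (δ a) n) ?_ (c_range hl)
  exact c_hst (Computable.const r) (hδ.comp Computable.fst) Computable.snd

theorem c_getT {L : α → List Bool} {n : α → ℕ} (hL : Computable L) (hn : Computable n) :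
    Computable fun a => (L a).getD (n a) true :=
  ((Primrec.list_getD true).to_comp).comp hL hn

theorem c_sub (a b : ℕ) {k : α → ℕ} {ζ : α → Str} (hk : Computable k) (hζ : Computable ζ) :
    Computable fun x => sub a b (k x) (ζ x) := by
  unfold sub
  refine c_map (f := fun (x : α) i => (ζ x).getD (a * i + b) false) ?_ (c_range hk)
  exact c_getD (hζ.comp Computable.fst) (by fun_prop)

theorem c_vr (r j : Code) {δ υ : α → Str} {l : α → ℕ} (hδ : Computable δ) (hυ : Computable υ)
    (hl : Computable l) : Computable fun a => vr r j (δ a) (υ a) (l a) := by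
  unfold vr
  refine c_all (f := fun (a : α) n => hst r (δ a) n || !((dec j (js2 (δ a) (υ a))).getD n true))
    ?_ (c_range hl)
  refine RE.cor (c_hst (Computable.const r) (hδ.comp Computable.fst) Computable.snd)
    (RE.cnot (c_getT ?_ Computable.snd))
  exact c_dec (Computable.const j) (c_js2 (hδ.comp Computable.fst) (hυ.comp Computable.fst))

theorem c_gd (r i j : Code) {m : α → ℕ} {δ υ : α → Str} (hm : Computable m) (hδ : Computable δ)
    (hυ : Computable υ) : Computable fun a => gd r i j (m a) (δ a) (υ a) := by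
  unfold gd
  refine RE.cnot (c_all (f := fun (a : α) l => !(decide (m a < l + 1) &&
    (decide (m a < (dec i (nu r (δ a) l)).length) && vr r j (δ a) (υ a) l))) ?_
    (c_range (by fun_prop)))
  have e1 : Computable fun p : α × ℕ => m p.1 := hm.comp Computable.fst
  have e2 : Computable fun p : α × ℕ => δ p.1 := hδ.comp Computable.fst
  have e3 : Computable fun p : α × ℕ => υ p.1 := hυ.comp Computable.fst
  have e4 : Computable fun p : α × ℕ => (dec i (nu r (δ p.1) p.2)).length :=
    Computable.list_length.comp (c_dec (Computable.const i) (c_nu r e2 Computable.snd))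
  exact RE.cnot (RE.cand (c_dlt e1 (by fun_prop)) (RE.cand (c_dlt e1 e4)
    (c_vr r j e2 e3 Computable.snd)))

theorem c_ext {σ : α → Str} {k : α → ℕ} (hσ : Computable σ) (hk : Computable k) :
    Computable fun a => ext (σ a) (k a) := by
  unfold ext
  have h1 : Computable fun a => (List.range (k a)).map (fun _ => false) :=
    c_map (f := fun (_ : α) (_ : ℕ) => false) (Computable.const _) (c_range hk)
  fun_prop

end comp

theorem c_fb (r i j : Code) (s : Bool) : Computable (fb r i j s) := by
  unfold fb
  have e1 : Computable fun y : ((ℕ × Str) × (ℕ × Str)) × Str => ext y.1.1.2 y.1.2.1 :=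
    c_ext (by fun_prop) (by fun_prop)
  have e2 : Computable fun y : ((ℕ × Str) × (ℕ × Str)) × Str =>
      js2 y.1.2.2 (sub 4 2 y.1.2.2.length y.2) :=
    c_js2 (by fun_prop) (c_sub 4 2 (by fun_prop) (by fun_prop))
  refine RE.cand (RE.cdecide (RE.cp_eq (c_take (by fun_prop) (by fun_prop)) e1)) (RE.cand
    (RE.cor ?_ (c_kst e2 (by fun_prop))) (c_gd r i j (by fun_prop) e2
      (c_sub 2 1 (by fun_prop) (by fun_prop))))
  have e3 : Computable fun y : ((ℕ × Str) × (ℕ × Str)) × Str =>
      y.2.getD (2 * y.1.2.1 + 1) false := c_getD (by fun_prop) (by fun_prop)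
  cases s
  · simpa using e3
  · simpa using RE.cnot e3

end Pool.Agent.K9h58.PT.Mg
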