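import Pool.Agent.K9h58.PT.Mg1

/-!
A Posner-Robinson construction inside the class of all `X` for which two given programs translate
between `W_r^(X ⊕ Z)` and `(X ⊕ Z) ⊕ A`: the decoding.
-/

set_option autoImplicit false

namespace Pool.Agent.K9h58.PT.Mg

open Nat.Partrec (Code)
open Encodable
open Pool.Agent.H639.LU Pool.Agent.H869R3.FN Pool.Agent.R616.DI Pool.Agent.Y579.PP
open Pool.Agent.Helper446.Defs Pool.Agent.Helper446.Oracle Pool.Agent.Helper446

variable (r i j : Code) (X Z A : ℕ → Bool) (s : Bool)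

theorem sub42 (t : ℕ) (m : ℕ) (h : 4 * t ≤ m) :
    sub 4 2 t (seg (jn 0 (jn 0 X Z) A) m) = seg Z t := by
  refine sub_seg 4 2 t m _ _ (fun i hi => by omega) fun i => ?_
  rw [show 4 * i + 2 = 2 * (2 * i + 1) by ring, jn_even, jn_odd]

theorem sub40 (t : ℕ) (m : ℕ) (h : 4 * t ≤ m) :
    sub 4 0 t (seg (jn 0 (jn 0 X Z) A) m) = seg X t := by
  refine sub_seg 4 0 t m _ _ (fun i hi => by omega) fun i => ?_
  rw [show 4 * i + 0 = 2 * (2 * i) by ring, jn_even, jn_even]

theorem sub21 (t : ℕ) (m : ℕ) (h : 4 * t ≤ m) :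
    sub 2 1 t (seg (jn 0 (jn 0 X Z) A) m) = seg A t := by
  refine sub_seg 2 1 t m _ _ (fun i hi => by omega) fun i => ?_
  rw [jn_odd]

theorem P_iff (x : (ℕ × Str) × (ℕ × Str)) : P r i j Z A s x ↔
    fb r i j s (x, seg (jn 0 (jn 0 X Z) A) (4 * (x.2.2.length + x.2.1 + 1))) = true := by
  unfold P fb
  simp only
  rw [sub42 X Z A _ _ (by omega), sub21 X Z A _ _ (by omega), seg_getD _ _ _ (by omega), jn_odd]
  rw [List.prefix_iff_eq_take]
  simp only [Bool.and_eq_true, decide_eq_true_eq, Bool.or_eq_true]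
  constructor
  · rintro ⟨h1, h2, h3⟩
    refine ⟨h1.symm, ?_, h3⟩
    by_cases h : (s ^^ A x.2.1) = true
    · exact Or.inl h
    · exact Or.inr (h2 (by simpa using h))
  · rintro ⟨h1, h2, h3⟩
    refine ⟨h1.symm, fun h => ?_, h3⟩
    rcases h2 with h2 | h2
    · rw [h] at h2
      exact absurd h2 (by decide)
    · exact h2

theorem re_P : REIn (St (jn 0 (jn 0 X Z) A)) (P r i j Z A s) := by
  refine (re_at (jn 0 (jn 0 X Z) A) (f := fb r i j s)
    (l := fun x : (ℕ × Str) × (ℕ × Str) => 4 * (x.2.2.length + x.2.1 + 1)) (c_fb r i j s)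
    (by fun_prop)).of_eq fun x => (P_iff r i j X Z A s x).symm

theorem re_nP : REIn (St (jn 0 (jn 0 X Z) A)) (fun x => ¬ P r i j Z A s x) := by
  refine (re_at (jn 0 (jn 0 X Z) A) (f := fun y => !(fb r i j s y))
    (l := fun x : (ℕ × Str) × (ℕ × Str) => 4 * (x.2.2.length + x.2.1 + 1))
    (RE.cnot (c_fb r i j s)) (by fun_prop)).of_eq fun x => ?_
  rw [P_iff r i j X Z A s x]
  simp

/-- the string with the code `c` -/
def un (c : ℕ) : Str := ((decode c : Option Str)).getD []

theorem un_encode (τ : Str) : un (encode τ) = τ := by simp [un]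

/-- the first string with the conditions -/
def F (x : (ℕ × Str) × (ℕ × Str)) : Prop :=
  P r i j Z A s x ∧ ∀ c < encode x.2.2, encode (un c) ≠ c ∨ ¬ P r i j Z A s (x.1, (x.2.1, un c))

theorem c_un : Computable un := by
  unfold un
  exact Computable.option_getD Computable.decode (Computable.const [])

theorem re_F : REIn (St (jn 0 (jn 0 X Z) A)) (F r i j Z A s) := by
  refine REIn.and (re_P r i j X Z A s) (REIn.all_lt
    (S := fun (x : (ℕ × Str) × (ℕ × Str)) c => encode (un c) ≠ c ∨
      ¬ P r i j Z A s (x.1, (x.2.1, un c))) (REIn.or ?_ ?_) ?_)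
  · have h1 : Computable fun y : ((ℕ × Str) × (ℕ × Str)) × ℕ => un y.2 := c_un.comp Computable.snd
    refine REIn.of_re (S := fun y : ((ℕ × Str) × (ℕ × Str)) × ℕ => encode (un y.2) ≠ y.2) ?_
    refine (RE.of_bool (RE.cnot (c_deq (f := fun y : ((ℕ × Str) × (ℕ × Str)) × ℕ =>
      encode (un y.2)) (g := fun y => y.2) (RE.cencode h1) Computable.snd))).of_eq fun y => ?_
    simp
  · have h1 : Computable fun y : ((ℕ × Str) × (ℕ × Str)) × ℕ => un y.2 := c_un.comp Computable.snd
    exact (re_nP r i j X Z A s).comp (f := fun y : ((ℕ × Str) × (ℕ × Str)) × ℕ =>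
      (y.1.1, (y.1.2.1, un y.2))) (by fun_prop)
  · exact RE.cencode (by fun_prop)

theorem F_unique {e k : ℕ} {σ τ τ' : Str} (h : F r i j Z A s ((e, σ), (k, τ)))
    (h' : F r i j Z A s ((e, σ), (k, τ'))) : τ = τ' := by
  have key : ∀ τ τ' : Str, F r i j Z A s ((e, σ), (k, τ)) → F r i j Z A s ((e, σ), (k, τ')) →
      ¬ encode τ < encode τ' := by
    intro τ τ' h h' hlt
    rcases h'.2 (encode τ) hlt with h1 | h1
    · rw [un_encode] at h1
      exact h1 rfl
    · rw [un_encode] at h1
      exact h1 h.1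
  exact encode_injective (le_antisymm (not_lt.1 (key _ _ h' h)) (not_lt.1 (key _ _ h h')))

theorem F_exists {e k : ℕ} {σ τ : Str} (h : P r i j Z A s ((e, σ), (k, τ))) :
    ∃ τ', F r i j Z A s ((e, σ), (k, τ')) := by
  classical
  have h1 : ∃ n, ∃ τ' : Str, encode τ' = n ∧ P r i j Z A s ((e, σ), (k, τ')) := ⟨_, τ, rfl, h⟩
  obtain ⟨τ', h2, h3⟩ := Nat.find_spec h1
  refine ⟨τ', h3, fun c hc => ?_⟩
  by_cases hc' : encode (un c) = c
  · right
    intro h4
    exact Nat.find_min h1 (m := c) (by rw [← h2]; exact hc) ⟨un c, hc', h4⟩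
  · exact Or.inl hc'

/-- `ξ` is an initial segment of `X` -/
def IS (ξ : Str) : Prop := seg X ξ.length = ξ

theorem re_IS : REIn (St (jn 0 (jn 0 X Z) A)) (IS X) := by
  have h1 : Computable fun y : Str × Str => decide (sub 4 0 y.1.length y.2 = y.1) :=
    RE.cdecide (RE.cp_eq (c_sub 4 0 (by fun_prop) (by fun_prop)) Computable.fst)
  refine (re_at (jn 0 (jn 0 X Z) A) (l := fun ξ : Str => 4 * ξ.length) h1
    (by fun_prop)).of_eq fun ξ => ?_
  simp only [decide_eq_true_eq]
  rw [sub40 X Z A _ _ le_rfl]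
  rfl

/-- a step of the construction -/
def Stp (e : ℕ) (σ σ' : Str) : Prop :=
  ∃ k, IS X (ext σ k) ∧ F r i j Z A s ((e, σ), (k, σ'))

/-- the string `σ` is the position at `e` -/
def Pos (ρ : Str) (e : ℕ) (σ : Str) : Prop :=
  ∃ L : List Str, L.getD 0 [] = ρ ∧ (∀ n < e, Stp r i j X Z A s n (L.getD n []) (L.getD (n + 1) []))
    ∧ L.getD e [] = σ

theorem re_Stp : REIn (St (jn 0 (jn 0 X Z) A))
    (fun y : (ℕ × Str) × Str => Stp r i j X Z A s y.1.1 y.1.2 y.2) := by
  refine REIn.ex (S := fun (y : (ℕ × Str) × Str) (k : ℕ) =>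
    IS X (ext y.1.2 k) ∧ F r i j Z A s ((y.1.1, y.1.2), (k, y.2))) (REIn.and ?_ ?_)
  · exact (re_IS X Z A).comp (f := fun y : ((ℕ × Str) × Str) × ℕ => ext y.1.1.2 y.2)
      (c_ext (by fun_prop) (by fun_prop))
  · exact (re_F r i j X Z A s).comp (f := fun y : ((ℕ × Str) × Str) × ℕ =>
      ((y.1.1.1, y.1.1.2), (y.2, y.1.2))) (by fun_prop)

theorem c_getL {α : Type*} [Primcodable α] {L : α → List Str} {n : α → ℕ} (hL : Computable L)
    (hn : Computable n) : Computable fun a => (L a).getD (n a) [] :=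
  ((Primrec.list_getD ([] : Str)).to_comp).comp hL hn

theorem re_Pos (ρ : Str) : REIn (St (jn 0 (jn 0 X Z) A))
    (fun y : ℕ × Str => Pos r i j X Z A s ρ y.1 y.2) := by
  refine REIn.ex (S := fun (y : ℕ × Str) (L : List Str) => L.getD 0 [] = ρ ∧
    (∀ n < y.1, Stp r i j X Z A s n (L.getD n []) (L.getD (n + 1) [])) ∧ L.getD y.1 [] = y.2)
    (REIn.and ?_ (REIn.and ?_ ?_))
  · exact REIn.of_re (RE.eq (c_getL Computable.snd (Computable.const 0)) (Computable.const ρ))
  · refine REIn.all_lt (S := fun (y : (ℕ × Str) × List Str) n =>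
      Stp r i j X Z A s n (y.2.getD n []) (y.2.getD (n + 1) [])) ?_ (by fun_prop)
    have e1 : Computable fun z : ((ℕ × Str) × List Str) × ℕ => z.1.2.getD z.2 [] :=
      c_getL (by fun_prop) (by fun_prop)
    have e2 : Computable fun z : ((ℕ × Str) × List Str) × ℕ => z.1.2.getD (z.2 + 1) [] :=
      c_getL (by fun_prop) (by fun_prop)
    exact (re_Stp r i j X Z A s).comp (f := fun z : ((ℕ × Str) × List Str) × ℕ =>
      ((z.2, z.1.2.getD z.2 []), z.1.2.getD (z.2 + 1) []))
      (RE.cpair (RE.cpair Computable.snd e1) e2)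
  · exact REIn.of_re (RE.eq (c_getL Computable.snd (by fun_prop)) (by fun_prop))

/-- the decoding of the jump -/
theorem decode_jump (ρ : Str) (σ : ℕ → Str) (k : ℕ → ℕ) (h0 : σ 0 = ρ)
    (hk : ∀ e, IS X (ext (σ e) (k e)))
    (hF : ∀ e, F r i j Z A s ((e, σ e), (k e, σ (e + 1))))
    (hJ : ∀ e, J (jn 0 X Z) e ↔ (s ^^ A (k e)) = false) :
    le (ch (J (jn 0 X Z))) (jn 0 (jn 0 X Z) A) := by
  -- uniqueness of `k`
  have hext : ∀ (σ : Str) (k k' : ℕ), IS X (ext σ k) → IS X (ext σ k') → ¬ k < k' := by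
    intro σ k k' h h' hlt
    have b1 : seg X (ext σ k).length = ext σ k := h
    have b2 : seg X (ext σ k').length = ext σ k' := h'
    have a1 : X (σ.length + k) = true := by
      have this : (seg X (ext σ k).length).getD (σ.length + k) false =
          (ext σ k).getD (σ.length + k) false := by rw [b1]
      rw [seg_getD _ _ _ (by simp [ext])] at this
      rw [this]
      simp [ext]
    have a2 : X (σ.length + k) = false := by
      have this : (seg X (ext σ k').length).getD (σ.length + k) false =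
          (ext σ k').getD (σ.length + k) false := by rw [b2]
      rw [seg_getD _ _ _ (by simp [ext]; omega)] at this
      rw [this]
      unfold ext
      rw [List.getD_append_right _ _ _ _ (by omega), Nat.add_sub_cancel_left,
        List.getD_append _ _ _ _ (by simpa using hlt)]
      simp [List.getD_eq_getElem?_getD, hlt]
    rw [a1] at a2
    exact absurd a2 (by decide)
  have huk : ∀ (σ : Str) (k k' : ℕ), IS X (ext σ k) → IS X (ext σ k') → k = k' :=
    fun σ k k' h h' => le_antisymm (not_lt.1 (hext _ _ _ h' h)) (not_lt.1 (hext _ _ _ h h'))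
  -- uniqueness of the position
  have hpos : ∀ e τ, Pos r i j X Z A s ρ e τ ↔ τ = σ e := by
    intro e τ
    constructor
    · rintro ⟨L, l0, l1, rfl⟩
      have : ∀ n ≤ e, L.getD n [] = σ n := by
        intro n
        induction n with
        | zero => intro _; rw [l0, h0]
        | succ n ih =>
          intro hn
          have ih' := ih (by omega)
          obtain ⟨k', hk', hF'⟩ := l1 n (by omega)
          rw [ih'] at hk' hF'
          have := huk _ _ _ hk' (hk n)
          subst this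
          exact F_unique r i j Z A s hF' (hF n)
      exact this e le_rfl
    · rintro rfl
      refine ⟨(List.range (e + 1)).map σ, ?_, ?_, ?_⟩
      · simp [List.getD_eq_getElem?_getD, h0]
      · intro n hn
        refine ⟨k n, ?_, ?_⟩
        · have : ((List.range (e + 1)).map σ).getD n [] = σ n := by
            simp [List.getD_eq_getElem?_getD, show n < e + 1 by omega]
          rw [this]
          exact hk n
        · have a1 : ((List.range (e + 1)).map σ).getD n [] = σ n := by
            simp [List.getD_eq_getElem?_getD, show n < e + 1 by omega]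
          have a2 : ((List.range (e + 1)).map σ).getD (n + 1) [] = σ (n + 1) := by
            simp [List.getD_eq_getElem?_getD, show n + 1 < e + 1 by omega]
          rw [a1, a2]
          exact hF n
      · simp [List.getD_eq_getElem?_getD]
  have hb : ∀ v : Bool, REIn (St (jn 0 (jn 0 X Z) A)) (fun k : ℕ => (s ^^ A k) = v) := by
    intro v
    have h1 : Computable fun y : ℕ × Str => decide ((s ^^ y.2.getD (2 * y.1 + 1) false) = v) := by
      have e3 : Computable fun y : ℕ × Str => y.2.getD (2 * y.1 + 1) false :=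
        c_getD (by fun_prop) (by fun_prop)
      refine RE.cdecide (RE.cp_eq ?_ (Computable.const v))
      cases s
      · simpa using e3
      · simpa using RE.cnot e3
    refine (re_at (jn 0 (jn 0 X Z) A) (l := fun k : ℕ => 2 * k + 2) h1
      (by fun_prop)).of_eq fun k => ?_
    simp only [decide_eq_true_eq]
    rw [seg_getD _ _ _ (by omega), jn_odd]
  have hmain : ∀ v : Bool, REIn (St (jn 0 (jn 0 X Z) A)) (fun e : ℕ => (s ^^ A (k e)) = v) := by
    intro v
    have h1 : REIn (St (jn 0 (jn 0 X Z) A)) (fun e : ℕ => ∃ y : Str × ℕ,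
        Pos r i j X Z A s ρ e y.1 ∧ (IS X (ext y.1 y.2) ∧ (s ^^ A y.2) = v)) := by
      refine REIn.ex (S := fun (e : ℕ) (y : Str × ℕ) =>
        Pos r i j X Z A s ρ e y.1 ∧ (IS X (ext y.1 y.2) ∧ (s ^^ A y.2) = v))
        (REIn.and ?_ (REIn.and ?_ ?_))
      · exact (re_Pos r i j X Z A s ρ).comp (f := fun z : ℕ × (Str × ℕ) => (z.1, z.2.1))
          (by fun_prop)
      · exact (re_IS X Z A).comp (f := fun z : ℕ × (Str × ℕ) => ext z.2.1 z.2.2)
          (c_ext (by fun_prop) (by fun_prop))
      · exact (hb v).comp (f := fun z : ℕ × (Str × ℕ) => z.2.2) (by fun_prop)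
    refine h1.of_eq fun e => ?_
    constructor
    · rintro ⟨⟨τ, k'⟩, g1, g2, g3⟩
      rw [hpos] at g1
      subst g1
      have := huk _ _ _ g2 (hk e)
      subst this
      exact g3
    · intro h
      exact ⟨(σ e, k e), (hpos e _).2 rfl, hk e, h⟩
  refine (K5 K2).2.2.1 _ _ ((hmain false).of_eq fun e => (hJ e).symm)
    ((hmain true).of_eq fun e => ?_)
  rw [hJ e]
  cases (s ^^ A (k e)) <;> simp

end Pool.Agent.K9h58.PT.Mg
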