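import Pool.Agent.K9h58.PT.Mg2

/-!
A Posner-Robinson construction inside the class of all `X` for which two given programs translate
between `W_r^(X ⊕ Z)` and `(X ⊕ Z) ⊕ A`: the construction.
-/

set_option autoImplicit false

namespace Pool.Agent.K9h58.PT.Mg

open Nat.Partrec (Code)
open Encodable
open Pool.Agent.H639.LU Pool.Agent.H869R3.FN Pool.Agent.R616.DI Pool.Agent.Y579.PP
open Pool.Agent.Helper446.Defs Pool.Agent.Helper446.Oracle Pool.Agent.Helper446

variable {r i j : Code} {Z A : ℕ → Bool} {s : Bool} {ρ : Str}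

/-- the class is dense above `ρ` -/
def Dns (r i j : Code) (Z A : ℕ → Bool) (ρ : Str) : Prop :=
  ∀ σ : Str, ρ <+: σ → ∃ X : ℕ → Bool, seg X σ.length = σ ∧
    Red i (ch (W r (jn 0 X Z))) (jn 0 (jn 0 X Z) A) ∧
    Red j (jn 0 (jn 0 X Z) A) (ch (W r (jn 0 X Z)))

theorem seg_pre (X : ℕ → Bool) {s t : ℕ} (h : s ≤ t) : seg X s <+: seg X t := by
  rw [← take_seg' X h]
  exact List.take_prefix _ _

theorem seg_eq_of {X Y : ℕ → Bool} {s t : ℕ} (h : s ≤ t) (hXY : seg X t = seg Y t) :
    seg X s = seg Y s := by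
  rw [← take_seg' X h, ← take_seg' Y h, hXY]

theorem jn_seg_eq {X Y : ℕ → Bool} (Z : ℕ → Bool) {t : ℕ} (h : seg X t = seg Y t) :
    seg (jn 0 X Z) t = seg (jn 0 Y Z) t := by
  rw [← js2_seg, ← js2_seg, h]

theorem ch_false {Q : ℕ → Prop} {n : ℕ} : ch Q n = false ↔ ¬ Q n := by
  rw [← ch_true (P := Q) (n := n)]
  simp

theorem dec_val {c : Code} {X Y : ℕ → Bool} (h : Red c X Y) {t n : ℕ}
    (hn : n < (dec c (seg X t)).length) (d : Bool) : (dec c (seg X t)).getD n d = Y n := by
  obtain ⟨k, hk⟩ := dec_seg h t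
  rw [hk] at hn ⊢
  rw [seg_len] at hn
  rw [List.getD_eq_getElem?_getD, List.getElem?_eq_getElem (by rw [seg_len]; exact hn)]
  have h1 := seg_getD Y k n hn
  rw [List.getD_eq_getElem?_getD, List.getElem?_eq_getElem (by rw [seg_len]; exact hn)] at h1
  simpa using h1

theorem gd_exists (hD : Dns r i j Z A ρ) {σ : Str} (hσ : ρ <+: σ) (m : ℕ) :
    ∃ τ, σ <+: τ ∧ gd r i j m (js2 τ (seg Z τ.length)) (seg A τ.length) = true := by
  obtain ⟨n1, n2, n3⟩ := N1
  obtain ⟨w1, w2, w3, w4⟩ := N2 N1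
  obtain ⟨X, hX, hi, hj⟩ := hD σ hσ
  obtain ⟨t0, ht0⟩ := dec_long hi (m + 1)
  have hn : ∀ n, ∃ tn, ∀ t ≥ tn, (hst r (seg (jn 0 X Z) t) n ||
      !((dec j (seg (jn 0 (jn 0 X Z) A) t)).getD n true)) = true ∧
      hst r (seg (jn 0 X Z) t) n = ch (W r (jn 0 X Z)) n := by
    intro n
    by_cases hW : W r (jn 0 X Z) n
    · obtain ⟨t, ht⟩ := (w1 r _ n).1 hW
      refine ⟨t, fun t' ht' => ?_⟩
      have h1 := w2 r _ _ n (seg_pre (jn 0 X Z) ht') ht
      exact ⟨by rw [h1]; rfl, by rw [h1, eq_comm, ch_true]; exact hW⟩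
    · obtain ⟨t, ht⟩ := dec_long hj (n + 1)
      refine ⟨t, fun t' ht' => ?_⟩
      have h1 : hst r (seg (jn 0 X Z) t') n = false := by
        rw [Bool.eq_false_iff]
        exact fun h => hW ((w1 r _ n).2 ⟨t', h⟩)
      have h2 := dec_val hj (t := t') (n := n) (by have := ht t' ht'; omega) true
      rw [ch_false.2 hW] at h2
      exact ⟨by rw [h2]; simp, by rw [h1, ch_false.2 hW]⟩
  have hl : ∀ l, ∃ t1, ∀ n < l, ∀ t ≥ t1, (hst r (seg (jn 0 X Z) t) n ||
      !((dec j (seg (jn 0 (jn 0 X Z) A) t)).getD n true)) = true ∧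
      hst r (seg (jn 0 X Z) t) n = ch (W r (jn 0 X Z)) n := by
    intro l
    induction l with
    | zero => exact ⟨0, fun n hn => absurd hn (Nat.not_lt_zero _)⟩
    | succ l ih =>
      obtain ⟨t1, h1⟩ := ih
      obtain ⟨t2, h2⟩ := hn l
      refine ⟨max t1 t2, fun n hn t ht => ?_⟩
      rcases Nat.lt_succ_iff_lt_or_eq.1 hn with h | rfl
      · exact h1 n h t (le_trans (le_max_left _ _) ht)
      · exact h2 t (le_trans (le_max_right _ _) ht)
  obtain ⟨t1, ht1⟩ := hl (max m t0)
  have hT : ∃ T, t1 ≤ T ∧ max m t0 ≤ T ∧ σ.length ≤ T :=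
    ⟨max t1 (max (max m t0) σ.length), le_max_left _ _,
      le_trans (le_max_left _ _) (le_max_right _ _), le_trans (le_max_right _ _) (le_max_right _ _)⟩
  obtain ⟨T, hT1, hT2, hT3⟩ := hT
  refine ⟨seg X T, ?_, ?_⟩
  · rw [← hX]
    exact seg_pre X hT3
  · rw [seg_len, js2_seg]
    have hnu : nu r (seg (jn 0 X Z) T) (max m t0) = seg (ch (W r (jn 0 X Z))) (max m t0) := by
      unfold nu
      conv_rhs => unfold seg
      refine List.map_congr_left fun n hn => ?_
      rw [List.mem_range] at hn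
      exact (ht1 n hn T hT1).2
    unfold gd
    rw [Bool.not_eq_true', List.all_eq_false]
    refine ⟨max m t0, ?_, ?_⟩
    · rw [List.mem_range, seg_len]
      omega
    · simp only [Bool.not_eq_true, Bool.not_eq_false', Bool.and_eq_true, decide_eq_true_eq]
      refine ⟨by omega, ?_, ?_⟩
      · rw [hnu]
        have := ht0 (max m t0) (le_max_right _ _)
        omega
      · unfold vr
        rw [List.all_eq_true]
        intro n hn
        rw [List.mem_range] at hn
        rw [js2_seg]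
        exact (ht1 n hn T hT1).1

theorem gd_sound (hD : Dns r i j Z A ρ) {τ : Str} (hτ : ρ <+: τ) {m : ℕ}
    (h : gd r i j m (js2 τ (seg Z τ.length)) (seg A τ.length) = true) :
    ∃ l, m ≤ l ∧ l ≤ τ.length ∧
      m < (dec i (nu r (js2 τ (seg Z τ.length)) l)).length ∧
      ∀ X : ℕ → Bool, seg X τ.length = τ →
        seg (ch (W r (jn 0 X Z))) l = nu r (js2 τ (seg Z τ.length)) l := by
  obtain ⟨w1, w2, w3, w4⟩ := N2 N1
  unfold gd at h
  rw [Bool.not_eq_true', List.all_eq_false] at h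
  obtain ⟨l, hl, h⟩ := h
  simp only [Bool.not_eq_true, Bool.not_eq_false', Bool.and_eq_true, decide_eq_true_eq] at h
  obtain ⟨h1, h2, h3⟩ := h
  rw [List.mem_range, js2_len] at hl
  refine ⟨l, by omega, by omega, h2, fun X hX => ?_⟩
  unfold nu
  conv_lhs => unfold seg
  refine List.map_congr_left fun n hn => ?_
  unfold vr at h3
  rw [List.all_eq_true] at h3
  have h4 := h3 n hn
  cases hh : hst r (js2 τ (seg Z τ.length)) n
  · rw [hh, Bool.false_or, Bool.not_eq_true'] at h4
    rw [ch_false]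
    intro hW
    obtain ⟨t, ht⟩ := (w1 r _ n).1 hW
    obtain ⟨T, hT1, hT2⟩ : ∃ T, t ≤ T ∧ τ.length ≤ T := ⟨max t τ.length, le_max_left _ _,
      le_max_right _ _⟩
    obtain ⟨X', hX', hi, hj⟩ := hD (seg X T) (by
      refine hτ.trans ?_
      rw [← hX]
      exact seg_pre X hT2)
    rw [seg_len] at hX'
    have hτ' : seg X' τ.length = τ := (seg_eq_of hT2 hX').trans hX
    have hW' : W r (jn 0 X' Z) n := by
      refine (w1 r _ n).2 ⟨T, ?_⟩
      rw [jn_seg_eq Z hX']
      exact w2 r _ _ n (seg_pre (jn 0 X Z) hT1) ht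
    have e1 : js2 (js2 τ (seg Z τ.length)) (seg A τ.length) =
        seg (jn 0 (jn 0 X' Z) A) τ.length := by
      conv_lhs => rw [← hτ']
      simp only [seg_len]
      rw [js2_seg, js2_seg]
    rw [e1] at h4
    by_cases hlen : n < (dec j (seg (jn 0 (jn 0 X' Z) A) τ.length)).length
    · rw [dec_val hj hlen true, ch_false] at h4
      exact h4 hW'
    · rw [List.getD_eq_getElem?_getD, List.getElem?_eq_none (by omega)] at h4
      simp at h4
  · rw [ch_true]
    refine (w1 r _ n).2 ⟨τ.length, ?_⟩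
    rw [← js2_seg, hX]
    exact hh

theorem kst_js2 {σ τ : Str} (h : σ <+: τ) {e : ℕ}
    (hk : kst (js2 σ (seg Z σ.length)) e = true) : kst (js2 τ (seg Z τ.length)) e = true := by
  obtain ⟨w1, w2, w3, w4⟩ := N2 N1
  obtain ⟨X, hX⟩ : ∃ X : ℕ → Bool, seg X τ.length = τ := by
    refine ⟨fun n => τ.getD n false, ?_⟩
    unfold seg
    refine List.ext_getElem (by simp) fun n h1 h2 => ?_
    simp [List.getD_eq_getElem?_getD, h2]
  have hle : σ.length ≤ τ.length := h.length_le
  have hσ : seg X σ.length = σ := by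
    rw [← take_seg' X hle, hX]
    exact (List.prefix_iff_eq_take.1 h).symm
  have e1 : js2 σ (seg Z σ.length) = seg (jn 0 X Z) σ.length := by
    conv_lhs => rw [← hσ]
    simp only [seg_len]
    rw [js2_seg]
  have e2 : js2 τ (seg Z τ.length) = seg (jn 0 X Z) τ.length := by
    conv_lhs => rw [← hX]
    simp only [seg_len]
    rw [js2_seg]
  rw [e1] at hk
  rw [e2]
  exact w4 _ _ e (seg_pre (jn 0 X Z) hle) hk

theorem step_exists (hD : Dns r i j Z A ρ) (hs : ¬ REIn (St Z) (fun n => (s ^^ A n) = true))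
    (e : ℕ) {σ : Str} (hσ : ρ <+: σ) : ∃ (k : ℕ) (σ' : Str), F r i j Z A s ((e, σ), (k, σ')) ∧
      ((s ^^ A k) = true → ∀ τ, ext σ k <+: τ → kst (js2 τ (seg Z τ.length)) e = false) := by
  have hre : REIn (St Z) (fun k : ℕ => ∃ τ : Str, ext σ k <+: τ ∧
      kst (js2 τ (seg Z τ.length)) e = true) := by
    refine REIn.ex (S := fun (k : ℕ) (τ : Str) => ext σ k <+: τ ∧
      kst (js2 τ (seg Z τ.length)) e = true) ?_
    have h1 : Computable fun y : (ℕ × Str) × Str => decide (y.1.2.take (ext σ y.1.1).length =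
        ext σ y.1.1) && kst (js2 y.1.2 y.2) e := by
      have e1 : Computable fun y : (ℕ × Str) × Str => ext σ y.1.1 :=
        c_ext (Computable.const σ) (by fun_prop)
      exact RE.cand (RE.cdecide (RE.cp_eq (c_take (by fun_prop) (by fun_prop)) e1))
        (c_kst (c_js2 (by fun_prop) Computable.snd) (Computable.const e))
    refine (re_at Z (l := fun y : ℕ × Str => y.2.length) h1 (by fun_prop)).of_eq fun y => ?_
    rw [List.prefix_iff_eq_take]
    simp only [Bool.and_eq_true, decide_eq_true_eq]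
    exact and_congr_left fun _ => eq_comm
  obtain ⟨k, hk⟩ : ∃ k, ¬ ((s ^^ A k) = true ↔ ∃ τ : Str, ext σ k <+: τ ∧
      kst (js2 τ (seg Z τ.length)) e = true) := by
    by_contra hcon
    push Not at hcon
    exact hs (hre.of_eq fun k => (hcon k).symm)
  have hρ : ρ <+: ext σ k := hσ.trans (List.prefix_append _ _)
  by_cases hb : (s ^^ A k) = true
  · have hno : ∀ τ, ext σ k <+: τ → kst (js2 τ (seg Z τ.length)) e = false := by
      intro τ hτ
      rw [Bool.eq_false_iff]
      intro h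
      exact hk ⟨fun _ => ⟨τ, hτ, h⟩, fun _ => hb⟩
    obtain ⟨τ, h1, h2⟩ := gd_exists hD hρ e
    obtain ⟨τ', h3⟩ := F_exists r i j Z A s (e := e) (k := k) (σ := σ) (τ := τ)
      ⟨h1, fun h => by rw [hb] at h; exact absurd h (by decide), h2⟩
    exact ⟨k, τ', h3, fun _ => hno⟩
  · have hyes : ∃ τ : Str, ext σ k <+: τ ∧ kst (js2 τ (seg Z τ.length)) e = true := by
      by_contra hcon
      exact hk ⟨fun h => absurd h hb, fun h => absurd h hcon⟩
    obtain ⟨τ₁, g1, g2⟩ := hyes
    obtain ⟨τ, h1, h2⟩ := gd_exists hD (hρ.trans g1) e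
    obtain ⟨τ', h3⟩ := F_exists r i j Z A s (e := e) (k := k) (σ := σ) (τ := τ)
      ⟨g1.trans h1, fun _ => kst_js2 h1 g2, h2⟩
    exact ⟨k, τ', h3, fun h => absurd h hb⟩

theorem chain_lim {σ : ℕ → Str} (h : ∀ n, σ n <+: σ (n + 1)) (hl : ∀ n, n ≤ (σ n).length) :
    ∃ X : ℕ → Bool, ∀ n, seg X (σ n).length = σ n := by
  have hm : ∀ n m, n ≤ m → σ n <+: σ m := by
    intro n m hnm
    induction hnm with
    | refl => exact List.prefix_rfl
    | step _ ih => exact ih.trans (h _)
  refine ⟨fun n => (σ (n + 1)).getD n false, fun e => ?_⟩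
  unfold seg
  refine List.ext_getElem (by simp) fun n h1 h2 => ?_
  simp only [List.getElem_map, List.getElem_range]
  have h3 : n < (σ (n + 1)).length := by
    have := hl (n + 1)
    omega
  rw [List.getD_eq_getElem?_getD, List.getElem?_eq_getElem h3, Option.getD_some]
  rcases le_total (n + 1) e with h4 | h4
  · exact (hm _ _ h4).getElem h3
  · exact ((hm _ _ h4).getElem h2).symm

/-- the theorem on the construction -/
theorem posner (hD : Dns r i j Z A ρ) (hs : ¬ REIn (St Z) (fun n => (s ^^ A n) = true)) :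
    ∃ X : ℕ → Bool, le (ch (J (jn 0 X Z))) (jn 0 (jn 0 X Z) A) ∧
      le (jn 0 (jn 0 X Z) A) (ch (W r (jn 0 X Z))) := by
  obtain ⟨w1, w2, w3, w4⟩ := N2 N1
  obtain ⟨d1, d2, d3, d4⟩ := D1
  have hstep : ∀ (e : ℕ) (σ : {σ : Str // ρ <+: σ}), ∃ p : ℕ × {σ : Str // ρ <+: σ},
      F r i j Z A s ((e, σ.1), (p.1, p.2.1)) ∧ ((s ^^ A p.1) = true →
        ∀ τ, ext σ.1 p.1 <+: τ → kst (js2 τ (seg Z τ.length)) e = false) := by
    rintro e ⟨σ, hσ⟩
    obtain ⟨k, σ', h1, h2⟩ := step_exists hD hs e hσ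
    exact ⟨(k, ⟨σ', hσ.trans ((List.prefix_append _ _).trans h1.1.1)⟩), h1, h2⟩
  choose f hf using hstep
  let S : ℕ → {σ : Str // ρ <+: σ} := fun n => Nat.rec ⟨ρ, List.prefix_rfl⟩ (fun e σ => (f e σ).2) n
  have hS : ∀ e, S (e + 1) = (f e (S e)).2 := fun e => rfl
  let σ : ℕ → Str := fun e => (S e).1
  let k : ℕ → ℕ := fun e => (f e (S e)).1
  have hF : ∀ e, F r i j Z A s ((e, σ e), (k e, σ (e + 1))) := fun e => (hf e (S e)).1
  have hno : ∀ e, (s ^^ A (k e)) = true →
      ∀ τ, ext (σ e) (k e) <+: τ → kst (js2 τ (seg Z τ.length)) e = false :=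
    fun e => (hf e (S e)).2
  have hext : ∀ e, ext (σ e) (k e) <+: σ (e + 1) := fun e => (hF e).1.1
  have hpre : ∀ e, σ e <+: σ (e + 1) := fun e => (List.prefix_append _ _).trans (hext e)
  have hlen : ∀ e, e ≤ (σ e).length := by
    intro e
    induction e with
    | zero => exact Nat.zero_le _
    | succ e ih =>
      have := (hext e).length_le
      unfold ext at this
      simp only [List.length_append, List.length_map, List.length_range, List.length_cons,
        List.length_nil] at this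
      omega
  obtain ⟨X, hX⟩ := chain_lim hpre hlen
  have hISext : ∀ e, IS X (ext (σ e) (k e)) := by
    intro e
    unfold IS
    rw [← take_seg' X (hext e).length_le, hX (e + 1)]
    exact (List.prefix_iff_eq_take.1 (hext e)).symm
  have hjs : ∀ τ : Str, seg X τ.length = τ →
      js2 τ (seg Z τ.length) = seg (jn 0 X Z) τ.length := by
    intro τ hτ
    conv_lhs => rw [← hτ]
    simp only [seg_len]
    rw [js2_seg]
  refine ⟨X, ?_, ?_⟩
  · refine decode_jump r i j X Z A s ρ σ k rfl hISext hF fun e => ?_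
    constructor
    · intro hJ
      obtain ⟨t, ht⟩ := (w3 _ _).1 hJ
      rw [← Bool.not_eq_true]
      intro hb
      have h1 := hno e hb (seg X (max t (ext (σ e) (k e)).length)) (by
        conv_lhs => rw [← hISext e]
        exact seg_pre X (le_max_right _ _))
      rw [hjs _ (by rw [seg_len]), seg_len] at h1
      have h2 := w4 _ _ e (seg_pre (jn 0 X Z) (le_max_left t (ext (σ e) (k e)).length)) ht
      rw [h2] at h1
      exact absurd h1 (by decide)
    · intro hb
      have h1 := (hF e).1.2.1 hb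
      simp only at h1
      rw [hjs _ (hX (e + 1))] at h1
      exact (w3 _ _).2 ⟨_, h1⟩
  · -- the decoding by `i`
    have hsound : ∀ e, ∃ l, e ≤ l ∧ l ≤ (σ (e + 1)).length ∧
        e < (dec i (seg (ch (W r (jn 0 X Z))) l)).length ∧
        ∀ X' : ℕ → Bool, seg X' (σ (e + 1)).length = σ (e + 1) →
          seg (ch (W r (jn 0 X' Z))) l = seg (ch (W r (jn 0 X Z))) l := by
      intro e
      obtain ⟨l, h1, h2, h3, h4⟩ := gd_sound hD (S (e + 1)).2 (hF e).1.2.2
      have h5 := h4 X (hX (e + 1))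
      refine ⟨l, h1, h2, by rw [h5]; exact h3, fun X' hX' => (h4 X' hX').trans h5.symm⟩
    have hseg : ∀ t, ∃ k, dec i (seg (ch (W r (jn 0 X Z))) t) = seg (jn 0 (jn 0 X Z) A) k := by
      intro t
      obtain ⟨l, h1, h2, h3, h4⟩ := hsound t
      obtain ⟨X', hX', hi, hj⟩ := hD (σ (t + 1)) (S (t + 1)).2
      have h5 := seg_eq_of h1 (h4 X' hX')
      obtain ⟨k, hk⟩ := dec_seg hi t
      refine ⟨k, ?_⟩
      have hkt : k ≤ t := by
        have := d4 i (seg (ch (W r (jn 0 X' Z))) t)
        rwa [hk, seg_len, seg_len] at this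
      rw [← h5, hk]
      refine seg_eq_of (t := (σ (t + 1)).length) (by omega) ?_
      exact jn_seg_eq A (jn_seg_eq Z (hX'.trans (hX (t + 1)).symm))
    have hv : ∀ v : Bool, REIn (St (ch (W r (jn 0 X Z))))
        (fun n : ℕ => jn 0 (jn 0 X Z) A n = v) := by
      intro v
      have hc : Computable fun y : ℕ × Str => decide (y.1 < (dec i y.2).length) &&
          decide ((dec i y.2).getD y.1 false = v) := by
        have e1 : Computable fun y : ℕ × Str => dec i y.2 :=
          c_dec (Computable.const i) Computable.snd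
        exact RE.cand (c_dlt Computable.fst (Computable.list_length.comp e1))
          (RE.cdecide (RE.cp_eq (c_getD e1 Computable.fst) (Computable.const v)))
      refine (re_seg _ hc).of_eq fun n => ?_
      simp only [Bool.and_eq_true, decide_eq_true_eq]
      constructor
      · rintro ⟨t, h1, h2⟩
        obtain ⟨k, hk⟩ := hseg t
        rw [hk, seg_len] at h1
        rw [hk, seg_getD _ _ _ h1] at h2
        exact h2
      · intro h
        obtain ⟨l, h1, h2, h3, h4⟩ := hsound n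
        refine ⟨l, h3, ?_⟩
        obtain ⟨k, hk⟩ := hseg l
        rw [hk, seg_len] at h3
        rw [hk, seg_getD _ _ _ h3]
        exact h
    unfold le
    refine turingReducible_iff.2 ⟨(hv true).of_eq fun n => Iff.rfl, (hv false).of_eq fun n => ?_⟩
    show _ ↔ ¬ (jn 0 (jn 0 X Z) A n = true)
    rw [Bool.not_eq_true]

end Pool.Agent.K9h58.PT.Mg
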