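import Pool.Agent.K9h58.PT.Mg3

/-!
Indices which solve Post's problem for all oracles agree with the join with a fixed set on a meager
set of oracles only.
-/

set_option autoImplicit false

namespace Pool.Agent.K9h58.PT.Mg

open Nat.Partrec (Code)
open Encodable
open Pool.Agent.H639.LU Pool.Agent.H869R3.FN Pool.Agent.R616.DI Pool.Agent.Y579.PP
open Pool.Agent.Helper446.Defs Pool.Agent.Helper446.Oracle Pool.Agent.Helper446

theorem seg_eq_iff {X Y : ℕ → Bool} {t : ℕ} : seg X t = seg Y t ↔ ∀ n < t, X n = Y n := by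
  constructor
  · intro h n hn
    rw [← seg_getD X t n hn, ← seg_getD Y t n hn, h]
  · intro h
    unfold seg
    exact List.map_congr_left fun n hn => h n (List.mem_range.1 hn)

theorem isOpen_seg (t : ℕ) (σ : Str) : IsOpen {X : ℕ → Bool | seg X t = σ} := by
  rw [isOpen_iff_forall_mem_open]
  intro X hX
  refine ⟨PiNat.cylinder X t, fun Y hY => ?_, PiNat.isOpen_cylinder _ X t, PiNat.self_mem_cylinder X t⟩
  have h1 : seg Y t = seg X t := seg_eq_iff.2 fun n hn => hY n hn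
  exact h1.trans hX

theorem exists_seg {U : Set (ℕ → Bool)} (hU : IsOpen U) {X : ℕ → Bool} (hX : X ∈ U) :
    ∃ t, ∀ Y, seg Y t = seg X t → Y ∈ U := by
  obtain ⟨V, hV, hXV, hVU⟩ := (PiNat.isTopologicalBasis_cylinders (fun _ : ℕ => Bool)).exists_subset_of_mem_open
    hX hU
  obtain ⟨x, n, rfl⟩ := hV
  refine ⟨n, fun Y hY => hVU ?_⟩
  intro i hi
  rw [seg_eq_iff.1 hY i hi]
  exact hXV i hi

theorem dense_of {r i j : Code} {Z A : ℕ → Bool}
    (h : ¬ IsNowhereDense {X : ℕ → Bool | Red i (ch (W r (jn 0 X Z))) (jn 0 (jn 0 X Z) A) ∧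
      Red j (jn 0 (jn 0 X Z) A) (ch (W r (jn 0 X Z)))}) : ∃ ρ, Dns r i j Z A ρ := by
  unfold IsNowhereDense at h
  obtain ⟨X₀, hX₀⟩ := Set.nonempty_iff_ne_empty.2 h
  obtain ⟨t, ht⟩ := exists_seg isOpen_interior hX₀
  refine ⟨seg X₀ t, fun σ hσ => ?_⟩
  -- a point of the cylinder of `σ`
  let Y : ℕ → Bool := fun n => σ.getD n false
  have hY : seg Y σ.length = σ := by
    unfold seg
    refine List.ext_getElem (by simp) fun n h1 h2 => ?_
    simp [Y, List.getD_eq_getElem?_getD, h2]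
  have hlen : t ≤ σ.length := by
    have := hσ.length_le
    rwa [seg_len] at this
  have hYt : seg Y t = seg X₀ t := by
    rw [← take_seg' Y hlen, hY]
    have := List.prefix_iff_eq_take.1 hσ
    rw [seg_len] at this
    exact this.symm
  have hYc := interior_subset (ht Y hYt)
  rw [mem_closure_iff] at hYc
  obtain ⟨X, hX1, hX2⟩ := hYc {X | seg X σ.length = σ} (isOpen_seg _ _) hY
  exact ⟨X, hX1, hX2⟩

/-- the relativised theorem -/
theorem meager_rel (r : Code) (Z : ℕ → Bool)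
    (h : ∀ X, ¬ le (ch (W r (jn 0 X Z))) (jn 0 X Z) ∧
      ¬ le (ch (J (jn 0 X Z))) (ch (W r (jn 0 X Z)))) (A : ℕ → Bool) :
    IsMeagre {X : ℕ → Bool | le (ch (W r (jn 0 X Z))) (jn 0 (jn 0 X Z) A) ∧
      le (jn 0 (jn 0 X Z) A) (ch (W r (jn 0 X Z)))} := by
  by_cases hA : le A Z
  · have h1 : {X : ℕ → Bool | le (ch (W r (jn 0 X Z))) (jn 0 (jn 0 X Z) A) ∧
        le (jn 0 (jn 0 X Z) A) (ch (W r (jn 0 X Z)))} = ∅ := by
      rw [Set.eq_empty_iff_forall_notMem]
      rintro X ⟨g1, -⟩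
      exact (h X).1 (le_trans' g1 (le_jn (le_refl' _) (le_trans' hA (le_jn_right _ _))))
    rw [h1]
    exact IsMeagre.empty
  · obtain ⟨s, hs⟩ : ∃ s : Bool, ¬ REIn (St Z) (fun n => (s ^^ A n) = true) := by
      by_contra hcon
      push Not at hcon
      refine hA (turingReducible_iff.2 ⟨(hcon false).of_eq fun n => ?_,
        (hcon true).of_eq fun n => ?_⟩)
      · simp [St]
      · simp [St]
    by_contra hM
    have h2 : ∃ i j : Code, ¬ IsNowhereDense {X : ℕ → Bool |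
        Red i (ch (W r (jn 0 X Z))) (jn 0 (jn 0 X Z) A) ∧
        Red j (jn 0 (jn 0 X Z) A) (ch (W r (jn 0 X Z)))} := by
      by_contra hcon
      push Not at hcon
      refine hM ?_
      have h3 : IsMeagre (⋃ p : Code × Code, {X : ℕ → Bool |
          Red p.1 (ch (W r (jn 0 X Z))) (jn 0 (jn 0 X Z) A) ∧
          Red p.2 (jn 0 (jn 0 X Z) A) (ch (W r (jn 0 X Z)))}) :=
        isMeagre_iUnion fun p => (hcon p.1 p.2).isMeagre
      refine h3.mono ?_
      rintro X ⟨g1, g2⟩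
      obtain ⟨j, hj⟩ := (K3 K2 _ _).1 g1
      obtain ⟨i, hi⟩ := (K3 K2 _ _).1 g2
      exact Set.mem_iUnion.2 ⟨(i, j), hi, hj⟩
    obtain ⟨i, j, hij⟩ := h2
    obtain ⟨ρ, hρ⟩ := dense_of hij
    obtain ⟨X, g1, g2⟩ := posner hρ hs
    exact (h X).2 (le_trans' g1 g2)

/-- monotonicity of the jump -/
theorem J_mono {X Y : ℕ → Bool} (h : le X Y) : le (ch (J X)) (ch (J Y)) := by
  have h1 : REIn (St Y) (J X) := K4.1 _ _ h _ ((K5 K2).2.1 X)
  exact (K5 K2).2.2.1 _ _ (re_pos h1) (re_neg h1)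

/-- the theorem for all oracles -/
theorem meager_all (r : Code) (h : ∀ X, ¬ le (ch (W r X)) X ∧ ¬ le (ch (J X)) (ch (W r X)))
    (A : ℕ → Bool) :
    IsMeagre {X : ℕ → Bool | le (ch (W r X)) (jn 0 X A) ∧ le (jn 0 X A) (ch (W r X))} := by
  obtain ⟨c, hc⟩ := red_fst
  obtain ⟨r', hr'⟩ := w_comp r c
  have hW : ∀ X, ch (W r' (jn 0 X z0)) = ch (W r X) := fun X =>
    ch_congr fun n => hr' _ _ (hc X z0) n
  have hX : ∀ X, le (jn 0 X z0) X := fun X => le_jn (le_refl' _) (z0_le _)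
  refine (meager_rel r' z0 (fun X => ?_) A).mono ?_
  · rw [hW]
    exact ⟨fun g => (h X).1 (le_trans' g (hX X)),
      fun g => (h X).2 (le_trans' (J_mono (le_jn_left _ _)) g)⟩
  · rintro X ⟨g1, g2⟩
    show le (ch (W r' (jn 0 X z0))) _ ∧ le _ (ch (W r' (jn 0 X z0)))
    rw [hW]
    exact ⟨le_trans' g1 (le_jn (le_trans' (le_jn_left _ _) (le_jn_left _ _)) (le_jn_right _ _)),
      le_trans' (le_jn (le_trans' (hX X) (le_jn_left _ _)) (le_jn_right _ _)) g2⟩

end Pool.Agent.K9h58.PT.Mg
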