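import Pool.Agent.K9h58.PT.Level

/-!
Classes which are `Π⁰₁` in `D ⊕ ∅'` are `Π⁰₂`: programs.
-/

set_option autoImplicit false

namespace Pool.Agent.K9h58.PT

open Nat.Partrec (Code)
open Encodable
open Pool.Agent.H639.LU Pool.Agent.H869R3.FN Pool.Agent.R616.DI Pool.Agent.Y579.PP
open Pool.Agent.Helper446.Defs Pool.Agent.Helper446.Oracle Pool.Agent.Helper446

/-- the empty set -/
def z0 : ℕ → Bool := fun _ => false

/-- approximation of the first `s` digits of the jump of the empty set -/
def apx (t s : ℕ) : Str := (List.range s).map fun m => kst ((List.range t).map fun _ => false) m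

theorem apx_lim (s : ℕ) : ∃ t₀, ∀ t ≥ t₀, apx t s = seg (ch (J z0)) s := by
  obtain ⟨-, -, m3, m4⟩ := N2 N1
  have h1 : ∀ m, ∃ t₀, ∀ t ≥ t₀, kst (seg z0 t) m = ch (J z0) m := by
    intro m
    by_cases h : J z0 m
    · obtain ⟨t₀, h0⟩ := (m3 _ _).1 h
      refine ⟨t₀, fun t ht => ?_⟩
      rw [m4 _ _ _ (G2_seg_le z0 ht) h0, eq_comm, ch_true]
      exact h
    · refine ⟨0, fun t _ => ?_⟩
      have h2 : ch (J z0) m = false := by
        rw [Bool.eq_false_iff]
        exact fun h3 => h (ch_true.1 h3)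
      rw [h2, Bool.eq_false_iff]
      exact fun h3 => h ((m3 _ _).2 ⟨t, h3⟩)
  choose T hT using h1
  refine ⟨(Finset.range s).sup T, fun t ht => ?_⟩
  unfold apx seg
  refine List.map_congr_left fun m hm => ?_
  rw [List.mem_range] at hm
  exact hT m t ((Finset.le_sup (f := T) (Finset.mem_range.2 hm)).trans ht)

theorem c_apx {α : Type*} [Primcodable α] {t s : α → ℕ} (ht : Computable t)
    (hs : Computable s) : Computable fun a => apx (t a) (s a) := by
  unfold apx
  refine c_map (f := fun a m => kst ((List.range (t a)).map fun _ => false) m) ?_ (by fun_prop)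
  refine c_kst ?_ Computable.snd
  exact c_map (f := fun _ _ => false) (Computable.const _) (by fun_prop)

theorem apx_len (t s : ℕ) : (apx t s).length = s := by simp [apx]

/-- decoding of numbers -/
def dd (a : ℕ) : Str × ℕ × ℕ := (decode (α := Str × ℕ × ℕ) a).getD ([], 0, 0)

theorem dd_encode (y : Str × ℕ × ℕ) : dd (encode y) = y := by
  unfold dd
  rw [encodek]
  rfl

theorem c_dd {α : Type*} [Primcodable α] {n : α → ℕ} (hn : Computable n) :
    Computable fun a => dd (n a) := by
  unfold dd
  exact (Primrec.option_getD.to_comp).comp (Computable.decode.comp hn) (Computable.const _)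

/-- the presentation -/
theorem present {Z : ℕ → Bool} (hZ : le Z (ch (J z0))) {f : ℕ × Str × Str → Bool}
    (hf : Computable f) : ∃ p : Code, ∀ (n b : ℕ) (D : ℕ → Bool),
      (∀ a, W p D (encode ((n, b, a) : ℕ × ℕ × ℕ))) ↔
        ∀ s, f (n, seg D s, seg Z s) = true := by
  obtain ⟨c, hc⟩ := (le_iff _ _).1 hZ
  -- the conditions
  set g : ℕ × Str → Bool := fun x =>
    (decide ((dd x.1.unpair.2.unpair.2).2.2 < x.2.length + 1) &&
      !(decide (apx x.2.length (dd x.1.unpair.2.unpair.2).1.length =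
        (dd x.1.unpair.2.unpair.2).1))) ||
    (decide ((dd x.1.unpair.2.unpair.2).2.1 < x.2.length + 1) &&
      (decide ((dec c (dd x.1.unpair.2.unpair.2).1).length <
        (dd x.1.unpair.2.unpair.2).2.1) ||
      f (x.1.unpair.1, x.2.take (dd x.1.unpair.2.unpair.2).2.1,
        (dec c (dd x.1.unpair.2.unpair.2).1).take
          (dd x.1.unpair.2.unpair.2).2.1))) with hg
  have hgc : Computable g := by
    have h0 : Computable fun x : ℕ × Str => dd x.1.unpair.2.unpair.2 :=
      c_dd (by fun_prop)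
    have h1 := c_dlt (RE.csnd (RE.csnd h0))
      (g := fun x : ℕ × Str => x.2.length + 1) (by fun_prop)
    have h2 : Computable fun x : ℕ × Str => decide (apx x.2.length
        (dd x.1.unpair.2.unpair.2).1.length =
        (dd x.1.unpair.2.unpair.2).1) :=
      RE.cdecide (RE.cp_eq (c_apx (by fun_prop) (RE.clength (RE.cfst h0))) (RE.cfst h0))
    have h3 := c_dlt (RE.cfst (RE.csnd h0))
      (g := fun x : ℕ × Str => x.2.length + 1) (by fun_prop)
    have h4 := c_dec (r := fun _ : ℕ × Str => c) (Computable.const c) (RE.cfst h0)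
    have h5 := c_dlt (RE.clength h4) (RE.cfst (RE.csnd h0))
    have h6 : Computable fun x : ℕ × Str => f (x.1.unpair.1,
        x.2.take (dd x.1.unpair.2.unpair.2).2.1,
        (dec c (dd x.1.unpair.2.unpair.2).1).take
          (dd x.1.unpair.2.unpair.2).2.1) :=
      hf.comp (RE.cpair (by fun_prop) (RE.cpair (c_take Computable.snd (RE.cfst (RE.csnd h0)))
        (c_take h4 (RE.cfst (RE.csnd h0)))))
    exact RE.cor (RE.cand h1 (RE.cnot h2)) (RE.cand h3 (RE.cor h5 h6))
  obtain ⟨p, hp⟩ := w_of_fun hgc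
  refine ⟨p, fun n b D => ?_⟩
  have h1 : ∀ a, W p D (encode ((n, b, a) : ℕ × ℕ × ℕ)) ↔ ∃ t,
      ((dd a).2.2 ≤ t ∧
        apx t (dd a).1.length ≠
          (dd a).1) ∨
      ((dd a).2.1 ≤ t ∧
        ((dec c (dd a).1).length <
            (dd a).2.1 ∨
        f (n, seg D (dd a).2.1,
          (dec c (dd a).1).take
            (dd a).2.1) = true)) := by
    intro a
    rw [hp]
    refine exists_congr fun t => ?_
    rw [hg]
    simp only [Encodable.encode_prod_val, encode_nat, Nat.unpair_pair, Bool.or_eq_true,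
      Bool.and_eq_true, decide_eq_true_eq, Bool.not_eq_true', decide_eq_false_iff_not, seg_len,
      Nat.lt_succ_iff]
    refine or_congr Iff.rfl (and_congr_right fun h => ?_)
    rw [take_seg' D h]
  simp only [h1]
  constructor
  · intro h s
    obtain ⟨K, hK⟩ := dec_long hc s
    obtain ⟨k, hk⟩ := dec_seg hc K
    have hsk : s ≤ k := by
      have := hK K le_rfl
      rwa [hk, seg_len] at this
    obtain ⟨t₀, h0⟩ := apx_lim K
    have h2 := h (encode ((seg (ch (J z0)) K, s, t₀) : Str × ℕ × ℕ))
    simp only [dd_encode, seg_len] at h2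
    obtain ⟨t, ⟨h3, h4⟩ | ⟨h3, h4⟩⟩ := h2
    · exact absurd (h0 t h3) h4
    · rw [hk, seg_len, take_seg' Z hsk] at h4
      rcases h4 with h4 | h4
      · omega
      · exact h4
  · intro h a
    generalize dd a = y
    obtain ⟨τ, s, u⟩ := y
    dsimp only
    by_cases hτ : τ = seg (ch (J z0)) τ.length
    · refine ⟨s, Or.inr ⟨le_rfl, ?_⟩⟩
      obtain ⟨k, hk⟩ := dec_seg hc τ.length
      rw [← hτ] at hk
      rw [hk, seg_len]
      by_cases hks : k < s
      · exact Or.inl hks
      · right
        rw [take_seg' Z (by omega)]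
        exact h s
    · obtain ⟨t₀, h0⟩ := apx_lim τ.length
      refine ⟨max u t₀, Or.inl ⟨le_max_left _ _, ?_⟩⟩
      rw [h0 _ (le_max_right _ _)]
      exact fun h => hτ h.symm

end Pool.Agent.K9h58.PT
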