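import Pool.Agent.K9h58.PT.Pres
import Pool.Agent.Helper227.TD.Exist
import Pool.Agent.Y785.EN.Cone2

/-!
Effectively null sets which contain all oracles `D` such that `C` is computable in `D ⊕ U`.
-/

set_option autoImplicit false

namespace Pool.Agent.K9h58.PT

open Nat.Partrec (Code)
open Encodable
open Pool.Agent.H639.LU Pool.Agent.H869R3.FN Pool.Agent.R616.DI Pool.Agent.Y579.PP
open Pool.Agent.Helper446.Defs Pool.Agent.Helper446.Oracle Pool.Agent.Helper446
open Pool.Agent.Helper227 (lam pre allStr mem_allStr primrec_allStr lam_pre_eq)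
open MeasureTheory
open scoped ENNReal

/-- the join of two strings -/
def js2 (σ υ : Str) : Str :=
  (List.range σ.length).map fun i =>
    if i % 2 = 0 then σ.getD (i / 2) false else υ.getD (i / 2) false

theorem js2_seg (D U : ℕ → Bool) (s : ℕ) : js2 (seg D s) (seg U s) = seg (jn 0 D U) s := by
  unfold js2
  rw [seg_len]
  conv_rhs => unfold seg
  refine List.map_congr_left fun i hi => ?_
  rw [List.mem_range] at hi
  by_cases h : i % 2 = 0
  · rw [if_pos h, seg_getD D s _ (by omega)]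
    conv_rhs => rw [show i = 2 * (i / 2) by omega, jn_even]
  · rw [if_neg h, seg_getD U s _ (by omega)]
    conv_rhs => rw [show i = 2 * (i / 2) + 1 by omega, jn_odd]

theorem c_js2 {α : Type*} [Primcodable α] {σ υ : α → Str} (hσ : Computable σ)
    (hυ : Computable υ) : Computable fun a => js2 (σ a) (υ a) := by
  unfold js2
  refine c_map (f := fun a i => if i % 2 = 0 then (σ a).getD (i / 2) false
    else (υ a).getD (i / 2) false) ?_ (by fun_prop)
  have m2 : Computable (fun n : ℕ => n % 2) :=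
    (Primrec.nat_mod.comp Primrec.id (Primrec.const 2)).to_comp
  have d2 : Computable (fun n : ℕ => n / 2) :=
    (Primrec.nat_div.comp Primrec.id (Primrec.const 2)).to_comp
  have h1 : Computable fun p : α × ℕ => p.2 % 2 := m2.comp Computable.snd
  have h2 : Computable fun p : α × ℕ => p.2 / 2 := d2.comp Computable.snd
  exact RE.cite (RE.cp_eq h1 (Computable.const 0)) (c_getD (by fun_prop) h2)
    (c_getD (by fun_prop) h2)

/-- the program `e` computes the string `ρ` from `D ⊕ U` -/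
def Op (U : ℕ → Bool) (e : Code) (ρ : Str) : Set (ℕ → Bool) :=
  {D | ∃ s, (dec e (seg (jn 0 D U) s)).take ρ.length = ρ}

/-- the set of these `D` is large -/
def Big (U : ℕ → Bool) (x : ℕ × ℕ × Str) : Prop :=
  (1 / 2 : ℝ≥0∞) ^ (x.1 + x.2.1 + 1) < lam (Op U (Denumerable.ofNat Code x.2.1) x.2.2)

/-- decoding of numbers -/
def de (a : ℕ) : ℕ × ℕ × Str := (decode (α := ℕ × ℕ × Str) a).getD (0, 0, [])

theorem de_encode (y : ℕ × ℕ × Str) : de (encode y) = y := by
  unfold de
  rw [encodek]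
  rfl

/-- the set of the large classes -/
noncomputable def La (U : ℕ → Bool) : ℕ → Bool := ch fun a => Big U (de a)

/-- the class number `n` -/
def K (U C : ℕ → Bool) (n : ℕ) (D : ℕ → Bool) : Prop :=
  ∀ e m, La U (encode ((n, e, seg C m) : ℕ × ℕ × Str)) = true ∨
    D ∉ Op U (Denumerable.ofNat Code e) (seg C m)

theorem take_prefix_eq {L L' ρ : Str} (h : L <+: L') (h1 : L.take ρ.length = ρ) :
    L'.take ρ.length = ρ := by
  obtain ⟨u, rfl⟩ := h
  have h2 : ρ.length ≤ L.length := by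
    have := congrArg List.length h1
    rw [List.length_take] at this
    omega
  rw [List.take_append_of_le_length h2]
  exact h1

theorem op_mono {U : ℕ → Bool} {e : Code} {ρ : Str} {D : ℕ → Bool} {s t : ℕ} (hst : s ≤ t)
    (h : (dec e (seg (jn 0 D U) s)).take ρ.length = ρ) :
    (dec e (seg (jn 0 D U) t)).take ρ.length = ρ := by
  obtain ⟨d1, d2, d3, d4⟩ := D1
  exact take_prefix_eq (d3 e _ _ (G2_seg_le _ hst)) h

/-- the measure of the approximations -/
def Cn (e : Code) (ρ υ : Str) : ℕ :=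
  ((allStr υ.length).filter fun σ => decide ((dec e (js2 σ υ)).take ρ.length = ρ)).length

theorem lam_stage (U : ℕ → Bool) (e : Code) (ρ : Str) (s : ℕ) :
    lam {D | (dec e (seg (jn 0 D U) s)).take ρ.length = ρ} = (Cn e ρ (seg U s) : ℝ≥0∞) / 2 ^ s := by
  have h := lam_pre_eq s (fun σ => (dec e (js2 σ (seg U s))).take ρ.length = ρ)
  have e1 : {D : ℕ → Bool | (dec e (js2 (pre D s) (seg U s))).take ρ.length = ρ} =
      {D | (dec e (seg (jn 0 D U) s)).take ρ.length = ρ} := by
    ext D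
    show (dec e (js2 (seg D s) (seg U s))).take ρ.length = ρ ↔ _
    rw [js2_seg]
    rfl
  rw [e1] at h
  rw [h]
  unfold Cn
  rw [seg_len]

theorem lam_op (U : ℕ → Bool) (e : Code) (ρ : Str) :
    lam (Op U e ρ) = ⨆ s, (Cn e ρ (seg U s) : ℝ≥0∞) / 2 ^ s := by
  have h1 : Op U e ρ = ⋃ s, {D | (dec e (seg (jn 0 D U) s)).take ρ.length = ρ} := by
    ext D
    simp [Op]
  have h2 : Monotone fun s => {D : ℕ → Bool | (dec e (seg (jn 0 D U) s)).take ρ.length = ρ} :=
    fun s t hst D hD => op_mono hst hD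
  rw [h1, h2.measure_iUnion]
  simp only [lam_stage]

theorem big_iff (U : ℕ → Bool) (x : ℕ × ℕ × Str) : Big U x ↔
    ∃ s, 2 ^ s < Cn (Denumerable.ofNat Code x.2.1) x.2.2 (seg U s) * 2 ^ (x.1 + x.2.1 + 1) := by
  unfold Big
  rw [lam_op, lt_iSup_iff]
  refine exists_congr fun s => ?_
  generalize Cn (Denumerable.ofNat Code x.2.1) x.2.2 (seg U s) = c
  generalize x.1 + x.2.1 + 1 = k
  have h2 : (2 : ℝ≥0∞) ^ s ≠ 0 := by positivity
  have h3 : (2 : ℝ≥0∞) ^ s ≠ ∞ := by finiteness
  have h4 : (2 : ℝ≥0∞) ^ k ≠ 0 := by positivity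
  have h5 : (2 : ℝ≥0∞) ^ k ≠ ∞ := by finiteness
  rw [one_div, ← ENNReal.inv_pow, ENNReal.lt_div_iff_mul_lt (Or.inl h2) (Or.inl h3), mul_comm,
    ← div_eq_mul_inv, ENNReal.div_lt_iff (Or.inl h4) (Or.inl h5)]
  exact_mod_cast Iff.rfl

end Pool.Agent.K9h58.PT
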